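import Pool.Agent.R517.PDS.Defs

/-!
# Project PDS: the Dirichlet kernel of a box on the torus
-/

set_option autoImplicit false

namespace Pool.Agent.R517.PDS

open Finset Equiv
open Pool.Agent.Y998.ST (lam rc lam_lower)

/-- the box in one dimension -/
def Dir.bx (L R : ℕ) [NeZero L] : Finset (ZMod L) := Finset.univ.filter fun z => z.val < R

theorem Dir.sum_bx {L R : ℕ} [NeZero L] (hR : R ≤ L) (f : ZMod L → ℂ) :
    ∑ z ∈ Dir.bx L R, f z = ∑ j ∈ Finset.range R, f (j : ZMod L) := by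
  refine Finset.sum_nbij' (fun z => z.val) (fun n => (n : ZMod L)) ?_ ?_ ?_ ?_ ?_
  · intro z hz
    exact Finset.mem_range.2 (Finset.mem_filter.1 hz).2
  · intro n hn
    refine Finset.mem_filter.2 ⟨Finset.mem_univ _, ?_⟩
    rw [ZMod.val_cast_of_lt ((Finset.mem_range.1 hn).trans_le hR)]
    exact Finset.mem_range.1 hn
  · intro z _
    simp
  · intro n hn
    exact ZMod.val_cast_of_lt ((Finset.mem_range.1 hn).trans_le hR)
  · intro z _
    simp

theorem Dir.card_bx {L R : ℕ} [NeZero L] (hR : R ≤ L) : (Dir.bx L R).card = R := by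
  have h := Dir.sum_bx (L := L) hR (fun _ => 1)
  rw [Finset.sum_const, Finset.sum_const, Finset.card_range, nsmul_eq_mul, nsmul_eq_mul, mul_one,
    mul_one] at h
  exact_mod_cast h

theorem Dir.norm_ch {L : ℕ} [NeZero L] (z : ZMod L) : ‖(ZMod.stdAddChar z : ℂ)‖ = 1 :=
  AddChar.norm_apply _ z

theorem Dir.triv {L R : ℕ} [NeZero L] (hR : R ≤ L) (k : ZMod L) :
    ‖∑ z ∈ Dir.bx L R, (ZMod.stdAddChar (k * z) : ℂ)‖ ≤ R := by
  refine (norm_sum_le _ _).trans ?_
  rw [Finset.sum_congr rfl fun z _ => Dir.norm_ch (k * z), Finset.sum_const, Dir.card_bx hR]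
  simp

theorem Dir.sub_one {L : ℕ} [NeZero L] (k : ZMod L) :
    4 * (|(k.valMinAbs : ℝ)| / L) ≤ ‖(ZMod.stdAddChar k : ℂ) - 1‖ := by
  have h1 := lam_lower k
  have h2 : lam k = ‖(ZMod.stdAddChar k : ℂ) - 1‖ ^ 2 := by
    have h3 : Complex.normSq (ZMod.stdAddChar k : ℂ) = 1 := by
      rw [Complex.normSq_eq_norm_sq, Dir.norm_ch, one_pow]
    rw [← Complex.normSq_eq_norm_sq, Complex.normSq_sub, h3]
    unfold lam rc
    simp
    ring
  rw [h2] at h1
  have h4 : (4 * (|(k.valMinAbs : ℝ)| / L)) ^ 2 ≤ ‖(ZMod.stdAddChar k : ℂ) - 1‖ ^ 2 := by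
    refine le_trans (le_of_eq ?_) h1
    rw [mul_pow, div_pow, div_pow, sq_abs]
    norm_num
  exact (pow_le_pow_iff_left₀ (by positivity) (norm_nonneg _) two_ne_zero).1 h4

theorem Dir.geom {L R : ℕ} [NeZero L] (hR : R ≤ L) (k : ZMod L) (hk : k ≠ 0) :
    ‖∑ z ∈ Dir.bx L R, (ZMod.stdAddChar (k * z) : ℂ)‖ ≤ L / (2 * |(k.valMinAbs : ℝ)|) := by
  have hL : (0 : ℝ) < L := by exact_mod_cast Nat.pos_of_ne_zero (NeZero.ne L)
  have hk0 : (0 : ℝ) < |(k.valMinAbs : ℝ)| := by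
    rw [abs_pos]
    have : k.valMinAbs ≠ 0 := fun h => hk ((ZMod.valMinAbs_eq_zero k).1 h)
    exact_mod_cast this
  rw [Dir.sum_bx hR]
  have h1 : ∀ j ∈ Finset.range R, (ZMod.stdAddChar (k * (j : ZMod L)) : ℂ) =
      (ZMod.stdAddChar k : ℂ) ^ j := by
    intro j _
    rw [← AddChar.map_nsmul_eq_pow, nsmul_eq_mul, mul_comm]
  rw [Finset.sum_congr rfl h1]
  set ζ : ℂ := (ZMod.stdAddChar k : ℂ) with hζ
  set s : ℂ := ∑ j ∈ Finset.range R, ζ ^ j with hs
  have h2 : (ζ - 1) * s = ζ ^ R - 1 := mul_geom_sum ζ R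
  have h3 : ‖ζ - 1‖ * ‖s‖ ≤ 2 := by
    rw [← norm_mul, h2]
    refine (norm_sub_le _ _).trans ?_
    rw [norm_pow, hζ, Dir.norm_ch, one_pow, norm_one]
    norm_num
  have h4 := Dir.sub_one k
  have h6 := (mul_le_mul_of_nonneg_right h4 (norm_nonneg s)).trans h3
  rw [le_div_iff₀ (by positivity)]
  have h7 : 4 * (|(k.valMinAbs : ℝ)| / L) * ‖s‖ = 2 * (‖s‖ * (2 * |(k.valMinAbs : ℝ)|)) / L := by
    field_simp
    ring
  rw [h7, div_le_iff₀ hL] at h6
  linarith

theorem Dir.box_eq (d L R : ℕ) [NeZero L] :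
    box d L R = Fintype.piFinset (fun _ : Fin d => Dir.bx L R) := by
  ext x
  simp only [box, Dir.bx, Finset.mem_filter, Finset.mem_univ, true_and, Fintype.mem_piFinset]

theorem Dir.card_box {d L R : ℕ} [NeZero L] (hR : R ≤ L) : (box d L R).card = R ^ d := by
  rw [Dir.box_eq, Fintype.card_piFinset, Finset.prod_const, Dir.card_bx hR, Finset.card_univ,
    Fintype.card_fin]

theorem Dir.ch_prod {d L : ℕ} [NeZero L] (k x : Fin d → ZMod L) :
    ch k x = ∏ i, (ZMod.stdAddChar (k i * x i) : ℂ) := by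
  unfold ch
  have h : ∀ s : Finset (Fin d), (ZMod.stdAddChar (∑ i ∈ s, k i * x i) : ℂ) =
      ∏ i ∈ s, (ZMod.stdAddChar (k i * x i) : ℂ) := by
    intro s
    induction s using Finset.induction_on with
    | empty => simp
    | insert a s ha ih => rw [Finset.sum_insert ha, Finset.prod_insert ha,
        AddChar.map_add_eq_mul, ih]
  exact h Finset.univ

theorem t_DIR : S_DIR := by
  intro d L R _ hR1 hR k i hki
  have hRpos : (0 : ℝ) < R := by exact_mod_cast hR1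
  have h1 : bh (box d L R) k =
      ∏ j, ((∑ z ∈ Dir.bx L R, (ZMod.stdAddChar (k j * z) : ℂ)) / R) := by
    unfold bh
    rw [Dir.card_box hR, Dir.box_eq, Finset.sum_congr rfl fun b _ => Dir.ch_prod k b,
      ← Finset.prod_univ_sum (fun _ : Fin d => Dir.bx L R)
        (fun j z => (ZMod.stdAddChar (k j * z) : ℂ)), Finset.prod_div_distrib,
      Finset.prod_const, Finset.card_univ, Fintype.card_fin]
    push_cast
    rfl
  rw [h1, norm_prod, ← Finset.mul_prod_erase Finset.univ _ (Finset.mem_univ i)]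
  have h2 : ∏ j ∈ Finset.univ.erase i,
      ‖(∑ z ∈ Dir.bx L R, (ZMod.stdAddChar (k j * z) : ℂ)) / R‖ ≤ 1 := by
    refine Finset.prod_le_one (fun j _ => norm_nonneg _) fun j _ => ?_
    rw [norm_div, Complex.norm_natCast, div_le_one hRpos]
    exact Dir.triv hR (k j)
  have h3 : ‖(∑ z ∈ Dir.bx L R, (ZMod.stdAddChar (k i * z) : ℂ)) / R‖ ≤
      L / (2 * R * |((k i).valMinAbs : ℝ)|) := by
    rw [norm_div, Complex.norm_natCast]
    refine (div_le_div_of_nonneg_right (Dir.geom hR (k i) hki) hRpos.le).trans (le_of_eq ?_)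
    rw [div_div]
    congr 1
    ring
  calc _ ≤ ‖(∑ z ∈ Dir.bx L R, (ZMod.stdAddChar (k i * z) : ℂ)) / R‖ * 1 :=
        mul_le_mul_of_nonneg_left h2 (norm_nonneg _)
    _ ≤ _ := by
        rw [mul_one]
        exact h3

theorem t_NEAR : S_NEAR := by
  intro d L R _ hR1 hR k
  refine ⟨Dir.card_box hR, fun b hb => ?_⟩
  have hL : (0 : ℝ) < L := by exact_mod_cast Nat.pos_of_ne_zero (NeZero.ne L)
  have hpi := Real.pi_pos
  have hb' : ∀ i, (b i).val < R := (Finset.mem_filter.1 hb).2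
  set m : ℤ := ∑ i, (k i).valMinAbs * ((b i).val : ℤ) with hm
  have h1 : ch k b = Complex.exp (Complex.I * ((2 * Real.pi * m / L : ℝ) : ℂ)) := by
    unfold ch
    have h2 : ∑ i, k i * b i = ((m : ℤ) : ZMod L) := by
      rw [hm]
      push_cast
      refine Finset.sum_congr rfl fun i _ => ?_
      rw [ZMod.natCast_zmod_val]
    rw [h2, ZMod.stdAddChar_coe]
    congr 1
    push_cast
    ring
  rw [h1]
  refine Real.norm_exp_I_mul_ofReal_sub_one_le.trans ?_
  have h3 : |(m : ℝ)| ≤ ∑ i, |((k i).valMinAbs : ℝ)| * R := by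
    rw [hm]
    push_cast
    refine (Finset.abs_sum_le_sum_abs _ _).trans (Finset.sum_le_sum fun i _ => ?_)
    rw [abs_mul, Nat.abs_cast]
    refine mul_le_mul_of_nonneg_left ?_ (abs_nonneg _)
    exact_mod_cast (hb' i).le
  rw [Real.norm_eq_abs, abs_div, abs_mul, abs_mul, abs_of_pos (two_pos : (0 : ℝ) < 2),
    abs_of_pos hpi, Nat.abs_cast, div_le_iff₀ hL, Finset.sum_mul]
  calc 2 * Real.pi * |(m : ℝ)| ≤ 2 * Real.pi * ∑ i, |((k i).valMinAbs : ℝ)| * R :=
        mul_le_mul_of_nonneg_left h3 (by positivity)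
    _ = _ := by
        rw [Finset.mul_sum]
        refine Finset.sum_congr rfl fun i _ => ?_
        field_simp

end Pool.Agent.R517.PDS
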