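import Pool.Agent.R517.PDS.Defs

/-!
# Project PDS: the characters are eigenfunctions of the walk on the torus
-/

set_option autoImplicit false

namespace Pool.Agent.R517.PDS

open Finset Equiv
open Pool.Agent.Y998.ST (stirLaw stirExp hop nnRate lam rc rc_neg gk hk qq qq_eq_hk)

theorem Eig.rc_coe {L : ℕ} [NeZero L] (x : ZMod L) :
    ((rc x : ℝ) : ℂ) = ((ZMod.stdAddChar x : ℂ) + (ZMod.stdAddChar (-x) : ℂ)) / 2 := by
  rw [rc_neg, Complex.add_conj]
  unfold rc
  push_cast
  ring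

theorem Eig.lam_neg {L : ℕ} [NeZero L] (k : ZMod L) : lam (-k) = lam k := by
  unfold lam rc
  rw [rc_neg, Complex.conj_re]

theorem Eig.gk_fourier {L : ℕ} [NeZero L] (t : ℝ) (k : ZMod L) :
    ∑ u : ZMod L, (gk L t u : ℂ) * (ZMod.stdAddChar (k * u) : ℂ) =
      ((Real.exp (-(t * lam k)) : ℝ) : ℂ) := by
  have hL : (L : ℂ) ≠ 0 := by exact_mod_cast NeZero.ne L
  have h1 : ∀ u : ZMod L, (gk L t u : ℂ) * (ZMod.stdAddChar (k * u) : ℂ) =
      ∑ j : ZMod L, (1 / (L : ℂ)) * ((Real.exp (-(t * lam j)) : ℝ) : ℂ) *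
        (((ZMod.stdAddChar (u * (j + k)) : ℂ) + (ZMod.stdAddChar (u * (k - j)) : ℂ)) / 2) := by
    intro u
    unfold gk
    rw [Complex.ofReal_mul, Complex.ofReal_sum, Finset.mul_sum, Finset.sum_mul]
    refine Finset.sum_congr rfl fun j _ => ?_
    rw [Complex.ofReal_mul, Eig.rc_coe]
    have e1 : u * (j + k) = j * u + k * u := by ring
    have e2 : u * (k - j) = -(j * u) + k * u := by ring
    rw [e1, e2, AddChar.map_add_eq_mul, AddChar.map_add_eq_mul]
    push_cast
    ring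
  rw [Finset.sum_congr rfl fun u _ => h1 u, Finset.sum_comm]
  have h2 : ∀ b : ZMod L, ∑ u : ZMod L, (ZMod.stdAddChar (u * b) : ℂ) =
      if b = 0 then (L : ℂ) else 0 := by
    intro b
    rw [AddChar.sum_mulShift b (ZMod.isPrimitive_stdAddChar L), ZMod.card]
    split_ifs <;> simp
  have h3 : ∀ j : ZMod L, ∑ u : ZMod L, (1 / (L : ℂ)) * ((Real.exp (-(t * lam j)) : ℝ) : ℂ) *
        (((ZMod.stdAddChar (u * (j + k)) : ℂ) + (ZMod.stdAddChar (u * (k - j)) : ℂ)) / 2) =
      (if j = -k then ((Real.exp (-(t * lam j)) : ℝ) : ℂ) / 2 else 0) +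
        (if j = k then ((Real.exp (-(t * lam j)) : ℝ) : ℂ) / 2 else 0) := by
    intro j
    rw [← Finset.mul_sum, ← Finset.sum_div, Finset.sum_add_distrib, h2, h2]
    have e1 : (j + k = 0) ↔ (j = -k) := by rw [add_eq_zero_iff_eq_neg]
    have e2 : (k - j = 0) ↔ (j = k) := by rw [sub_eq_zero]; exact eq_comm
    simp only [e1, e2]
    split_ifs <;> field_simp <;> ring
  rw [Finset.sum_congr rfl fun j _ => h3 j, Finset.sum_add_distrib, Finset.sum_ite_eq',
    Finset.sum_ite_eq', if_pos (Finset.mem_univ _), if_pos (Finset.mem_univ _), Eig.lam_neg]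
  ring

theorem Eig.ch_prod {d L : ℕ} [NeZero L] (k x : Fin d → ZMod L) :
    ch k x = ∏ i, (ZMod.stdAddChar (k i * x i) : ℂ) := by
  unfold ch
  have h : ∀ s : Finset (Fin d), (ZMod.stdAddChar (∑ i ∈ s, k i * x i) : ℂ) =
      ∏ i ∈ s, (ZMod.stdAddChar (k i * x i) : ℂ) := by
    intro s
    induction s using Finset.induction_on with
    | empty => simp
    | insert a s ha ih => rw [Finset.sum_insert ha, Finset.prod_insert ha,
        AddChar.map_add_eq_mul, ih]
  exact h Finset.univ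

theorem t_EIG : S_EIG := by
  intro d L _ hL t k x
  have h0 : ∀ y : Fin d → ZMod L, (hop (nnRate d L) t x y : ℂ) * ch k y =
      ∏ i, ((gk L t (y i - x i) : ℂ) * (ZMod.stdAddChar (k i * y i) : ℂ)) := by
    intro y
    have h1 : hop (nnRate d L) t x y = hk d L t x y := by
      rw [← qq_eq_hk hL]
      rfl
    rw [h1, Eig.ch_prod, Finset.prod_mul_distrib]
    unfold hk
    rw [Complex.ofReal_prod]
  rw [Finset.sum_congr rfl fun y _ => h0 y]
  have h2 := Finset.prod_univ_sum (fun _ : Fin d => (Finset.univ : Finset (ZMod L)))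
    (fun i z => (gk L t (z - x i) : ℂ) * (ZMod.stdAddChar (k i * z) : ℂ))
  rw [Fintype.piFinset_univ] at h2
  rw [← h2, Eig.ch_prod]
  have h3 : ∀ i : Fin d, ∑ z : ZMod L, (gk L t (z - x i) : ℂ) * (ZMod.stdAddChar (k i * z) : ℂ) =
      ((Real.exp (-(t * lam (k i))) : ℝ) : ℂ) * (ZMod.stdAddChar (k i * x i) : ℂ) := by
    intro i
    rw [← Eig.gk_fourier, Finset.sum_mul]
    refine Fintype.sum_equiv (Equiv.subRight (x i)) _ _ fun z => ?_
    rw [Equiv.subRight_apply]
    have e : k i * z = k i * (z - x i) + k i * x i := by ring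
    rw [mul_assoc, ← AddChar.map_add_eq_mul, ← e]
  rw [Finset.prod_congr rfl fun i _ => h3 i, Finset.prod_mul_distrib]
  congr 1
  unfold ev
  rw [← Complex.ofReal_prod, ← Real.exp_sum, Finset.mul_sum, ← Finset.sum_neg_distrib]

end Pool.Agent.R517.PDS
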