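import Pool.Agent.R517.PDS.Defs
import Pool.Agent.Y998.LP.Law2
import Pool.Agent.TH268.PD.Drift
import Pool.Agent.TH268.PD.Count

/-!
# PDS-KE: second order exchangeability: destinations and cycles are nearly uncorrelated
-/

set_option autoImplicit false

namespace Pool.Agent.R517.PDS

open Finset Equiv
open Pool.Agent.Y998.ST
open Pool.Agent.Y998.LP (NN law_add law_inv)

section ke

variable {V : Type} [Fintype V] [DecidableEq V]

theorem same_right (g : Perm V) {x y : V} (hxy : x ≠ y) :
    (g * swap x y).SameCycle x y ↔ ¬ g.SameCycle x y := by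
  constructor
  · intro h1 h2
    exact Pool.Agent.TH268.PD.Drift.not_same g x y hxy h2 h1
  · intro h
    exact Pool.Agent.TH268.PD.Count.joined g x y h

theorem same_left (g : Perm V) {x y : V} (hxy : x ≠ y) :
    (swap x y * g).SameCycle x y ↔ ¬ g.SameCycle x y := by
  rw [← Perm.sameCycle_inv, mul_inv_rev, swap_inv, same_right _ hxy, Perm.sameCycle_inv]

/-- the l1 norm of the mixed second difference -/
theorem second_diff (J : V → V → ℝ) (t : ℝ) (x y : V) :
    ∑ g : Perm V, |stirLaw J t g - stirLaw J t (swap x y * g) - stirLaw J t (g * swap x y) +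
      stirLaw J t (swap x y * g * swap x y)| ≤ NN J (t / 2) (swap x y) ^ 2 := by
  obtain ⟨τ, hτ⟩ : ∃ τ : Perm V, τ = swap x y := ⟨_, rfl⟩
  have hτi : τ⁻¹ = τ := by rw [hτ, swap_inv]
  have hττ : τ * τ = 1 := by rw [hτ, swap_mul_self]
  rw [← hτ]
  have ht : t = t / 2 + t / 2 := by ring
  have h1 : ∀ g : Perm V, stirLaw J t g = ∑ k, stirLaw J (t / 2) k *
      stirLaw J (t / 2) (k⁻¹ * g) := by
    intro g
    conv_lhs => rw [ht]
    exact law_add J _ _ g
  have h2 : ∀ g : Perm V, stirLaw J t (τ * g) = ∑ k, stirLaw J (t / 2) (τ * k) *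
      stirLaw J (t / 2) (k⁻¹ * g) := by
    intro g
    rw [h1, ← Equiv.sum_comp (Equiv.mulLeft τ)]
    refine Finset.sum_congr rfl fun k _ => ?_
    rw [Equiv.coe_mulLeft, mul_inv_rev, hτi]
    congr 2
    calc k⁻¹ * τ * (τ * g) = k⁻¹ * (τ * τ) * g := by group
      _ = k⁻¹ * g := by rw [hττ, mul_one]
  have h3 : ∀ g : Perm V, stirLaw J t g - stirLaw J t (τ * g) - stirLaw J t (g * τ) +
      stirLaw J t (τ * g * τ) = ∑ k, (stirLaw J (t / 2) k - stirLaw J (t / 2) (τ * k)) *
      (stirLaw J (t / 2) (k⁻¹ * g) - stirLaw J (t / 2) (k⁻¹ * g * τ)) := by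
    intro g
    rw [mul_assoc τ g τ, h2 (g * τ), h2 g, h1 (g * τ), h1 g, ← Finset.sum_sub_distrib,
      ← Finset.sum_sub_distrib, ← Finset.sum_add_distrib]
    refine Finset.sum_congr rfl fun k _ => ?_
    rw [← mul_assoc]
    ring
  have h4 : ∑ g : Perm V, |stirLaw J (t / 2) g - stirLaw J (t / 2) (τ * g)| =
      NN J (t / 2) τ := by
    unfold NN
    refine Finset.sum_congr rfl fun g _ => ?_
    rw [hτi, abs_sub_comm]
  have h5 : ∑ g : Perm V, |stirLaw J (t / 2) g - stirLaw J (t / 2) (g * τ)| =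
      NN J (t / 2) τ := by
    rw [← h4, ← Equiv.sum_comp (Equiv.inv (Perm V))]
    refine Finset.sum_congr rfl fun g _ => ?_
    rw [Equiv.inv_apply, law_inv]
    have h6 : g⁻¹ * τ = (τ * g)⁻¹ := by rw [mul_inv_rev, hτi]
    rw [h6, law_inv]
  calc ∑ g : Perm V, |stirLaw J t g - stirLaw J t (τ * g) - stirLaw J t (g * τ) +
      stirLaw J t (τ * g * τ)|
      = ∑ g : Perm V, |∑ k, (stirLaw J (t / 2) k - stirLaw J (t / 2) (τ * k)) *
      (stirLaw J (t / 2) (k⁻¹ * g) - stirLaw J (t / 2) (k⁻¹ * g * τ))| :=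
        Finset.sum_congr rfl fun g _ => by rw [h3 g]
    _ ≤ ∑ g : Perm V, ∑ k, |stirLaw J (t / 2) k - stirLaw J (t / 2) (τ * k)| *
      |stirLaw J (t / 2) (k⁻¹ * g) - stirLaw J (t / 2) (k⁻¹ * g * τ)| := by
        refine Finset.sum_le_sum fun g _ => (Finset.abs_sum_le_sum_abs _ _).trans ?_
        exact le_of_eq (Finset.sum_congr rfl fun k _ => abs_mul _ _)
    _ = ∑ k : Perm V, |stirLaw J (t / 2) k - stirLaw J (t / 2) (τ * k)| *
      NN J (t / 2) τ := by
        rw [Finset.sum_comm]
        refine Finset.sum_congr rfl fun k _ => ?_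
        rw [← Finset.mul_sum, ← h5]
        congr 1
        rw [← Equiv.sum_comp (Equiv.mulLeft k⁻¹)
          (fun g => |stirLaw J (t / 2) g - stirLaw J (t / 2) (g * τ)|)]
        rfl
    _ = NN J (t / 2) τ ^ 2 := by rw [← Finset.sum_mul, h4, sq]

theorem exp_add' (J : V → V → ℝ) (t : ℝ) (F G : Perm V → ℝ) :
    stirExp J t (fun g => F g + G g) = stirExp J t F + stirExp J t G := by
  unfold stirExp
  rw [← Finset.sum_add_distrib]
  exact Finset.sum_congr rfl fun g _ => by ring

theorem exp_smul' (J : V → V → ℝ) (t c : ℝ) (F : Perm V → ℝ) :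
    stirExp J t (fun g => c * F g) = c * stirExp J t F := by
  unfold stirExp
  rw [Finset.mul_sum]
  exact Finset.sum_congr rfl fun g _ => by ring

theorem exp_mu (J : V → V → ℝ) (t : ℝ) (f : V → ℝ) (x : V) :
    stirExp J t (fun g => f (g x)) = mu J t f x := by
  unfold mu hop
  have h1 : (fun g : Perm V => f (g x)) = fun g => ∑ z, f z * (if g x = z then 1 else 0) := by
    funext g
    simp only [mul_ite, mul_one, mul_zero]
    rw [Finset.sum_ite_eq, if_pos (Finset.mem_univ _)]
  rw [h1, ← exp_sum]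
  refine Finset.sum_congr rfl fun z _ => ?_
  rw [exp_smul', mul_comm]

/-- invariant functions under a sign change: the estimate of `E Ψ` -/
theorem psi_bound {J : V → V → ℝ} (hJ : ∀ x y, 0 ≤ J x y) {t : ℝ} (ht : 0 ≤ t)
    (x y : V) (Ψ Θ : Perm V → ℝ) (η δ : ℝ) (hη : NN J (t / 2) (swap x y) ≤ η)
    (hb : ∀ g, |Ψ g| ≤ 2) (hr : ∀ g, Ψ (g * swap x y) = -Ψ g)
    (hl : ∀ g, Ψ g + Ψ (swap x y * g) ≤ Θ g) (hΘ : stirExp J t Θ ≤ δ) :
    stirExp J t Ψ ≤ η ^ 2 / 2 + δ / 2 := by
  obtain ⟨τ, hτ⟩ : ∃ τ : Perm V, τ = swap x y := ⟨_, rfl⟩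
  have hττ : τ * τ = 1 := by rw [hτ, swap_mul_self]
  have h0 := second_diff J t x y
  rw [← hτ] at h0 hr hl hη
  have hNN : 0 ≤ NN J (t / 2) τ := Pool.Agent.Y998.LP.NN_nonneg J _ _
  have h1 : ∑ g : Perm V, (stirLaw J t g - stirLaw J t (τ * g) - stirLaw J t (g * τ) +
      stirLaw J t (τ * g * τ)) * Ψ g ≤ 2 * η ^ 2 := by
    calc ∑ g : Perm V, (stirLaw J t g - stirLaw J t (τ * g) - stirLaw J t (g * τ) +
      stirLaw J t (τ * g * τ)) * Ψ g
        ≤ ∑ g : Perm V, |stirLaw J t g - stirLaw J t (τ * g) - stirLaw J t (g * τ) +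
      stirLaw J t (τ * g * τ)| * 2 := by
          refine Finset.sum_le_sum fun g _ => ?_
          refine (le_abs_self _).trans ?_
          rw [abs_mul]
          exact mul_le_mul_of_nonneg_left (hb g) (abs_nonneg _)
      _ ≤ NN J (t / 2) τ ^ 2 * 2 := by
          rw [← Finset.sum_mul]
          exact mul_le_mul_of_nonneg_right h0 (by norm_num)
      _ ≤ 2 * η ^ 2 := by nlinarith
  have e1 : ∑ g : Perm V, stirLaw J t (τ * g) * Ψ g = stirExp J t (fun g => Ψ (τ * g)) := by
    unfold stirExp
    rw [← Equiv.sum_comp (Equiv.mulLeft τ)]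
    refine Finset.sum_congr rfl fun g _ => ?_
    rw [Equiv.coe_mulLeft, ← mul_assoc, hττ, one_mul]
  have e2 : ∑ g : Perm V, stirLaw J t (g * τ) * Ψ g = -stirExp J t Ψ := by
    unfold stirExp
    rw [← Equiv.sum_comp (Equiv.mulRight τ), ← Finset.sum_neg_distrib]
    refine Finset.sum_congr rfl fun g _ => ?_
    rw [Equiv.coe_mulRight, mul_assoc, hττ, mul_one, hr]
    ring
  have e3 : ∑ g : Perm V, stirLaw J t (τ * g * τ) * Ψ g =
      -stirExp J t (fun g => Ψ (τ * g)) := by
    unfold stirExp
    rw [← Equiv.sum_comp ((Equiv.mulLeft τ).trans (Equiv.mulRight τ)), ← Finset.sum_neg_distrib]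
    refine Finset.sum_congr rfl fun g _ => ?_
    have e4 : ((Equiv.mulLeft τ).trans (Equiv.mulRight τ)) g = τ * g * τ := rfl
    rw [e4, hr (τ * g)]
    have e5 : τ * (τ * g * τ) * τ = g := by
      calc τ * (τ * g * τ) * τ = (τ * τ) * g * (τ * τ) := by group
        _ = g := by rw [hττ, one_mul, mul_one]
    rw [e5]
    ring
  have h2 : ∑ g : Perm V, (stirLaw J t g - stirLaw J t (τ * g) - stirLaw J t (g * τ) +
      stirLaw J t (τ * g * τ)) * Ψ g =
      2 * stirExp J t Ψ - 2 * stirExp J t (fun g => Ψ (τ * g)) := by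
    have h3 : ∀ g : Perm V, (stirLaw J t g - stirLaw J t (τ * g) - stirLaw J t (g * τ) +
      stirLaw J t (τ * g * τ)) * Ψ g = stirLaw J t g * Ψ g - stirLaw J t (τ * g) * Ψ g -
        stirLaw J t (g * τ) * Ψ g + stirLaw J t (τ * g * τ) * Ψ g := fun g => by ring
    rw [Finset.sum_congr rfl fun g _ => h3 g, Finset.sum_add_distrib, Finset.sum_sub_distrib,
      Finset.sum_sub_distrib, e1, e2, e3]
    have e6 : ∑ g, stirLaw J t g * Ψ g = stirExp J t Ψ := rfl
    rw [e6]
    ring
  have h4 : stirExp J t Ψ + stirExp J t (fun g => Ψ (τ * g)) ≤ δ := by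
    rw [← exp_add']
    exact (exp_mono hJ ht hl).trans hΘ
  linarith

theorem t_KE (hN : S_NEG) : S_KE := by
  classical
  intro V _ _ J hJ hs h0 t ht f hf p hp B η lm q β hη0 hlm0 hq0 hβ0 hη hlm hq hβ
  obtain ⟨K, hK⟩ : ∃ K : ℝ, K = β ^ 2 / 2 + η ^ 2 / 2 + 4 * lm * q := ⟨_, rfl⟩
  have hK0 : 0 ≤ K := by rw [hK]; positivity
  have ha : ∀ z, |f z - p| ≤ 2 := by
    intro z
    have h1 := abs_sub (f z) p
    have h2 : |f z - p| ≤ |f z| + |p| := h1
    linarith [hf z]
  have main : ∀ x ∈ B, ∀ y ∈ B, stirExp J t (fun g => if g.SameCycle x y then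
      (f (g x) - p) * (f (g y) - p) else 0) ≤ (if x = y then 4 else 0) + K := by
    intro x hx y hy
    by_cases hxy : x = y
    · rw [if_pos hxy]
      have h1 : stirExp J t (fun g => if g.SameCycle x y then
          (f (g x) - p) * (f (g y) - p) else 0) ≤ stirExp J t (fun _ => 4) := by
        refine exp_mono hJ ht fun g => ?_
        split_ifs
        · refine (le_abs_self _).trans ?_
          rw [abs_mul]
          have h3 := ha (g x)
          have h4 := ha (g y)
          have h5 := abs_nonneg (f (g x) - p)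
          have h6 := abs_nonneg (f (g y) - p)
          nlinarith
        · norm_num
      rw [exp_const] at h1
      linarith
    rw [if_neg hxy, zero_add]
    obtain ⟨Ψ, hΨ⟩ : ∃ Ψ : Perm V → ℝ, Ψ = fun g => (f (g x) - p) * (f (g y) - p) *
      ((if g.SameCycle x y then 1 else 0) - 1 / 2) := ⟨_, rfl⟩
    obtain ⟨Θ, hΘ⟩ : ∃ Θ : Perm V → ℝ, Θ = fun g => lm * (((if g x = x then 1 else 0) +
      (if g x = y then 1 else 0)) + ((if g y = x then 1 else 0) +
      (if g y = y then 1 else 0))) := ⟨_, rfl⟩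
    have hhalf : ∀ P : Prop, ∀ [Decidable P], |(if P then (1 : ℝ) else 0) - 1 / 2| = 1 / 2 := by
      intro P _
      split_ifs
      · norm_num
      · norm_num
    have k1 : ∀ g, |Ψ g| ≤ 2 := by
      intro g
      rw [hΨ]
      simp only []
      rw [abs_mul, abs_mul, hhalf]
      have h3 := ha (g x)
      have h4 := ha (g y)
      have h5 := abs_nonneg (f (g x) - p)
      have h6 := abs_nonneg (f (g y) - p)
      nlinarith
    have k2 : ∀ g, Ψ (g * swap x y) = -Ψ g := by
      intro g
      rw [hΨ]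
      simp only [Perm.mul_apply, swap_apply_left, swap_apply_right]
      by_cases h : g.SameCycle x y
      · rw [if_pos h, if_neg (fun h' => (same_right g hxy).1 h' h)]; ring
      · rw [if_neg h, if_pos ((same_right g hxy).2 h)]; ring
    have k3a : ∀ z : V, |f z - f (swap x y z)| ≤ lm * ((if z = x then 1 else 0) +
        (if z = y then 1 else 0)) := by
      intro z
      by_cases hzx : z = x
      · subst hzx
        rw [swap_apply_left, if_pos rfl, if_neg hxy]
        have := hlm z hx y hy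
        linarith
      · by_cases hzy : z = y
        · subst hzy
          rw [swap_apply_right, if_neg hzx, if_pos rfl]
          have := hlm z hy x hx
          linarith
        · rw [swap_apply_of_ne_of_ne hzx hzy, if_neg hzx, if_neg hzy]
          simp
    have k3 : ∀ g, Ψ g + Ψ (swap x y * g) ≤ Θ g := by
      intro g
      have h1 : Ψ g + Ψ (swap x y * g) = ((f (g x) - p) * (f (g y) - p) -
          (f (swap x y (g x)) - p) * (f (swap x y (g y)) - p)) *
          ((if g.SameCycle x y then 1 else 0) - 1 / 2) := by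
        rw [hΨ]
        simp only [Perm.mul_apply]
        by_cases h : g.SameCycle x y
        · rw [if_pos h, if_neg (fun h' => (same_left g hxy).1 h' h)]; ring
        · rw [if_neg h, if_pos ((same_left g hxy).2 h)]; ring
      rw [h1]
      refine (le_abs_self _).trans ?_
      rw [abs_mul, hhalf]
      have h2 : (f (g x) - p) * (f (g y) - p) -
          (f (swap x y (g x)) - p) * (f (swap x y (g y)) - p) =
          (f (g x) - f (swap x y (g x))) * (f (g y) - p) +
          (f (swap x y (g x)) - p) * (f (g y) - f (swap x y (g y))) := by ring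
      rw [h2]
      have h3 := abs_add_le ((f (g x) - f (swap x y (g x))) * (f (g y) - p))
        ((f (swap x y (g x)) - p) * (f (g y) - f (swap x y (g y))))
      rw [abs_mul, abs_mul] at h3
      have h4 := k3a (g x)
      have h5 := k3a (g y)
      have h6 : |f (g x) - f (swap x y (g x))| * |f (g y) - p| ≤
          |f (g x) - f (swap x y (g x))| * 2 :=
        mul_le_mul_of_nonneg_left (ha _) (abs_nonneg _)
      have h7 : |f (swap x y (g x)) - p| * |f (g y) - f (swap x y (g y))| ≤
          2 * |f (g y) - f (swap x y (g y))| :=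
        mul_le_mul_of_nonneg_right (ha _) (abs_nonneg _)
      rw [hΘ]
      simp only []
      linarith
    have k4 : stirExp J t Θ ≤ 4 * lm * q := by
      rw [hΘ, exp_smul', exp_add', exp_add', exp_add']
      have e1 : ∀ a b : V, stirExp J t (fun g => if g a = b then 1 else 0) = hop J t a b :=
        fun a b => rfl
      rw [e1, e1, e1, e1]
      have h3 := hq x hx x hx
      have h4 := hq x hx y hy
      have h5 := hq y hy x hx
      have h6 := hq y hy y hy
      have h7 : hop J t x x + hop J t x y + (hop J t y x + hop J t y y) ≤ 4 * q := by linarith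
      calc lm * (hop J t x x + hop J t x y + (hop J t y x + hop J t y y)) ≤ lm * (4 * q) :=
            mul_le_mul_of_nonneg_left h7 hlm0
        _ = 4 * lm * q := by ring
    have k5 := psi_bound hJ ht x y Ψ Θ η (4 * lm * q) (hη x hx y hy) k1 k2 k3 k4
    have k6 : stirExp J t (fun g => (f (g x) - p) * (f (g y) - p)) ≤ β ^ 2 := by
      have h1 : stirExp J t (fun g => (f (g x) - p) * (f (g y) - p)) =
          stirExp J t (fun g => f (g x) * f (g y)) + ((-p) * stirExp J t (fun g => f (g x)) +
            ((-p) * stirExp J t (fun g => f (g y)) + stirExp J t (fun _ => p ^ 2))) := by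
        rw [← exp_smul', ← exp_smul', ← exp_add', ← exp_add', ← exp_add']
        congr 1
        funext g
        ring
      rw [h1, exp_mu, exp_mu, exp_const]
      have h2 := hN V J hJ hs h0 t ht f x y hxy
      have h3 := hβ x hx
      have h4 := hβ y hy
      have h5 : (mu J t f x - p) * (mu J t f y - p) ≤ β ^ 2 := by
        refine (le_abs_self _).trans ?_
        rw [abs_mul, sq]
        exact mul_le_mul h3 h4 (abs_nonneg _) hβ0
      nlinarith
    have k7 : stirExp J t (fun g => if g.SameCycle x y then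
        (f (g x) - p) * (f (g y) - p) else 0) =
        1 / 2 * stirExp J t (fun g => (f (g x) - p) * (f (g y) - p)) + stirExp J t Ψ := by
      rw [← exp_smul', ← exp_add']
      congr 1
      funext g
      rw [hΨ]
      simp only []
      split_ifs <;> ring
    rw [k7, hK]
    have hlq : 0 ≤ lm * q := mul_nonneg hlm0 hq0
    nlinarith
  have hsum : stirExp J t (fun g => DR g B fun x => f (g x) - p) =
      ∑ x ∈ B, ∑ y ∈ B, stirExp J t (fun g => if g.SameCycle x y then
        (f (g x) - p) * (f (g y) - p) else 0) := by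
    unfold DR
    rw [← exp_sum]
    refine Finset.sum_congr rfl fun x _ => ?_
    rw [exp_sum]
  rw [hsum]
  calc ∑ x ∈ B, ∑ y ∈ B, stirExp J t (fun g => if g.SameCycle x y then
        (f (g x) - p) * (f (g y) - p) else 0)
      ≤ ∑ x ∈ B, ∑ y ∈ B, ((if x = y then 4 else 0) + K) :=
        Finset.sum_le_sum fun x hx => Finset.sum_le_sum fun y hy => main x hx y hy
    _ = 4 * B.card + (B.card : ℝ) ^ 2 * K := by
        have h1 : ∀ x ∈ B, ∑ y ∈ B, ((if x = y then (4 : ℝ) else 0) + K) = 4 + B.card * K := by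
          intro x hx
          rw [Finset.sum_add_distrib, Finset.sum_ite_eq, if_pos hx, Finset.sum_const,
            nsmul_eq_mul]
        rw [Finset.sum_congr rfl h1, Finset.sum_const, nsmul_eq_mul]
        ring
    _ = _ := by rw [hK]

end ke

end Pool.Agent.R517.PDS
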