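import Pool.Agent.R517.PDS.Defs

/-!
# Project PDS: lower bound for the differences of the eigenvalues (PDS-LOW)
-/

set_option autoImplicit false

namespace Pool.Agent.R517.PDS

open Finset Equiv
open Pool.Agent.Y998.ST (stirLaw stirExp hop nnRate lam rc)

namespace LOW

theorem lam_int (L : ℕ) [NeZero L] (m : ℤ) :
    lam (m : ZMod L) = 2 - 2 * Real.cos (2 * Real.pi * m / L) := by
  unfold lam rc
  have h3 : (2 * Real.pi * Complex.I * m / L : ℂ) =
      ((2 * Real.pi * m / L : ℝ) : ℂ) * Complex.I := by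
    push_cast
    ring
  rw [ZMod.stdAddChar_coe, h3, Complex.exp_ofReal_mul_I_re]

theorem vma (L : ℕ) [NeZero L] (m : ℤ) (h : 2 * |m| < L) : (m : ZMod L).valMinAbs = m := by
  rw [ZMod.valMinAbs_spec]
  refine ⟨rfl, ?_⟩
  rw [Set.mem_Ioc]
  have h1 := neg_abs_le m
  have h2 := le_abs_self m
  constructor <;> linarith

theorem lam_neg (L : ℕ) [NeZero L] (m : ℤ) : lam ((-m : ℤ) : ZMod L) = lam (m : ZMod L) := by
  rw [lam_int, lam_int]
  have : (2 * Real.pi * ((-m : ℤ) : ℝ) / L : ℝ) = -(2 * Real.pi * m / L) := by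
    push_cast; ring
  rw [this, Real.cos_neg]

theorem lam_sgn (L : ℕ) [NeZero L] (σ : ℤ) (hσ : σ = 1 ∨ σ = -1) (p : ℤ) :
    lam ((σ * p : ℤ) : ZMod L) = lam (p : ZMod L) := by
  rcases hσ with h | h
  · rw [h, one_mul]
  · rw [h, neg_one_mul, lam_neg]

theorem lam_le (L : ℕ) [NeZero L] (m : ℤ) :
    lam (m : ZMod L) ≤ (2 * Real.pi * m / L) ^ 2 := by
  rw [lam_int]
  have := Real.one_sub_sq_div_two_le_cos (x := 2 * Real.pi * m / L)
  linarith

theorem lam_diff (L M : ℕ) [NeZero L] (hML : 12 * M ≤ L) (m n : ℕ) (hm : m ≤ M)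
    (hn : n ≤ 2 * M) :
    16 * (2 * n + m) * m / (L : ℝ) ^ 2 ≤
      lam (((m + n : ℕ) : ℤ) : ZMod L) - lam ((n : ℤ) : ZMod L) := by
  have hL : (0 : ℝ) < L := by exact_mod_cast Nat.pos_of_ne_zero (NeZero.ne L)
  have hLM : 12 * (M : ℝ) ≤ L := by exact_mod_cast hML
  have hm' : (m : ℝ) ≤ M := by exact_mod_cast hm
  have hn' : (n : ℝ) ≤ 2 * M := by exact_mod_cast hn
  have hm0 : (0 : ℝ) ≤ m := Nat.cast_nonneg _
  have hn0 : (0 : ℝ) ≤ n := Nat.cast_nonneg _
  have hpi := Real.pi_pos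
  rw [lam_int, lam_int]
  have h1 : 2 - 2 * Real.cos (2 * Real.pi * (((m + n : ℕ) : ℤ) : ℝ) / L) -
      (2 - 2 * Real.cos (2 * Real.pi * ((n : ℤ) : ℝ) / L)) =
      2 * (Real.cos (2 * Real.pi * ((n : ℤ) : ℝ) / L) -
        Real.cos (2 * Real.pi * (((m + n : ℕ) : ℤ) : ℝ) / L)) := by ring
  rw [h1, Real.cos_sub_cos]
  have h2 : (2 * Real.pi * ((n : ℤ) : ℝ) / L + 2 * Real.pi * (((m + n : ℕ) : ℤ) : ℝ) / L) / 2 =
      Real.pi * ((2 * n + m) / L) := by push_cast; ring
  have h3 : (2 * Real.pi * ((n : ℤ) : ℝ) / L - 2 * Real.pi * (((m + n : ℕ) : ℤ) : ℝ) / L) / 2 =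
      -(Real.pi * (m / L)) := by push_cast; ring
  rw [h2, h3, Real.sin_neg]
  have h4 : (0 : ℝ) ≤ (2 * n + m) / L := by positivity
  have h5 : ((2 * n + m) / L : ℝ) ≤ 1 / 2 := by
    rw [div_le_iff₀ hL]; linarith
  have h6 : (0 : ℝ) ≤ m / L := by positivity
  have h7 : (m / L : ℝ) ≤ 1 / 2 := by
    rw [div_le_iff₀ hL]; linarith
  have h8 := Real.mul_le_sin (x := Real.pi * ((2 * n + m) / L)) (by positivity) (by nlinarith)
  have h9 := Real.mul_le_sin (x := Real.pi * (m / L)) (by positivity) (by nlinarith)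
  have h10 : 2 / Real.pi * (Real.pi * ((2 * n + m) / L)) = 2 * ((2 * n + m) / L) := by
    field_simp
  have h11 : 2 / Real.pi * (Real.pi * (m / L)) = 2 * (m / L) := by
    field_simp
  rw [h10] at h8
  rw [h11] at h9
  have h12 : 2 * ((2 * n + m) / L : ℝ) * (2 * (m / L)) ≤
      Real.sin (Real.pi * ((2 * n + m) / L)) * Real.sin (Real.pi * (m / L)) :=
    mul_le_mul h8 h9 (by positivity) (le_trans (by positivity) h8)
  calc 16 * (2 * n + m) * m / (L : ℝ) ^ 2 =
      4 * (2 * ((2 * n + m) / L : ℝ) * (2 * (m / L))) := by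
        field_simp; ring
    _ ≤ 4 * (Real.sin (Real.pi * ((2 * n + m) / L)) * Real.sin (Real.pi * (m / L))) := by
        linarith
    _ = _ := by ring

theorem card_win (d L M : ℕ) [NeZero L] (hM : 1 ≤ M) : (win d L (3 * M)).card ≤ (7 * M) ^ d := by
  have h1 : win d L (3 * M) ⊆ Fintype.piFinset (fun _ : Fin d =>
      Finset.univ.filter fun x : ZMod L => x.valMinAbs.natAbs ≤ 3 * M) := by
    intro k hk
    rw [Fintype.mem_piFinset]
    intro i
    exact Finset.mem_filter.2 ⟨Finset.mem_univ _, (Finset.mem_filter.1 hk).2 i⟩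
  refine (Finset.card_le_card h1).trans ?_
  rw [Fintype.card_piFinset_const]
  refine Nat.pow_le_pow_left ?_ d
  have h2 : (Finset.univ.filter fun x : ZMod L => x.valMinAbs.natAbs ≤ 3 * M).card ≤
      (Finset.Icc (-(3 * M : ℤ)) (3 * M)).card := by
    refine Finset.card_le_card_of_injOn (fun x => x.valMinAbs) ?_ ?_
    · intro x hx
      have h3 := (Finset.mem_filter.1 hx).2
      rw [Finset.coe_Icc, Set.mem_Icc]
      show -(3 * (M : ℤ)) ≤ x.valMinAbs ∧ x.valMinAbs ≤ 3 * (M : ℤ)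
      constructor <;> omega
    · intro x _ y _ h
      exact ZMod.injective_valMinAbs h
  rw [Int.card_Icc] at h2
  omega

end LOW

open LOW in
/-- PDS-LOW -/
theorem t_LOW : S_LOW := by
  classical
  intro d hd A hA
  set E0 : ℝ := Real.exp (-(36 * Real.pi ^ 2 * d * A ^ 2)) with hE0
  have hE0pos : 0 < E0 := Real.exp_pos _
  refine ⟨E0 ^ 2 * 32 ^ 2 / 7 ^ d, by positivity, ?_⟩
  intro L M _ t ht hM hML hMt θ hθ hθw
  have hL : (0 : ℝ) < L := by exact_mod_cast Nat.pos_of_ne_zero (NeZero.ne L)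
  have hM1 : (1 : ℝ) ≤ M := by exact_mod_cast hM
  set σ : Fin d → ℤ := fun i => if (θ i).valMinAbs < 0 then -1 else 1 with hσ
  set a : Fin d → ℕ := fun i => (θ i).valMinAbs.natAbs with ha
  have hσ1 : ∀ i, σ i = 1 ∨ σ i = -1 := by
    intro i
    by_cases h : (θ i).valMinAbs < 0
    · right; exact if_pos h
    · left; exact if_neg h
  have hσa : ∀ i, σ i * (a i : ℤ) = (θ i).valMinAbs := by
    intro i
    simp only [hσ, ha]
    split_ifs with h
    · omega
    · omega
  have haM : ∀ i, a i ≤ M := fun i => (Finset.mem_filter.1 hθw).2 i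
  have hab : ∀ i (p : ℕ), |σ i * (p : ℤ)| = p ∧ (σ i * (p : ℤ)).natAbs = p := by
    intro i p
    rcases hσ1 i with h | h
    · rw [h, one_mul]; exact ⟨abs_of_nonneg (by positivity), Int.natAbs_natCast p⟩
    · rw [h, neg_one_mul, abs_neg, Int.natAbs_neg]
      exact ⟨abs_of_nonneg (by positivity), Int.natAbs_natCast p⟩
  let kk : (Fin d → Fin M) → Fin d → ZMod L := fun j i =>
    ((σ i * ((a i + (M + (j i : ℕ)) : ℕ) : ℤ) : ℤ) : ZMod L)
  let kp : (Fin d → Fin M) → Fin d → ZMod L := fun j i =>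
    ((-(σ i * ((M + (j i : ℕ) : ℕ) : ℤ)) : ℤ) : ZMod L)
  have hsum : ∀ j, kk j + kp j = θ := by
    intro j
    funext i
    show ((σ i * ((a i + (M + (j i : ℕ)) : ℕ) : ℤ) : ℤ) : ZMod L) +
      ((-(σ i * ((M + (j i : ℕ) : ℕ) : ℤ)) : ℤ) : ZMod L) = θ i
    rw [← Int.cast_add]
    have h1 : σ i * ((a i + (M + (j i : ℕ)) : ℕ) : ℤ) + -(σ i * ((M + (j i : ℕ) : ℕ) : ℤ)) =
        (θ i).valMinAbs := by
      rw [← hσa i]; push_cast; ring
    rw [h1, ZMod.coe_valMinAbs]
  have hvk : ∀ j i, (kk j i).valMinAbs = σ i * ((a i + (M + (j i : ℕ)) : ℕ) : ℤ) := by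
    intro j i
    refine vma L _ ?_
    rw [(hab i _).1]
    have h1 := haM i
    have h2 := (j i).2
    omega
  have hvp : ∀ j i, (kp j i).valMinAbs = -(σ i * ((M + (j i : ℕ) : ℕ) : ℤ)) := by
    intro j i
    refine vma L _ ?_
    rw [abs_neg, (hab i _).1]
    have h2 := (j i).2
    omega
  have hkw : ∀ j, kk j ∈ win d L (3 * M) := by
    intro j
    refine Finset.mem_filter.2 ⟨Finset.mem_univ _, fun i => ?_⟩
    rw [hvk j i, (hab i _).2]
    have h1 := haM i
    have h2 := (j i).2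
    omega
  have hpw : ∀ j, kp j ∈ win d L (3 * M) := by
    intro j
    refine Finset.mem_filter.2 ⟨Finset.mem_univ _, fun i => ?_⟩
    rw [hvp j i, Int.natAbs_neg, (hab i _).2]
    have h2 := (j i).2
    omega
  have hinj : Function.Injective fun j => (kk j, kp j) := by
    intro j j' h
    have h1 : kp j = kp j' := (Prod.mk.inj h).2
    funext i
    have h2 : (kp j i).valMinAbs.natAbs = (kp j' i).valMinAbs.natAbs := by rw [h1]
    rw [hvp j i, hvp j' i, Int.natAbs_neg, Int.natAbs_neg, (hab i _).2, (hab i _).2] at h2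
    exact Fin.ext (by omega)
  have hlow : ∀ j, E0 * (32 * (t * M / (L : ℝ) ^ 2)) ≤ ev t (kp j) - ev t (kk j) := by
    intro j
    have hdi : ∀ i, 16 * (2 * ((M + (j i : ℕ) : ℕ) : ℝ) + a i) * a i / (L : ℝ) ^ 2 ≤
        lam (kk j i) - lam (kp j i) := by
      intro i
      have h1 : lam (kk j i) = lam (((a i + (M + (j i : ℕ)) : ℕ) : ℤ) : ZMod L) :=
        lam_sgn L (σ i) (hσ1 i) _
      have h2 : lam (kp j i) = lam (((M + (j i : ℕ) : ℕ) : ℤ) : ZMod L) := by
        show lam ((-(σ i * ((M + (j i : ℕ) : ℕ) : ℤ)) : ℤ) : ZMod L) = _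
        rw [lam_neg, lam_sgn L (σ i) (hσ1 i)]
      rw [h1, h2]
      exact lam_diff L M hML (a i) (M + (j i : ℕ)) (haM i) (by have := (j i).2; omega)
    have hXY : 32 * M / (L : ℝ) ^ 2 ≤ ∑ i, lam (kk j i) - ∑ i, lam (kp j i) := by
      obtain ⟨i0, hi0⟩ : ∃ i, θ i ≠ (0 : Fin d → ZMod L) i := Function.ne_iff.1 hθ
      rw [← Finset.sum_sub_distrib]
      refine le_trans ?_ (Finset.single_le_sum (f := fun i => lam (kk j i) - lam (kp j i))
        (fun i _ => le_trans (by positivity) (hdi i)) (Finset.mem_univ i0))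
      refine le_trans ?_ (hdi i0)
      refine div_le_div_of_nonneg_right ?_ (by positivity)
      have ha1 : (1 : ℝ) ≤ a i0 := by
        have h3 : a i0 ≠ 0 := by
          intro h
          apply hi0
          have h4 : (θ i0).valMinAbs = 0 := Int.natAbs_eq_zero.1 h
          have h5 := ZMod.coe_valMinAbs (θ i0)
          rw [h4] at h5
          rw [← h5]
          simp
        exact_mod_cast Nat.one_le_iff_ne_zero.2 h3
      push_cast
      have hj0 : (0 : ℝ) ≤ ((j i0 : ℕ) : ℝ) := Nat.cast_nonneg _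
      nlinarith
    have hX : t * ∑ i, lam (kk j i) ≤ 36 * Real.pi ^ 2 * d * A ^ 2 := by
      have h1 : ∀ i, lam (kk j i) ≤ (2 * Real.pi * (3 * M) / L) ^ 2 := by
        intro i
        have h1 : lam (kk j i) = lam (((a i + (M + (j i : ℕ)) : ℕ) : ℤ) : ZMod L) :=
          lam_sgn L (σ i) (hσ1 i) _
        rw [h1]
        refine (lam_le L _).trans ?_
        have h2 : ((((a i + (M + (j i : ℕ)) : ℕ) : ℤ) : ℝ)) ≤ 3 * M := by
          have h3 := haM i
          have h4 := (j i).2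
          have h5 : a i + (M + (j i : ℕ)) ≤ 3 * M := by omega
          exact_mod_cast h5
        have h6 : (0 : ℝ) ≤ (((a i + (M + (j i : ℕ)) : ℕ) : ℤ) : ℝ) := by positivity
        have hpi := Real.pi_pos
        refine pow_le_pow_left₀ (by positivity) ?_ 2
        refine div_le_div_of_nonneg_right ?_ hL.le
        exact mul_le_mul_of_nonneg_left h2 (by positivity)
      have h2 : ∑ i, lam (kk j i) ≤ d * (2 * Real.pi * (3 * M) / L) ^ 2 := by
        refine (Finset.sum_le_sum fun i _ => h1 i).trans ?_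
        rw [Finset.sum_const, Finset.card_univ, Fintype.card_fin, nsmul_eq_mul]
      have h3 : (M * Real.sqrt t) ^ 2 ≤ (A * L) ^ 2 :=
        pow_le_pow_left₀ (by positivity) hMt 2
      rw [mul_pow, Real.sq_sqrt ht.le, mul_pow] at h3
      calc t * ∑ i, lam (kk j i) ≤ t * (d * (2 * Real.pi * (3 * M) / L) ^ 2) :=
            mul_le_mul_of_nonneg_left h2 ht.le
        _ = 36 * Real.pi ^ 2 * d * (((M : ℝ) ^ 2 * t) / (L : ℝ) ^ 2) := by
            field_simp; ring
        _ ≤ 36 * Real.pi ^ 2 * d * A ^ 2 := by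
            refine mul_le_mul_of_nonneg_left ?_ (by positivity)
            rw [div_le_iff₀ (by positivity)]
            exact h3
    have h4 : ev t (kp j) - ev t (kk j) = Real.exp (-(t * ∑ i, lam (kk j i))) *
        (Real.exp (t * (∑ i, lam (kk j i) - ∑ i, lam (kp j i))) - 1) := by
      unfold ev
      rw [mul_sub, ← Real.exp_add, mul_one]
      congr 2
      ring
    have h5 : E0 ≤ Real.exp (-(t * ∑ i, lam (kk j i))) := by
      rw [hE0]
      exact Real.exp_le_exp.2 (by linarith)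
    have h6 := Real.add_one_le_exp (t * (∑ i, lam (kk j i) - ∑ i, lam (kp j i)))
    have h7 : 32 * (t * M / (L : ℝ) ^ 2) ≤
        t * (∑ i, lam (kk j i) - ∑ i, lam (kp j i)) := by
      have h8 := mul_le_mul_of_nonneg_left hXY ht.le
      refine le_trans (le_of_eq ?_) h8
      ring
    rw [h4]
    exact mul_le_mul h5 (by linarith) (by positivity) (Real.exp_pos _).le
  have key : ((M : ℝ) ^ d) * (E0 * (32 * (t * M / (L : ℝ) ^ 2))) ^ 2 ≤
      ∑ k ∈ win d L (3 * M), ∑ k' ∈ win d L (3 * M),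
        if k + k' = θ then (ev t k - ev t k') ^ 2 else 0 := by
    rw [← Finset.sum_product' (win d L (3 * M)) (win d L (3 * M))
      (fun k k' => if k + k' = θ then (ev t k - ev t k') ^ 2 else 0)]
    set F : (Fin d → ZMod L) × (Fin d → ZMod L) → ℝ :=
      fun p => if p.1 + p.2 = θ then (ev t p.1 - ev t p.2) ^ 2 else 0 with hF
    have hF0 : ∀ p, 0 ≤ F p := by
      intro p
      simp only [hF]
      split_ifs
      · positivity
      · exact le_rfl
    have himg : (Finset.univ.image fun j => (kk j, kp j)) ⊆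
        win d L (3 * M) ×ˢ win d L (3 * M) := by
      intro p hp
      obtain ⟨j, _, rfl⟩ := Finset.mem_image.1 hp
      exact Finset.mem_product.2 ⟨hkw j, hpw j⟩
    calc (M : ℝ) ^ d * (E0 * (32 * (t * M / (L : ℝ) ^ 2))) ^ 2 =
        ∑ _j : Fin d → Fin M, (E0 * (32 * (t * M / (L : ℝ) ^ 2))) ^ 2 := by
          rw [Finset.sum_const, Finset.card_univ, Fintype.card_fun, Fintype.card_fin,
            Fintype.card_fin, nsmul_eq_mul]
          push_cast
          ring
      _ ≤ ∑ j, F (kk j, kp j) := by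
          refine Finset.sum_le_sum fun j _ => ?_
          have h1 : F (kk j, kp j) = (ev t (kk j) - ev t (kp j)) ^ 2 := if_pos (hsum j)
          rw [h1]
          have h2 : (ev t (kk j) - ev t (kp j)) ^ 2 = (ev t (kp j) - ev t (kk j)) ^ 2 := by ring
          rw [h2]
          exact pow_le_pow_left₀ (by positivity) (hlow j) 2
      _ = ∑ p ∈ Finset.univ.image fun j => (kk j, kp j), F p :=
          (Finset.sum_image fun x _ y _ h => hinj h).symm
      _ ≤ ∑ p ∈ win d L (3 * M) ×ˢ win d L (3 * M), F p :=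
          Finset.sum_le_sum_of_subset_of_nonneg himg fun p _ _ => hF0 p
  refine le_trans ?_ key
  have hcard : ((win d L (3 * M)).card : ℝ) ≤ 7 ^ d * (M : ℝ) ^ d := by
    have h1 : ((win d L (3 * M)).card : ℝ) ≤ (((7 * M) ^ d : ℕ) : ℝ) := by
      exact_mod_cast card_win d L M hM
    refine h1.trans (le_of_eq ?_)
    push_cast
    rw [mul_pow]
  calc E0 ^ 2 * 32 ^ 2 / 7 ^ d * (t * M / (L : ℝ) ^ 2) ^ 2 * ((win d L (3 * M)).card : ℝ) ≤
      E0 ^ 2 * 32 ^ 2 / 7 ^ d * (t * M / (L : ℝ) ^ 2) ^ 2 * (7 ^ d * (M : ℝ) ^ d) :=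
        mul_le_mul_of_nonneg_left hcard (by positivity)
    _ = (M : ℝ) ^ d * (E0 * (32 * (t * M / (L : ℝ) ^ 2))) ^ 2 := by
        field_simp

end Pool.Agent.R517.PDS
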