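import Pool.Agent.R517.PDS.Defs

/-!
# PDS-NEG: negative correlation of two stirring particles
-/

set_option autoImplicit false

namespace Pool.Agent.R517.PDS

open Finset Equiv
open Pool.Agent.Y998.ST

section neg

variable {V : Type} [Fintype V] [DecidableEq V]

omit [Fintype V] in
/-- the product of two increments is nonpositive -/
theorem incr_nonpos (h : V → ℝ) (c e a b : V) (hab : a ≠ b) :
    (h (swap c e a) - h a) * (h (swap c e b) - h b) ≤ 0 := by
  by_cases ha : a ≠ c ∧ a ≠ e
  · rw [swap_apply_of_ne_of_ne ha.1 ha.2]; simp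
  by_cases hb : b ≠ c ∧ b ≠ e
  · rw [swap_apply_of_ne_of_ne hb.1 hb.2]; simp
  rw [not_and_or, not_not, not_not] at ha hb
  have key : ∀ u v : ℝ, (v - u) * (u - v) ≤ 0 := fun u v => by nlinarith [sq_nonneg (u - v)]
  rcases ha with ha | ha <;> rcases hb with hb | hb
  · exact absurd (ha.trans hb.symm) hab
  · subst ha; subst hb
    rw [swap_apply_left, swap_apply_right]
    exact key _ _
  · subst ha; subst hb
    rw [swap_apply_left, swap_apply_right]
    exact key _ _
  · exact absurd (ha.trans hb.symm) hab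

theorem mu_zero (J : V → V → ℝ) (f : V → ℝ) (z : V) : mu J 0 f z = f z := by
  unfold mu
  have h1 : ∀ w, hop J 0 z w = if z = w then 1 else 0 := by
    intro w
    have h2 : qq J 0 z w = (1 : Matrix V V ℝ) z w := by rw [qq_zero]
    rw [Matrix.one_apply] at h2
    exact h2
  simp only [h1, ite_mul, one_mul, zero_mul]
  rw [Finset.sum_ite_eq, if_pos (Finset.mem_univ _)]

theorem mu_deriv {J : V → V → ℝ} (hs : ∀ x y, J x y = J y x) (h0 : ∀ x, J x x = 0) (f : V → ℝ)
    (s : ℝ) (z : V) : HasDerivAt (fun u => mu J u f z)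
      (∑ c, ∑ e, J c e / 2 * (mu J s f (swap c e z) - mu J s f z)) s := by
  have hE : ∀ u, qq J u = E (GG J) u := eq_E (qq_deriv hs h0) (qq_zero J)
  have h1 : ∀ w, HasDerivAt (fun u => hop J u z w) ((GG J * qq J s) z w) s := by
    intro w
    have h2 := E_deriv (GG J) s z w
    rw [← hE] at h2
    refine h2.congr_of_eventuallyEq (Filter.Eventually.of_forall fun u => ?_)
    have h5 : qq J u z w = E (GG J) u z w := by rw [hE]
    exact h5
  have h3 : HasDerivAt (fun u => mu J u f z) (∑ w, (GG J * qq J s) z w * f w) s := by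
    unfold mu
    exact HasDerivAt.fun_sum (u := Finset.univ) fun w _ => (h1 w).mul_const (f w)
  refine h3.congr_deriv ?_
  rw [gen_one hs h0]
  simp only [Matrix.mul_apply, Finset.sum_mul]
  rw [Finset.sum_comm]
  refine Finset.sum_congr rfl fun x _ => ?_
  unfold mu
  rw [Finset.sum_mul]
  refine Finset.sum_congr rfl fun w _ => ?_
  have h4 : GG J z x = GG J x z := by
    unfold GG
    by_cases hx : z = x
    · subst hx; rfl
    · rw [if_neg hx, if_neg (Ne.symm hx), hs]
  rw [h4]
  unfold qq
  ring

theorem t_NEG : S_NEG := by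
  intro V _ _ J hJ hs h0 t ht f x y hxy
  obtain ⟨φ, hφ⟩ : ∃ φ : ℝ → ℝ, φ = fun s =>
    ∑ g, stirLaw J (t - s) g * (mu J s f (g x) * mu J s f (g y)) := ⟨_, rfl⟩
  obtain ⟨D, hD⟩ : ∃ D : ℝ → ℝ, D = fun s => ∑ g : Perm V, stirLaw J (t - s) g *
    ∑ c, ∑ e, J c e / 2 * (-((mu J s f (swap c e (g x)) - mu J s f (g x)) *
      (mu J s f (swap c e (g y)) - mu J s f (g y)))) := ⟨_, rfl⟩
  have hd : ∀ s, HasDerivAt φ (D s) s := by
    intro s
    have hl : ∀ g : Perm V, HasDerivAt (fun u => stirLaw J (t - u) g)
        (-(∑ c, ∑ e, J c e / 2 * (stirLaw J (t - s) (swap c e * g) - stirLaw J (t - s) g))) s := by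
      intro g
      have h4 := (law_deriv J (t - s) g).scomp s ((hasDerivAt_id' s).const_sub t)
      rw [neg_smul, one_smul] at h4
      exact h4
    have h1 : ∀ g : Perm V, HasDerivAt
        (fun u => stirLaw J (t - u) g * (mu J u f (g x) * mu J u f (g y)))
        (-(∑ c, ∑ e, J c e / 2 * (stirLaw J (t - s) (swap c e * g) - stirLaw J (t - s) g)) *
          (mu J s f (g x) * mu J s f (g y)) + stirLaw J (t - s) g *
          ((∑ c, ∑ e, J c e / 2 * (mu J s f (swap c e (g x)) - mu J s f (g x))) * mu J s f (g y) +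
          mu J s f (g x) *
            ∑ c, ∑ e, J c e / 2 * (mu J s f (swap c e (g y)) - mu J s f (g y)))) s := by
      intro g
      exact (hl g).mul ((mu_deriv hs h0 f s (g x)).mul (mu_deriv hs h0 f s (g y)))
    have h2 := HasDerivAt.fun_sum (u := (Finset.univ : Finset (Perm V))) fun g _ => h1 g
    rw [hφ]
    refine h2.congr_deriv ?_
    rw [hD]
    have h5 : ∑ g : Perm V, (∑ c, ∑ e, J c e / 2 * (stirLaw J (t - s) (swap c e * g) -
        stirLaw J (t - s) g)) * (mu J s f (g x) * mu J s f (g y)) =
        ∑ g : Perm V, stirLaw J (t - s) g * ∑ c, ∑ e, J c e / 2 *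
          (mu J s f (swap c e (g x)) * mu J s f (swap c e (g y)) -
            mu J s f (g x) * mu J s f (g y)) := by
      simp only [Finset.sum_mul, Finset.mul_sum]
      rw [Finset.sum_comm]
      conv_rhs => rw [Finset.sum_comm]
      refine Finset.sum_congr rfl fun c _ => ?_
      rw [Finset.sum_comm]
      conv_rhs => rw [Finset.sum_comm]
      refine Finset.sum_congr rfl fun e _ => ?_
      have h6 : ∑ g : Perm V, stirLaw J (t - s) (swap c e * g) *
          (mu J s f (g x) * mu J s f (g y)) =
          ∑ g : Perm V, stirLaw J (t - s) g *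
            (mu J s f (swap c e (g x)) * mu J s f (swap c e (g y))) := by
        rw [← Equiv.sum_comp (Equiv.mulLeft (swap c e))]
        refine Finset.sum_congr rfl fun g _ => ?_
        have h8 : swap c e * (swap c e * g) = g := by
          rw [← mul_assoc, swap_mul_self, one_mul]
        simp only [Equiv.coe_mulLeft, Perm.mul_apply]
        rw [h8]
      have h7 : ∑ g : Perm V, J c e / 2 * (stirLaw J (t - s) (swap c e * g) -
          stirLaw J (t - s) g) * (mu J s f (g x) * mu J s f (g y)) =
          J c e / 2 * (∑ g : Perm V, stirLaw J (t - s) (swap c e * g) *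
          (mu J s f (g x) * mu J s f (g y)) - ∑ g : Perm V, stirLaw J (t - s) g *
            (mu J s f (g x) * mu J s f (g y))) := by
        rw [← Finset.sum_sub_distrib, Finset.mul_sum]
        exact Finset.sum_congr rfl fun g _ => by ring
      rw [h7, h6, ← Finset.sum_sub_distrib, Finset.mul_sum]
      exact Finset.sum_congr rfl fun g _ => by ring
    rw [Finset.sum_add_distrib]
    simp only [neg_mul, Finset.sum_neg_distrib]
    rw [h5, neg_add_eq_sub, ← Finset.sum_sub_distrib]
    refine Finset.sum_congr rfl fun g _ => ?_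
    rw [← mul_sub]
    congr 1
    rw [Finset.sum_mul, Finset.mul_sum, ← Finset.sum_add_distrib, ← Finset.sum_sub_distrib]
    refine Finset.sum_congr rfl fun c _ => ?_
    rw [Finset.sum_mul, Finset.mul_sum, ← Finset.sum_add_distrib, ← Finset.sum_sub_distrib]
    refine Finset.sum_congr rfl fun e _ => ?_
    ring
  have hmono : MonotoneOn φ (Set.Icc 0 t) := by
    refine monotoneOn_of_deriv_nonneg (convex_Icc 0 t)
      (fun s _ => (hd s).continuousAt.continuousWithinAt)
      (fun s _ => (hd s).differentiableAt.differentiableWithinAt) fun s hs' => ?_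
    rw [interior_Icc] at hs'
    rw [(hd s).deriv, hD]
    refine Finset.sum_nonneg fun g _ => mul_nonneg (law_nonneg hJ (by linarith [hs'.2]) g) ?_
    refine Finset.sum_nonneg fun c _ => Finset.sum_nonneg fun e _ => ?_
    refine mul_nonneg (by linarith [hJ c e]) ?_
    rw [neg_nonneg]
    exact incr_nonpos _ c e (g x) (g y) (fun h => hxy (g.injective h))
  have e0 : φ 0 = stirExp J t (fun g => f (g x) * f (g y)) := by
    rw [hφ]
    simp only [sub_zero, mu_zero]
    rfl
  have e1 : φ t = mu J t f x * mu J t f y := by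
    rw [hφ]
    simp only [sub_self, law_zero, ite_mul, one_mul, zero_mul]
    rw [Finset.sum_ite_eq', if_pos (Finset.mem_univ _)]
    rfl
  rw [← e0, ← e1]
  exact hmono (Set.left_mem_Icc.2 ht) (Set.right_mem_Icc.2 ht) ht

end neg

end Pool.Agent.R517.PDS
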