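import Pool.Agent.R517.PDS.Defs

/-!
# Project PDS: class sums over the cycles
-/

set_option autoImplicit false

namespace Pool.Agent.R517.PDS

open Finset Equiv
open Pool.Agent.TH268.PD (Cyc cyOf)

theorem cyOf_eq_iff {V : Type} (g : Perm V) (x y : V) : cyOf g x = cyOf g y ↔ g.SameCycle x y := by
  unfold cyOf
  rw [Quotient.eq]
  rfl

/-- the form `DS` as a sum over the cycles -/
theorem DS_eq {V : Type} [Fintype V] [DecidableEq V] (g : Perm V) (S : Finset V) (u : V → ℂ)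
    [Fintype (Cyc g)] [DecidableEq (Cyc g)] :
    DS g S u = ∑ γ : Cyc g, ‖∑ x ∈ S, if cyOf g x = γ then u x else 0‖ ^ 2 := by
  have h1 : ∀ γ : Cyc g, ‖∑ x ∈ S, if cyOf g x = γ then u x else 0‖ ^ 2 =
      ∑ x ∈ S, ∑ y ∈ S, if cyOf g x = γ then (if cyOf g y = γ then
        (u x * (starRingEnd ℂ) (u y)).re else 0) else 0 := by
    intro γ
    have h2 : ∀ A : ℂ, ‖A‖ ^ 2 = (A * (starRingEnd ℂ) A).re := by
      intro A
      rw [Complex.mul_conj, Complex.ofReal_re, Complex.normSq_eq_norm_sq]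
    rw [h2, map_sum, Finset.sum_mul_sum, Complex.re_sum]
    refine Finset.sum_congr rfl fun x _ => ?_
    rw [Complex.re_sum]
    refine Finset.sum_congr rfl fun y _ => ?_
    split_ifs <;> simp
  rw [Finset.sum_congr rfl fun γ _ => h1 γ, Finset.sum_comm]
  unfold DS
  refine Finset.sum_congr rfl fun x _ => ?_
  rw [Finset.sum_comm]
  refine Finset.sum_congr rfl fun y _ => ?_
  rw [Finset.sum_ite_eq, if_pos (Finset.mem_univ _)]
  by_cases h : g.SameCycle x y
  · rw [if_pos h, if_pos (((cyOf_eq_iff g x y).2 h).symm)]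
  · rw [if_neg h, if_neg (fun h' => h ((cyOf_eq_iff g x y).1 h'.symm))]

theorem DS_nonneg {V : Type} [Fintype V] [DecidableEq V] (g : Perm V) (S : Finset V) (u : V → ℂ) :
    0 ≤ DS g S u := by
  classical
  letI : Fintype (Cyc g) := Fintype.ofFinite _
  rw [DS_eq]
  exact Finset.sum_nonneg fun γ _ => by positivity

theorem t_PAIR : S_PAIR := by
  classical
  intro V _ _ g v h w α β
  letI : Fintype (Cyc g) := Fintype.ofFinite _
  rw [DS_eq, DS_eq, DS_eq, Finset.mul_sum, Finset.mul_sum, Finset.mul_sum,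
    ← Finset.sum_add_distrib]
  refine Finset.sum_le_sum fun γ _ => ?_
  set W : ℂ := ∑ x, if cyOf g x = γ then w x else 0 with hW
  set Hx : ℂ := ∑ x, if cyOf g x = γ then v x * h (g x) else 0 with hH
  have e1 : (∑ x, if cyOf g x = γ then v x * h (g x) - (α : ℂ) * w x else 0) =
      Hx - (α : ℂ) * W := by
    rw [hH, hW, Finset.mul_sum, ← Finset.sum_sub_distrib]
    refine Finset.sum_congr rfl fun x _ => ?_
    split_ifs <;> simp
  have e2 : (∑ y, if cyOf g y = γ then h y * v (g⁻¹ y) - (β : ℂ) * w y else 0) =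
      Hx - (β : ℂ) * W := by
    have e3 : Hx = ∑ y, if cyOf g y = γ then h y * v (g⁻¹ y) else 0 := by
      rw [hH]
      refine Fintype.sum_equiv g _ _ fun x => ?_
      have e4 : cyOf g (g x) = cyOf g x := by
        rw [cyOf_eq_iff]
        exact Perm.sameCycle_apply_left.2 (Perm.SameCycle.refl g x)
      have e5 : g⁻¹ (g x) = x := by simp
      rw [e4, e5, mul_comm]
    rw [e3, hW, Finset.mul_sum, ← Finset.sum_sub_distrib]
    refine Finset.sum_congr rfl fun x _ => ?_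
    split_ifs <;> simp
  rw [e1, e2]
  have e5 : (α - β) ^ 2 * ‖W‖ ^ 2 = ‖(Hx - (β : ℂ) * W) - (Hx - (α : ℂ) * W)‖ ^ 2 := by
    have : (Hx - (β : ℂ) * W) - (Hx - (α : ℂ) * W) = ((α - β : ℝ) : ℂ) * W := by
      push_cast
      ring
    rw [this, norm_mul, Complex.norm_real, mul_pow, Real.norm_eq_abs, sq_abs]
  rw [e5]
  have e6 := norm_sub_le (Hx - (β : ℂ) * W) (Hx - (α : ℂ) * W)
  have e7 := pow_le_pow_left₀ (norm_nonneg _) e6 2
  nlinarith [sq_nonneg (‖Hx - (β : ℂ) * W‖ - ‖Hx - (α : ℂ) * W‖)]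

end Pool.Agent.R517.PDS
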