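import Pool.Agent.R517.PDS.Defs

/-!
# PDS-PAR: Parseval identity for the cycle form
-/

set_option autoImplicit false

namespace Pool.Agent.R517.PDS

open Finset Equiv

namespace Par

theorem ch_add {d L : ℕ} [NeZero L] (k x y : Fin d → ZMod L) : ch k (x + y) = ch k x * ch k y := by
  unfold ch
  rw [← AddChar.map_add_eq_mul, ← Finset.sum_add_distrib]
  congr 1
  exact Finset.sum_congr rfl fun i _ => by simp [mul_add]

theorem ch_neg {d L : ℕ} [NeZero L] (k x : Fin d → ZMod L) :
    ch k (-x) = (starRingEnd ℂ) (ch k x) := by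
  unfold ch
  rw [AddChar.starComp_apply (by exact Nat.pos_of_ne_zero (by
    rw [ZMod.ringChar_zmod_n]; exact NeZero.ne L))]
  rw [AddChar.inv_apply]
  congr 1
  simp [Finset.sum_neg_distrib]

theorem map_sum' {A ι : Type*} [AddCommMonoid A] (ψ : AddChar A ℂ) (s : Finset ι) (f : ι → A) :
    ψ (∑ i ∈ s, f i) = ∏ i ∈ s, ψ (f i) := by
  classical
  induction s using Finset.induction_on with
  | empty => simp
  | insert a s ha ih => rw [Finset.sum_insert ha, Finset.prod_insert ha, AddChar.map_add_eq_mul, ih]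

theorem orth {d L : ℕ} [NeZero L] (z : Fin d → ZMod L) :
    ∑ k : Fin d → ZMod L, ch k z = if z = 0 then (L : ℂ) ^ d else 0 := by
  have h1 : ∀ k : Fin d → ZMod L, ch k z = ∏ i, (ZMod.stdAddChar (k i * z i) : ℂ) := by
    intro k
    unfold ch
    rw [map_sum']
  have h2 : ∑ k : Fin d → ZMod L, ∏ i, (ZMod.stdAddChar (k i * z i) : ℂ) =
      ∏ i, ∑ a : ZMod L, (ZMod.stdAddChar (a * z i) : ℂ) := by
    rw [Finset.prod_univ_sum, Fintype.piFinset_univ]
  have h3 : ∀ i, ∑ a : ZMod L, (ZMod.stdAddChar (a * z i) : ℂ) = if z i = 0 then (L : ℂ) else 0 := by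
    intro i
    rw [AddChar.sum_mulShift (z i) (ZMod.isPrimitive_stdAddChar L)]
    split_ifs
    · simp [ZMod.card]
    · simp
  rw [Finset.sum_congr rfl fun k _ => h1 k, h2, Finset.prod_congr rfl fun i _ => h3 i]
  split_ifs with h
  · subst h
    simp
  · obtain ⟨i, hi⟩ : ∃ i, z i ≠ 0 := by
      by_contra hc
      push Not at hc
      exact h (funext hc)
    exact Finset.prod_eq_zero (Finset.mem_univ i) (by simp [hi])

theorem bh_sq {d L : ℕ} [NeZero L] (B : Finset (Fin d → ZMod L)) (k : Fin d → ZMod L) :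
    ((‖bh B k‖ ^ 2 : ℝ) : ℂ) = 1 / (B.card : ℂ) ^ 2 * ∑ a ∈ B, ∑ b ∈ B, ch k (b - a) := by
  have h : ((‖bh B k‖ ^ 2 : ℝ) : ℂ) = bh B k * (starRingEnd ℂ) (bh B k) := by
    rw [Complex.mul_conj, Complex.normSq_eq_norm_sq]
  rw [h]
  unfold bh
  rw [map_div₀, map_sum, Complex.conj_natCast, div_mul_div_comm, Finset.sum_mul_sum,
    Finset.sum_comm, ← sq, div_eq_mul_inv, mul_comm, one_div]
  congr 1
  refine Finset.sum_congr rfl fun a _ => Finset.sum_congr rfl fun b _ => ?_
  rw [sub_eq_add_neg, ch_add, ch_neg]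

theorem DS_image {d L : ℕ} [NeZero L] (g : Perm (Fin d → ZMod L)) (B : Finset (Fin d → ZMod L))
    (u : (Fin d → ZMod L) → ℂ) (v : Fin d → ZMod L) :
    DS g (B.image fun b => v + b) u = ∑ a ∈ B, ∑ b ∈ B,
      (open Classical in if g.SameCycle (v + a) (v + b) then
        (u (v + a) * (starRingEnd ℂ) (u (v + b))).re else 0) := by
  have hi : ∀ x ∈ B, ∀ y ∈ B, v + x = v + y → x = y := fun x _ y _ h => add_left_cancel h
  unfold DS
  rw [Finset.sum_image hi]
  refine Finset.sum_congr rfl fun a _ => ?_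
  rw [Finset.sum_image hi]

end Par

open Par in
theorem t_PAR : S_PAR := by
  classical
  intro d L _ g B hB u
  have hm : (B.card : ℂ) ≠ 0 := by exact_mod_cast hB.ne'
  -- complex form of the left side
  have hL : ∀ k : Fin d → ZMod L, ‖bh B k‖ ^ 2 * DS g Finset.univ (fun x => ch k x * u x) =
      (∑ x, ∑ y, if g.SameCycle x y then
        (1 / (B.card : ℂ) ^ 2 * ∑ a ∈ B, ∑ b ∈ B, ch k (b - a + (x - y)) *
          (u x * (starRingEnd ℂ) (u y))) else 0).re := by
    intro k
    have e1 : (∑ x, ∑ y, if g.SameCycle x y then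
        (1 / (B.card : ℂ) ^ 2 * ∑ a ∈ B, ∑ b ∈ B, ch k (b - a + (x - y)) *
          (u x * (starRingEnd ℂ) (u y))) else 0) =
        ∑ x, ∑ y, ((‖bh B k‖ ^ 2 : ℝ) : ℂ) * (if g.SameCycle x y then
          ((ch k x * u x) * (starRingEnd ℂ) (ch k y * u y)) else 0) := by
      refine Finset.sum_congr rfl fun x _ => Finset.sum_congr rfl fun y _ => ?_
      split_ifs
      · rw [bh_sq, mul_assoc]
        congr 1
        rw [Finset.sum_mul]
        refine Finset.sum_congr rfl fun a _ => ?_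
        rw [Finset.sum_mul]
        refine Finset.sum_congr rfl fun b _ => ?_
        rw [ch_add, sub_eq_add_neg x y, ch_add k x (-y), ch_neg, map_mul]
        ring
      · simp
    rw [e1]
    unfold DS
    rw [Complex.re_sum, Finset.mul_sum]
    refine Finset.sum_congr rfl fun x _ => ?_
    rw [Complex.re_sum, Finset.mul_sum]
    refine Finset.sum_congr rfl fun y _ => ?_
    rw [Complex.re_ofReal_mul]
    split_ifs <;> simp
  rw [Finset.sum_congr rfl fun k _ => hL k, ← Complex.re_sum]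
  have hS : (∑ k : Fin d → ZMod L, ∑ x, ∑ y, if g.SameCycle x y then
        (1 / (B.card : ℂ) ^ 2 * ∑ a ∈ B, ∑ b ∈ B, ch k (b - a + (x - y)) *
          (u x * (starRingEnd ℂ) (u y))) else 0) =
      (L : ℂ) ^ d / (B.card : ℂ) ^ 2 * ∑ v : Fin d → ZMod L, ∑ a ∈ B, ∑ b ∈ B,
        if g.SameCycle (v + a) (v + b) then (u (v + a) * (starRingEnd ℂ) (u (v + b))) else 0 := by
    have h1 : (∑ k : Fin d → ZMod L, ∑ x, ∑ y, if g.SameCycle x y then
        (1 / (B.card : ℂ) ^ 2 * ∑ a ∈ B, ∑ b ∈ B, ch k (b - a + (x - y)) *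
          (u x * (starRingEnd ℂ) (u y))) else 0) =
        ∑ x, ∑ y, ∑ a ∈ B, ∑ b ∈ B, (if g.SameCycle x y then
          (1 / (B.card : ℂ) ^ 2 * ((if b - a + (x - y) = 0 then (L : ℂ) ^ d else 0) *
          (u x * (starRingEnd ℂ) (u y)))) else 0) := by
      rw [Finset.sum_comm]
      refine Finset.sum_congr rfl fun x _ => ?_
      rw [Finset.sum_comm]
      refine Finset.sum_congr rfl fun y _ => ?_
      split_ifs
      · have h2 : ∑ k : Fin d → ZMod L, ∑ a ∈ B, ∑ b ∈ B, ch k (b - a + (x - y)) *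
            (u x * (starRingEnd ℂ) (u y)) = ∑ a ∈ B, ∑ b ∈ B,
            (if b - a + (x - y) = 0 then (L : ℂ) ^ d else 0) * (u x * (starRingEnd ℂ) (u y)) := by
          rw [Finset.sum_comm]
          refine Finset.sum_congr rfl fun a _ => ?_
          rw [Finset.sum_comm]
          refine Finset.sum_congr rfl fun b _ => ?_
          rw [← Finset.sum_mul, orth]
        rw [← Finset.mul_sum, h2, Finset.mul_sum]
        refine Finset.sum_congr rfl fun a _ => ?_
        rw [Finset.mul_sum]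
      · simp
    rw [h1, Finset.mul_sum]
    have h3 : ∀ a b : Fin d → ZMod L, (∑ x, ∑ y, (if g.SameCycle x y then
          (1 / (B.card : ℂ) ^ 2 * ((if b - a + (x - y) = 0 then (L : ℂ) ^ d else 0) *
          (u x * (starRingEnd ℂ) (u y)))) else 0)) = ∑ v, (L : ℂ) ^ d / (B.card : ℂ) ^ 2 *
        (if g.SameCycle (v + a) (v + b) then (u (v + a) * (starRingEnd ℂ) (u (v + b))) else 0) := by
      intro a b
      rw [← Equiv.sum_comp (Equiv.addRight a) (fun x => ∑ y, (if g.SameCycle x y then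
          (1 / (B.card : ℂ) ^ 2 * ((if b - a + (x - y) = 0 then (L : ℂ) ^ d else 0) *
          (u x * (starRingEnd ℂ) (u y)))) else 0))]
      refine Finset.sum_congr rfl fun v _ => ?_
      simp only [Equiv.coe_addRight]
      rw [Finset.sum_eq_single (v + b)]
      · rw [if_pos (show b - a + (v + a - (v + b)) = 0 by abel)]
        split_ifs
        · ring
        · simp
      · intro y _ hy
        rw [if_neg (show ¬ b - a + (v + a - y) = 0 from fun h => hy (by
          have : y = v + b + -(b - a + (v + a - y)) := by abel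
          rw [this, h]; simp))]
        simp
      · intro h
        exact absurd (Finset.mem_univ _) h
    have h4 : ∀ x, (∑ y, ∑ a ∈ B, ∑ b ∈ B, (if g.SameCycle x y then
          (1 / (B.card : ℂ) ^ 2 * ((if b - a + (x - y) = 0 then (L : ℂ) ^ d else 0) *
          (u x * (starRingEnd ℂ) (u y)))) else 0)) = ∑ a ∈ B, ∑ b ∈ B, ∑ y,
          (if g.SameCycle x y then
          (1 / (B.card : ℂ) ^ 2 * ((if b - a + (x - y) = 0 then (L : ℂ) ^ d else 0) *
          (u x * (starRingEnd ℂ) (u y)))) else 0) := by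
      intro x
      rw [Finset.sum_comm]
      refine Finset.sum_congr rfl fun a _ => ?_
      rw [Finset.sum_comm]
    rw [Finset.sum_congr rfl fun x _ => h4 x, Finset.sum_comm]
    have h5 : (∑ v : Fin d → ZMod L, (L : ℂ) ^ d / (B.card : ℂ) ^ 2 * ∑ a ∈ B, ∑ b ∈ B,
        if g.SameCycle (v + a) (v + b) then (u (v + a) * (starRingEnd ℂ) (u (v + b))) else 0) =
        ∑ a ∈ B, ∑ b ∈ B, ∑ v, (L : ℂ) ^ d / (B.card : ℂ) ^ 2 *
        (if g.SameCycle (v + a) (v + b) then (u (v + a) * (starRingEnd ℂ) (u (v + b))) else 0) := by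
      rw [← Finset.mul_sum, Finset.sum_comm, Finset.mul_sum]
      refine Finset.sum_congr rfl fun a _ => ?_
      rw [Finset.sum_comm, Finset.mul_sum]
      refine Finset.sum_congr rfl fun b _ => ?_
      rw [Finset.mul_sum]
    rw [h5]
    refine Finset.sum_congr rfl fun a _ => ?_
    rw [Finset.sum_comm]
    refine Finset.sum_congr rfl fun b _ => ?_
    exact h3 a b
  rw [hS]
  have e : (L : ℂ) ^ d / (B.card : ℂ) ^ 2 = (((L : ℝ) ^ d / (B.card : ℝ) ^ 2 : ℝ) : ℂ) := by
    push_cast
    rfl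
  rw [e, Complex.re_ofReal_mul]
  congr 1
  rw [Complex.re_sum]
  refine Finset.sum_congr rfl fun v _ => ?_
  rw [DS_image, Complex.re_sum]
  refine Finset.sum_congr rfl fun a _ => ?_
  rw [Complex.re_sum]
  refine Finset.sum_congr rfl fun b _ => ?_
  split_ifs <;> simp

end Pool.Agent.R517.PDS
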