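import Pool.Agent.R517.PDS.Defs
import Pool.Agent.Y998.LQ.Final
import Pool.Agent.TH268.PD.TopLip

/-!
# PDS-TRANS

If the cycles have nearly the same density in the set `B` with nearly exchangeable points and in the
whole space, then the cycle lengths have nearly the Poisson-Dirichlet law.
-/

set_option autoImplicit false

namespace Pool.Agent.R517.PDS

open Finset Equiv
open Pool.Agent.Y998.ST (stirLaw stirExp law_nonneg)
open Pool.Agent.Y998.CN (law_sum)
open Pool.Agent.Y998.LP (NN bfrac)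
open Pool.Agent.Y998.LQ (pd_gen bfrac_nonneg bfrac_le_one)
open Pool.Agent.TH268.PD (Cyc cyOf frac top pdm lip_approx top_lip top_nonneg top_le_one)

section trans

variable {V : Type} [Fintype V] [DecidableEq V]

open Classical in
/-- one cycle contributes at most the whole form -/
theorem trans_cyc_le (g : Perm V) (u : V → ℝ) (γ : Cyc g) :
    (∑ x, if cyOf g x = γ then u x else 0) ^ 2 ≤ DR g Finset.univ u := by
  have hfin : Finite (Cyc g) := Quotient.finite _
  have hft : Fintype (Cyc g) := Fintype.ofFinite _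
  have h1 : DR g Finset.univ u = ∑ δ : Cyc g, (∑ x, if cyOf g x = δ then u x else 0) ^ 2 := by
    have h2 : ∀ δ : Cyc g, (∑ x, if cyOf g x = δ then u x else 0) ^ 2 =
        ∑ x, ∑ y, if cyOf g x = δ then (if cyOf g y = δ then u x * u y else 0) else 0 := by
      intro δ
      rw [sq, Finset.sum_mul_sum]
      refine Finset.sum_congr rfl fun x _ => Finset.sum_congr rfl fun y _ => ?_
      split_ifs <;> simp
    rw [Finset.sum_congr rfl fun δ _ => h2 δ, Finset.sum_comm]
    unfold DR
    refine Finset.sum_congr rfl fun x _ => ?_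
    rw [Finset.sum_comm]
    refine Finset.sum_congr rfl fun y _ => ?_
    rw [Finset.sum_ite_eq]
    have h3 : g.SameCycle x y ↔ cyOf g y = cyOf g x := by
      have h4 : cyOf g x = cyOf g y ↔ g.SameCycle x y := Quotient.eq
      rw [← h4]
      exact eq_comm
    simp only [Finset.mem_univ, if_true]
    by_cases h5 : g.SameCycle x y
    · rw [if_pos h5, if_pos (h3.1 h5)]
    · rw [if_neg h5, if_neg (fun h6 => h5 (h3.2 h6))]
  rw [h1]
  exact Finset.single_le_sum (f := fun δ : Cyc g => (∑ x, if cyOf g x = δ then u x else 0) ^ 2)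
    (fun δ _ => sq_nonneg _) (Finset.mem_univ γ)

theorem trans_DR_nonneg (g : Perm V) (u : V → ℝ) : 0 ≤ DR g Finset.univ u := by
  classical
  rcases isEmpty_or_nonempty V with h | ⟨⟨x⟩⟩
  · unfold DR
    rw [Finset.univ_eq_empty, Finset.sum_empty]
  · exact (sq_nonneg _).trans (trans_cyc_le g u (cyOf g x))

open Classical in
/-- the difference of the densities of a cycle -/
theorem trans_diff (B : Finset V) (g : Perm V) (γ : Cyc g) :
    (∑ x, if cyOf g x = γ then ((if x ∈ B then 1 / (B.card : ℝ) else 0) -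
      1 / (Fintype.card V : ℝ)) else 0) = bfrac B g γ - frac g γ := by
  have h1 : ∀ x : V, (if cyOf g x = γ then ((if x ∈ B then 1 / (B.card : ℝ) else 0) -
      1 / (Fintype.card V : ℝ)) else 0) =
      (if x ∈ B ∧ cyOf g x = γ then 1 / (B.card : ℝ) else 0) -
        (if cyOf g x = γ then 1 / (Fintype.card V : ℝ) else 0) := by
    intro x
    by_cases h2 : cyOf g x = γ <;> by_cases h3 : x ∈ B <;> simp [h2, h3]
  rw [Finset.sum_congr rfl fun x _ => h1 x, Finset.sum_sub_distrib]
  unfold bfrac frac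
  rw [← Finset.sum_filter, ← Finset.sum_filter, Finset.sum_const, Finset.sum_const,
    nsmul_eq_mul, nsmul_eq_mul, mul_one_div, mul_one_div, Nat.card_eq_fintype_card,
    Nat.card_eq_fintype_card, Fintype.card_subtype, Fintype.card_subtype]

theorem trans_frac_nonneg (g : Perm V) (γ : Cyc g) : 0 ≤ frac g γ := by
  unfold frac
  positivity

theorem trans_frac_le_one (g : Perm V) (γ : Cyc g) : frac g γ ≤ 1 := by
  unfold frac
  apply div_le_one_of_le₀ _ (Nat.cast_nonneg _)
  rw [← Nat.card_eq_fintype_card]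
  exact_mod_cast Nat.card_le_card_of_injective _ Subtype.val_injective

/-- the densities of every cycle are close -/
theorem trans_close (B : Finset V) (g : Perm V) (γ : Cyc g) (a : ℝ) (ha : 0 < a) :
    |frac g γ - bfrac B g γ| ≤ a / 2 + (DR g Finset.univ fun x =>
      (if x ∈ B then 1 / (B.card : ℝ) else 0) - 1 / (Fintype.card V : ℝ)) / (2 * a) := by
  classical
  obtain ⟨D, hD⟩ : ∃ D : ℝ, D = DR g Finset.univ fun x =>
      (if x ∈ B then 1 / (B.card : ℝ) else 0) - 1 / (Fintype.card V : ℝ) := ⟨_, rfl⟩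
  obtain ⟨e, he⟩ : ∃ e : ℝ, e = bfrac B g γ - frac g γ := ⟨_, rfl⟩
  have h1 : e ^ 2 ≤ D := by
    rw [he, hD, ← trans_diff B g γ]
    exact trans_cyc_le g _ γ
  have h2 : |frac g γ - bfrac B g γ| = |e| := by rw [he, abs_sub_comm]
  rw [h2, ← hD]
  have h3 : |e| ^ 2 ≤ D := by rw [sq_abs]; exact h1
  have h4 : a / 2 + D / (2 * a) - |e| = ((a - |e|) ^ 2 + (D - |e| ^ 2)) / (2 * a) := by
    field_simp
    ring
  have h5 : 0 ≤ ((a - |e|) ^ 2 + (D - |e| ^ 2)) / (2 * a) := by
    apply div_nonneg _ (by linarith)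
    have := sq_nonneg (a - |e|)
    linarith
  linarith

end trans

/-- PDS-TRANS -/
theorem t_TRANS : S_TRANS := by
  classical
  intro m f hfc C hC ε hε
  obtain ⟨Λ, h, hΛ, hhc, hhC, hhL, hfh⟩ := lip_approx m f hfc C hC (ε / 8) (by positivity)
  obtain ⟨δ, hδ, N₀, hN₀, hpd⟩ := pd_gen m f hfc C hC (ε / 4) (by positivity)
  obtain ⟨a, ha⟩ : ∃ a : ℝ, a = ε / (4 * (Λ + 1)) := ⟨_, rfl⟩
  have ha0 : 0 < a := by rw [ha]; positivity
  have hΛa : Λ * a ≤ ε / 4 := by
    have h1 : Λ * a = ε / 4 * (Λ / (Λ + 1)) := by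
      rw [ha]
      have : Λ + 1 ≠ 0 := by positivity
      field_simp
    rw [h1]
    refine mul_le_of_le_one_right (by positivity) ?_
    rw [div_le_one (by positivity)]
    linarith
  refine ⟨δ, hδ, N₀, hN₀, a ^ 2, by positivity, ?_⟩
  intro V _ _ J hJ t ht B hB hη hκ
  have e1 := hpd V J hJ t ht B hB hη
  obtain ⟨D, hD⟩ : ∃ D : Perm V → ℝ, D = fun g => DR g Finset.univ fun x =>
      (if x ∈ B then 1 / (B.card : ℝ) else 0) - 1 / (Fintype.card V : ℝ) := ⟨_, rfl⟩
  have hDn : ∀ g, 0 ≤ D g := fun g => by rw [hD]; exact trans_DR_nonneg g _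
  have hκ' : ∑ g, stirLaw J t g * D g ≤ a ^ 2 := by
    rw [hD]
    exact hκ
  have e2 : ∀ g : Perm V, |f (fun i => top (frac g) i) - f (fun i => top (bfrac B g) i)| ≤
      ε / 4 + Λ * (a / 2 + D g / (2 * a)) := by
    intro g
    have hfin : Finite (Cyc g) := Quotient.finite _
    have h1 := hfh (fun i => top (frac g) i) fun i =>
      ⟨top_nonneg _ (trans_frac_nonneg g) i,
        top_le_one _ (trans_frac_nonneg g) (trans_frac_le_one g) i⟩
    have h2 := hfh (fun i => top (bfrac B g) i) fun i =>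
      ⟨top_nonneg _ (bfrac_nonneg B g) i,
        top_le_one _ (bfrac_nonneg B g) (bfrac_le_one B g) i⟩
    have hM0 : 0 ≤ a / 2 + D g / (2 * a) := by
      have := hDn g
      positivity
    have h3 := hhL (fun i => top (frac g) i) (fun i => top (bfrac B g) i)
      (a / 2 + D g / (2 * a)) hM0 fun i =>
        top_lip _ _ (trans_frac_nonneg g) (bfrac_nonneg B g) _ hM0
          (fun γ => by rw [hD]; exact trans_close B g γ a ha0) i
    rw [abs_le] at h1 h2 h3 ⊢
    constructor <;> linarith [h1.1, h1.2, h2.1, h2.2, h3.1, h3.2]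
  have e3 : |stirExp J t (fun g => f (fun i => top (frac g) i)) -
      stirExp J t (fun g => f (fun i => top (bfrac B g) i))| ≤ ε / 4 + ε / 4 := by
    unfold stirExp
    rw [← Finset.sum_sub_distrib]
    refine (Finset.abs_sum_le_sum_abs _ _).trans ?_
    have h2 : ∀ g : Perm V, |stirLaw J t g * f (fun i => top (frac g) i) -
        stirLaw J t g * f (fun i => top (bfrac B g) i)| ≤
          stirLaw J t g * (ε / 4 + Λ * (a / 2 + D g / (2 * a))) := by
      intro g
      rw [← mul_sub, abs_mul, abs_of_nonneg (law_nonneg hJ ht g)]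
      exact mul_le_mul_of_nonneg_left (e2 g) (law_nonneg hJ ht g)
    refine (Finset.sum_le_sum fun g _ => h2 g).trans ?_
    have h3 : ∑ g, stirLaw J t g * (ε / 4 + Λ * (a / 2 + D g / (2 * a))) =
        (ε / 4 + Λ * (a / 2)) * ∑ g, stirLaw J t g +
          Λ / (2 * a) * ∑ g, stirLaw J t g * D g := by
      rw [Finset.mul_sum, Finset.mul_sum, ← Finset.sum_add_distrib]
      refine Finset.sum_congr rfl fun g _ => ?_
      field_simp
      ring
    rw [h3, law_sum, mul_one]
    have h4 : Λ / (2 * a) * ∑ g, stirLaw J t g * D g ≤ Λ / (2 * a) * a ^ 2 :=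
      mul_le_mul_of_nonneg_left hκ' (by positivity)
    have h5 : Λ / (2 * a) * a ^ 2 = Λ * a / 2 := by
      field_simp
    linarith
  rw [abs_le] at e1 e3 ⊢
  constructor <;> linarith [e1.1, e1.2, e3.1, e3.2]

end Pool.Agent.R517.PDS
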