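import Pool.Agent.R517.PDS.Defs
import Pool.Agent.Y998.LP.Law2

/-!
# Project PDS: the window inequality (S_WIN)
-/

set_option autoImplicit false
set_option linter.unusedSectionVars false
set_option linter.unusedVariables false

namespace Pool.Agent.R517.PDS

open Finset Equiv
open Pool.Agent.Y998.ST
open Pool.Agent.Y998.LP (NN law_inv)

namespace Win

section forms

variable {V : Type} [Fintype V] [DecidableEq V]

theorem exists_rep (g : Perm V) : ∃ c : V → V, ∀ x y, g.SameCycle x y ↔ c x = c y := by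
  refine ⟨fun x => (Quotient.mk (Equiv.Perm.SameCycle.setoid g) x).out, fun x y => ?_⟩
  rw [Quotient.out_inj, Quotient.eq]
  rfl

theorem DR_eq (g : Perm V) (c : V → V) (hc : ∀ x y, g.SameCycle x y ↔ c x = c y)
    (S : Finset V) (u : V → ℝ) :
    DR g S u = ∑ γ : V, (∑ x ∈ S, if c x = γ then u x else 0) ^ 2 := by
  unfold DR
  have h : ∀ γ : V, (∑ x ∈ S, if c x = γ then u x else 0) ^ 2 =
      ∑ x ∈ S, ∑ y ∈ S, (if c x = γ then u x else 0) * (if c y = γ then u y else 0) :=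
    fun γ => by rw [sq, sum_mul_sum]
  simp only [h]
  symm
  rw [sum_comm]
  refine sum_congr rfl fun x _ => ?_
  rw [sum_comm]
  refine sum_congr rfl fun y _ => ?_
  rw [sum_eq_single (c x)]
  · by_cases hxy : g.SameCycle x y
    · rw [if_pos hxy, if_pos rfl, if_pos ((hc x y).1 hxy).symm]
    · rw [if_neg hxy, if_pos rfl, if_neg (fun h => hxy ((hc x y).2 h.symm)), mul_zero]
  · intro γ _ hγ
    rw [if_neg (Ne.symm hγ), zero_mul]
  · intro h
    exact absurd (mem_univ _) h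

theorem DR_nonneg (g : Perm V) (S : Finset V) (u : V → ℝ) : 0 ≤ DR g S u := by
  obtain ⟨c, hc⟩ := exists_rep g
  rw [DR_eq g c hc]
  exact sum_nonneg fun γ _ => sq_nonneg _

theorem DR_add (g : Perm V) (S : Finset V) (a b : V → ℝ) :
    DR g S (fun x => a x + b x) ≤ 2 * DR g S a + 2 * DR g S b := by
  obtain ⟨c, hc⟩ := exists_rep g
  rw [DR_eq g c hc, DR_eq g c hc, DR_eq g c hc, mul_sum, mul_sum, ← sum_add_distrib]
  refine sum_le_sum fun γ _ => ?_
  have h : (∑ x ∈ S, if c x = γ then a x + b x else 0) =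
      (∑ x ∈ S, if c x = γ then a x else 0) + ∑ x ∈ S, if c x = γ then b x else 0 := by
    rw [← sum_add_distrib]
    refine sum_congr rfl fun x _ => ?_
    split_ifs
    · rfl
    · rw [add_zero]
  rw [h]
  nlinarith [sq_nonneg ((∑ x ∈ S, if c x = γ then a x else 0) - ∑ x ∈ S, if c x = γ then b x else 0)]

theorem DR_const (g : Perm V) (S : Finset V) (c : V → ℝ) (β : ℝ) (hβ : 0 ≤ β)
    (h : ∀ x ∈ S, |c x| ≤ β) : DR g S c ≤ (S.card : ℝ) ^ 2 * β ^ 2 := by
  unfold DR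
  have h1 : ∀ x ∈ S, ∀ y ∈ S, (if g.SameCycle x y then c x * c y else 0) ≤ β ^ 2 := by
    intro x hx y hy
    split_ifs
    · have h2 : c x * c y ≤ |c x| * |c y| := by
        rw [← abs_mul]
        exact le_abs_self _
      refine h2.trans ?_
      rw [sq]
      exact mul_le_mul (h x hx) (h y hy) (abs_nonneg _) hβ
    · positivity
  refine (sum_le_sum fun x hx => sum_le_sum fun y hy => h1 x hx y hy).trans (le_of_eq ?_)
  rw [sum_const, sum_const, nsmul_eq_mul, nsmul_eq_mul]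
  ring

theorem DS_split (g : Perm V) (S : Finset V) (u : V → ℂ) :
    DS g S u = DR g S (fun x => (u x).re) + DR g S (fun x => (u x).im) := by
  unfold DS DR
  rw [← sum_add_distrib]
  refine sum_congr rfl fun x _ => ?_
  rw [← sum_add_distrib]
  refine sum_congr rfl fun y _ => ?_
  split_ifs
  · rw [Complex.mul_re, Complex.conj_re, Complex.conj_im]
    ring
  · rw [add_zero]

theorem DS_nonneg' (g : Perm V) (S : Finset V) (u : V → ℂ) : 0 ≤ DS g S u := by
  rw [DS_split]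
  exact add_nonneg (DR_nonneg _ _ _) (DR_nonneg _ _ _)

theorem DS_inv (g : Perm V) (S : Finset V) (u : V → ℂ) : DS g⁻¹ S u = DS g S u := by
  unfold DS
  refine sum_congr rfl fun x _ => sum_congr rfl fun y _ => ?_
  by_cases h : g.SameCycle x y
  · rw [if_pos h, if_pos (Equiv.Perm.sameCycle_inv.2 h)]
  · rw [if_neg h, if_neg (fun h' => h (Equiv.Perm.sameCycle_inv.1 h'))]

theorem exp_lin (J : V → V → ℝ) (t : ℝ) (F : Perm V → ℝ) (a c : ℝ) :
    stirExp J t (fun g => a * F g + c) = a * stirExp J t F + c := by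
  have h1 := exp_const J t c
  unfold stirExp at h1 ⊢
  have h2 : ∀ g : Perm V, stirLaw J t g * (a * F g + c) =
      a * (stirLaw J t g * F g) + stirLaw J t g * c := fun g => by ring
  simp only [h2]
  rw [sum_add_distrib, h1, mul_sum]

theorem exp_add' (J : V → V → ℝ) (t : ℝ) (F G : Perm V → ℝ) :
    stirExp J t (fun g => F g + G g) = stirExp J t F + stirExp J t G := by
  unfold stirExp
  rw [← sum_add_distrib]
  exact sum_congr rfl fun g _ => by ring

theorem exp_mul' (J : V → V → ℝ) (t : ℝ) (F : Perm V → ℝ) (a : ℝ) :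
    stirExp J t (fun g => a * F g) = a * stirExp J t F := by
  unfold stirExp
  rw [mul_sum]
  exact sum_congr rfl fun g _ => by ring

theorem exp_inv (J : V → V → ℝ) (t : ℝ) (F : Perm V → ℝ) :
    stirExp J t (fun g => F g⁻¹) = stirExp J t F := by
  unfold stirExp
  rw [← Equiv.sum_comp (Equiv.inv (Perm V))]
  refine sum_congr rfl fun g _ => ?_
  show stirLaw J t g⁻¹ * F (g⁻¹)⁻¹ = _
  rw [inv_inv, law_inv]

/-- one real eigenfunction -/
theorem step1 (hKE : S_KE) (J : V → V → ℝ) (hJ : ∀ x y, 0 ≤ J x y) (hs : ∀ x y, J x y = J y x)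
    (h0 : ∀ x, J x x = 0) (t : ℝ) (ht : 0 ≤ t) (f : V → ℝ) (hf : ∀ x, |f x| ≤ 1) (e : ℝ)
    (he0 : 0 ≤ e) (he1 : e ≤ 1) (hmu : ∀ x, mu J t f x = e * f x) (p0 : V) (S : Finset V)
    (hS : 0 < S.card) (η lm q : ℝ) (hη : 0 ≤ η) (hlm : 0 ≤ lm) (hq0 : 0 ≤ q)
    (hNN : ∀ x ∈ S, ∀ y ∈ S, NN J (t / 2) (swap x y) ≤ η) (hq : ∀ x y, hop J t x y ≤ q)
    (hfl : ∀ x ∈ S, |f x - f p0| ≤ lm) :
    stirExp J t (fun g => DR g S fun x => f (g x) - e * f x) ≤
      (S.card : ℝ) ^ 2 * (8 / S.card + 3 * lm ^ 2 + η ^ 2 + 16 * lm * q) := by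
  obtain ⟨p, hp⟩ : ∃ p, p = e * f p0 := ⟨_, rfl⟩
  have hp1 : |p| ≤ 1 := by
    rw [hp, abs_mul, abs_of_nonneg he0]
    have := hf p0
    have := abs_nonneg (f p0)
    nlinarith
  have hfp : ∀ x ∈ S, |e * f x - p| ≤ lm := by
    intro x hx
    rw [hp, ← mul_sub, abs_mul, abs_of_nonneg he0]
    have := hfl x hx
    have := abs_nonneg (f x - f p0)
    nlinarith
  have h1 := hKE V J hJ hs h0 t ht f hf p hp1 S η (2 * lm) q lm hη (by linarith) hq0 hlm hNN
    (fun x hx y hy => by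
      have e1 := hfl x hx
      have e2 := hfl y hy
      have e3 : f x - f y = (f x - f p0) - (f y - f p0) := by ring
      rw [e3]
      refine (abs_sub _ _).trans ?_
      linarith)
    (fun x _ y _ => hq x y) (fun x hx => by rw [hmu]; exact hfp x hx)
  have h2 : stirExp J t (fun g => DR g S fun x => f (g x) - e * f x) ≤
      stirExp J t (fun g => 2 * (DR g S fun x => f (g x) - p) + 2 * ((S.card : ℝ) ^ 2 * lm ^ 2)) := by
    refine exp_mono hJ ht fun g => ?_
    have h3 := DR_add g S (fun x => f (g x) - p) (fun x => p - e * f x)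
    have h4 := DR_const g S (fun x => p - e * f x) lm hlm (fun x hx => by
      rw [abs_sub_comm]
      exact hfp x hx)
    have h5 : (fun x => f (g x) - e * f x) = fun x => (f (g x) - p) + (p - e * f x) := by
      funext x
      ring
    rw [h5]
    linarith
  rw [exp_lin] at h2
  refine h2.trans ?_
  have hm : (0 : ℝ) < S.card := by exact_mod_cast hS
  have h6 : (S.card : ℝ) ^ 2 * (8 / S.card + 3 * lm ^ 2 + η ^ 2 + 16 * lm * q) =
      8 * S.card + (S.card : ℝ) ^ 2 * (3 * lm ^ 2 + η ^ 2 + 16 * lm * q) := by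
    field_simp
    ring
  rw [h6]
  nlinarith [h1]

end forms

section torus

variable {d L : ℕ} [NeZero L]

theorem ch_add (k x y : Fin d → ZMod L) : ch k (x + y) = ch k x * ch k y := by
  unfold ch
  rw [← AddChar.map_add_eq_mul, ← sum_add_distrib]
  congr 1
  congr 1
  funext i
  rw [Pi.add_apply, mul_add]

theorem ch_add' (k k' x : Fin d → ZMod L) : ch (k + k') x = ch k x * ch k' x := by
  unfold ch
  rw [← AddChar.map_add_eq_mul, ← sum_add_distrib]
  congr 1
  congr 1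
  funext i
  rw [Pi.add_apply, add_mul]

theorem ch_norm (k x : Fin d → ZMod L) : ‖ch k x‖ = 1 := by
  unfold ch
  exact AddChar.norm_apply _ _

theorem ev_pos (t : ℝ) (k : Fin d → ZMod L) : 0 < ev t k := Real.exp_pos _

theorem ev_le (t : ℝ) (ht : 0 ≤ t) (k : Fin d → ZMod L) : ev t k ≤ 1 := by
  unfold ev
  rw [Real.exp_le_one_iff, neg_nonpos]
  exact mul_nonneg ht (sum_nonneg fun i _ => lam_nonneg _)

theorem mu_re (hEIG : S_EIG) (hL : 3 ≤ L) (t : ℝ) (k x : Fin d → ZMod L) :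
    mu (nnRate d L) t (fun z => (ch k z).re) x = ev t k * (ch k x).re := by
  have h := congrArg Complex.re (hEIG d L hL t k x)
  rw [Complex.re_sum, Complex.re_ofReal_mul] at h
  simp only [Complex.re_ofReal_mul] at h
  exact h

theorem mu_im (hEIG : S_EIG) (hL : 3 ≤ L) (t : ℝ) (k x : Fin d → ZMod L) :
    mu (nnRate d L) t (fun z => (ch k z).im) x = ev t k * (ch k x).im := by
  have h := congrArg Complex.im (hEIG d L hL t k x)
  rw [Complex.im_sum, Complex.im_ofReal_mul] at h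
  simp only [Complex.im_ofReal_mul] at h
  exact h

/-- one box, one character -/
theorem step2 (hKE : S_KE) (hEIG : S_EIG) (hL : 3 ≤ L) (t : ℝ) (ht : 0 ≤ t)
    (B : Finset (Fin d → ZMod L)) (η lm q : ℝ) (hη : 0 ≤ η) (hlm : 0 ≤ lm) (hq0 : 0 ≤ q)
    (hB : 0 < B.card)
    (hNN : ∀ v, ∀ x ∈ B, ∀ y ∈ B, NN (nnRate d L) (t / 2) (swap (v + x) (v + y)) ≤ η)
    (hq : ∀ x y, hop (nnRate d L) t x y ≤ q) (k : Fin d → ZMod L)
    (hk : ∀ b ∈ B, ‖ch k b - 1‖ ≤ lm) (v : Fin d → ZMod L) :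
    stirExp (nnRate d L) t (fun g => DS g (B.image fun b => v + b)
      (fun x => ch k (g x) - ev t k * ch k x)) ≤
      2 * ((B.card : ℝ) ^ 2 * (8 / B.card + 3 * lm ^ 2 + η ^ 2 + 16 * lm * q)) := by
  obtain ⟨S, hSdef⟩ : ∃ S, S = B.image fun b => v + b := ⟨_, rfl⟩
  have hcard : S.card = B.card := by
    rw [hSdef]
    exact card_image_of_injective _ (add_right_injective v)
  rw [← hSdef]
  have hdist : ∀ x ∈ S, ‖ch k x - ch k v‖ ≤ lm := by
    intro x hx
    rw [hSdef, mem_image] at hx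
    obtain ⟨b, hb, rfl⟩ := hx
    have e1 : ch k (v + b) - ch k v = ch k v * (ch k b - 1) := by
      rw [ch_add]
      ring
    rw [e1, norm_mul, ch_norm, one_mul]
    exact hk b hb
  have hSNN : ∀ x ∈ S, ∀ y ∈ S, NN (nnRate d L) (t / 2) (swap x y) ≤ η := by
    intro x hx y hy
    rw [hSdef, mem_image] at hx hy
    obtain ⟨b, hb, rfl⟩ := hx
    obtain ⟨b', hb', rfl⟩ := hy
    exact hNN v b hb b' hb'
  have hS : 0 < S.card := by rw [hcard]; exact hB
  have h1 := step1 hKE (nnRate d L) nn_nonneg nn_symm (nn_diag hL) t ht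
    (fun z => (ch k z).re) (fun x => (Complex.abs_re_le_norm _).trans (ch_norm k x).le) (ev t k)
    (ev_pos t k).le (ev_le t ht k) (mu_re hEIG hL t k) v S hS η lm q hη hlm hq0 hSNN hq
    (fun x hx => by
      rw [← Complex.sub_re]
      exact (Complex.abs_re_le_norm _).trans (hdist x hx))
  have h2 := step1 hKE (nnRate d L) nn_nonneg nn_symm (nn_diag hL) t ht
    (fun z => (ch k z).im) (fun x => (Complex.abs_im_le_norm _).trans (ch_norm k x).le) (ev t k)
    (ev_pos t k).le (ev_le t ht k) (mu_im hEIG hL t k) v S hS η lm q hη hlm hq0 hSNN hq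
    (fun x hx => by
      rw [← Complex.sub_im]
      exact (Complex.abs_im_le_norm _).trans (hdist x hx))
  have h3 : (fun g : Perm (Fin d → ZMod L) => DS g S (fun x => ch k (g x) - ev t k * ch k x)) =
      fun g => (DR g S fun x => (ch k (g x)).re - ev t k * (ch k x).re) +
        DR g S fun x => (ch k (g x)).im - ev t k * (ch k x).im := by
    funext g
    rw [DS_split]
    simp only [Complex.sub_re, Complex.sub_im, Complex.re_ofReal_mul, Complex.im_ofReal_mul]
  rw [h3, exp_add']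
  rw [hcard] at h1 h2
  linarith

theorem bh_ge (B : Finset (Fin d → ZMod L)) (hB : 0 < B.card) (lm : ℝ) (hlm : lm ≤ 1 / 8)
    (k : Fin d → ZMod L) (hk : ∀ b ∈ B, ‖ch k b - 1‖ ≤ lm) : 1 ≤ 2 * ‖bh B k‖ ^ 2 := by
  have hm : (0 : ℝ) < B.card := by exact_mod_cast hB
  have hmc : (B.card : ℂ) ≠ 0 := by exact_mod_cast hB.ne'
  have h1 : bh B k - 1 = (∑ b ∈ B, (ch k b - 1)) / B.card := by
    unfold bh
    rw [sum_sub_distrib, sum_const, nsmul_eq_mul, mul_one, sub_div, div_self hmc]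
  have h2 : ‖bh B k - 1‖ ≤ lm := by
    rw [h1, norm_div, Complex.norm_natCast, div_le_iff₀ hm]
    refine (norm_sum_le _ _).trans ?_
    refine (sum_le_sum hk).trans (le_of_eq ?_)
    rw [sum_const, nsmul_eq_mul, mul_comm]
  have h3 : (1 : ℝ) ≤ ‖bh B k‖ + ‖bh B k - 1‖ := by
    have h4 := norm_sub_le (bh B k) (bh B k - 1)
    rw [sub_sub_cancel, norm_one] at h4
    exact h4
  have h5 : 7 / 8 ≤ ‖bh B k‖ := by linarith
  nlinarith

/-- all characters of the window -/
theorem step3 (hKE : S_KE) (hEIG : S_EIG) (hPAR : S_PAR) (hL : 3 ≤ L) (t : ℝ) (ht : 0 ≤ t)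
    (B : Finset (Fin d → ZMod L)) (η lm q : ℝ) (hη : 0 ≤ η) (hlm : 0 ≤ lm) (hq0 : 0 ≤ q)
    (hB : 0 < B.card)
    (hNN : ∀ v, ∀ x ∈ B, ∀ y ∈ B, NN (nnRate d L) (t / 2) (swap (v + x) (v + y)) ≤ η)
    (hq : ∀ x y, hop (nnRate d L) t x y ≤ q) (hlm8 : lm ≤ 1 / 8)
    (X : Finset (Fin d → ZMod L)) (hX : ∀ k ∈ X, ∀ b ∈ B, ‖ch k b - 1‖ ≤ lm)
    (k : Fin d → ZMod L) (hk : k ∈ X) :
    ∑ k' ∈ X, stirExp (nnRate d L) t (fun g => DS g univ
      (fun x => ch k' x * (ch k (g x) - ev t k * ch k x))) ≤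
      4 * ((L : ℝ) ^ d) ^ 2 * (8 / B.card + 3 * lm ^ 2 + η ^ 2 + 16 * lm * q) := by
  have hm : (0 : ℝ) < B.card := by exact_mod_cast hB
  obtain ⟨s, hs⟩ : ∃ s : ℝ, s = 8 / B.card + 3 * lm ^ 2 + η ^ 2 + 16 * lm * q := ⟨_, rfl⟩
  rw [exp_sum, ← hs]
  have h1 : ∀ g : Perm (Fin d → ZMod L),
      ∑ k' ∈ X, DS g univ (fun x => ch k' x * (ch k (g x) - ev t k * ch k x)) ≤
      (2 * ((L : ℝ) ^ d / (B.card : ℝ) ^ 2)) * ∑ v : Fin d → ZMod L,
        DS g (B.image fun b => v + b) (fun x => ch k (g x) - ev t k * ch k x) := by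
    intro g
    rw [mul_assoc, ← hPAR d L g B hB (fun x => ch k (g x) - ev t k * ch k x), mul_sum]
    refine le_trans ?_ (sum_le_sum_of_subset_of_nonneg (subset_univ X) fun k' _ _ => by
      have := DS_nonneg' g univ (fun x => ch k' x * (ch k (g x) - ev t k * ch k x))
      positivity)
    refine sum_le_sum fun k' hk' => ?_
    have h2 := bh_ge B hB lm hlm8 k' (hX k' hk')
    have h3 := DS_nonneg' g univ (fun x => ch k' x * (ch k (g x) - ev t k * ch k x))
    nlinarith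
  refine (exp_mono nn_nonneg ht h1).trans ?_
  rw [exp_mul', ← exp_sum]
  have h4 : ∑ v : Fin d → ZMod L, stirExp (nnRate d L) t (fun g => DS g (B.image fun b => v + b)
      (fun x => ch k (g x) - ev t k * ch k x)) ≤
      ∑ v : Fin d → ZMod L, 2 * ((B.card : ℝ) ^ 2 * s) := by
    refine sum_le_sum fun v _ => ?_
    rw [hs]
    exact step2 hKE hEIG hL t ht B η lm q hη hlm hq0 hB hNN hq k (hX k hk) v
  have h5 : ((univ : Finset (Fin d → ZMod L)).card : ℝ) = (L : ℝ) ^ d := by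
    rw [card_univ, Fintype.card_pi, prod_const, ZMod.card, card_univ, Fintype.card_fin]
    push_cast
    rfl
  rw [sum_const, nsmul_eq_mul, h5] at h4
  refine (mul_le_mul_of_nonneg_left h4 (by positivity)).trans (le_of_eq ?_)
  field_simp
  ring

end torus

end Win

open Win in
theorem t_WIN (hKE : S_KE) (hEIG : S_EIG) (hPAR : S_PAR) (hPAIR : S_PAIR) : S_WIN := by
  intro d L _ hL t ht B η lm q hη hlm hq0 hB hNN hq hlm8 X hX
  obtain ⟨s, hs⟩ : ∃ s : ℝ, s = 8 / B.card + 3 * lm ^ 2 + η ^ 2 + 16 * lm * q := ⟨_, rfl⟩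
  have h3 := fun k hk => step3 hKE hEIG hPAR hL t ht B η lm q hη hlm hq0 hB hNN hq hlm8 X hX k hk
  rw [← hs] at h3 ⊢
  -- the first kind of terms
  let F : (Fin d → ZMod L) → (Fin d → ZMod L) → ℝ := fun k k' =>
    stirExp (nnRate d L) t (fun g => DS g univ
      (fun x => ch k' x * (ch k (g x) - ev t k * ch k x)))
  have hF : ∀ k ∈ X, ∑ k' ∈ X, F k k' ≤ 4 * ((L : ℝ) ^ d) ^ 2 * s := h3
  have hG : ∀ k k', stirExp (nnRate d L) t (fun g => DS g univ
      (fun y => ch k y * (ch k' (g⁻¹ y) - ev t k' * ch k' y))) = F k' k := by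
    intro k k'
    show _ = stirExp (nnRate d L) t (fun g => DS g univ
      (fun x => ch k x * (ch k' (g x) - ev t k' * ch k' x)))
    rw [← exp_inv]
    congr 1
    funext g
    rw [DS_inv]
    simp only [inv_inv]
  have hpt : ∀ k k', (ev t k - ev t k') ^ 2 *
      stirExp (nnRate d L) t (fun g => DS g univ (ch (k + k'))) ≤ 2 * F k k' + 2 * F k' k := by
    intro k k'
    rw [← exp_mul', ← hG k k']
    show _ ≤ 2 * stirExp (nnRate d L) t (fun g => DS g univ
      (fun x => ch k' x * (ch k (g x) - ev t k * ch k x))) + 2 * _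
    rw [← exp_mul' _ _ _ 2, ← exp_mul' _ _ _ 2, ← exp_add']
    refine exp_mono nn_nonneg ht fun g => ?_
    refine (hPAIR _ g (ch k') (ch k) (ch (k + k')) (ev t k) (ev t k')).trans (le_of_eq ?_)
    congr 2
    · congr 1
      funext x
      rw [ch_add']
      ring
    · congr 1
      funext x
      rw [ch_add']
      ring
  have h4 : ∑ k ∈ X, ∑ k' ∈ X, (ev t k - ev t k') ^ 2 *
      stirExp (nnRate d L) t (fun g => DS g univ (ch (k + k'))) ≤
      ∑ k ∈ X, ∑ k' ∈ X, (2 * F k k' + 2 * F k' k) :=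
    sum_le_sum fun k _ => sum_le_sum fun k' _ => hpt k k'
  refine h4.trans ?_
  have h5 : ∑ k ∈ X, ∑ k' ∈ X, (2 * F k k' + 2 * F k' k) = 4 * ∑ k ∈ X, ∑ k' ∈ X, F k k' := by
    simp only [sum_add_distrib, ← mul_sum]
    rw [sum_comm (f := fun k k' => F k' k)]
    ring
  rw [h5]
  have h6 : ∑ k ∈ X, ∑ k' ∈ X, F k k' ≤ X.card * (4 * ((L : ℝ) ^ d) ^ 2 * s) := by
    refine (sum_le_sum hF).trans (le_of_eq ?_)
    rw [sum_const, nsmul_eq_mul]
  calc 4 * ∑ k ∈ X, ∑ k' ∈ X, F k k' ≤ 4 * (X.card * (4 * ((L : ℝ) ^ d) ^ 2 * s)) :=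
        mul_le_mul_of_nonneg_left h6 (by norm_num)
    _ = _ := by ring

end Pool.Agent.R517.PDS
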