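import Pool.Agent.R517.PDS.Fin1
import Pool.Agent.R517.PDS.NEG
import Pool.Agent.R517.PDS.KE
import Pool.Agent.R517.PDS.Eig
import Pool.Agent.R517.PDS.Par
import Pool.Agent.R517.PDS.Pair
import Pool.Agent.R517.PDS.Low
import Pool.Agent.R517.PDS.Dir
import Pool.Agent.R517.PDS.Trans
import Pool.Agent.R517.PDS.Win

/-!
# Homogeneity and the Poisson-Dirichlet law below the diffusive time scale
-/

set_option autoImplicit false

namespace Pool.Agent.R517.PDS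

theorem hom : S_HOM :=
  t_HOM (t_WIN (t_KE t_NEG) t_EIG t_PAR t_PAIR) (fun V _ _ g u => DS_nonneg g Finset.univ u) t_PAR
    t_DIR t_NEAR t_LOW

open Pool.Agent.Y998.ST (stirExp nnRate)
open Pool.Agent.Results.MP_b817cf_pr.LocalPoissonDirichlet (cycleFrac pdMean)

theorem pd_all (d : ℕ) (hd : 1 ≤ d) (m : ℕ) (f : (Fin m → ℝ) → ℝ) (hf : Continuous f) (C₀ : ℝ)
    (hC₀ : ∀ u, |f u| ≤ C₀) (ε : ℝ) (hε : 0 < ε) :
    ∃ A : ℝ, 0 < A ∧ ∀ (L : ℕ) [NeZero L], A ≤ L → ∀ t : ℝ,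
      A * (L : ℝ) ^ (((d : ℝ) + 2) / (d + 1)) ≤ t →
      |stirExp (nnRate d L) t (fun g => f (fun i : Fin m => cycleFrac g i)) - pdMean f| ≤ ε :=
  pd_below t_TRANS hom t_NEAR d hd m f hf C₀ hC₀ ε hε

end Pool.Agent.R517.PDS
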