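import Pool.Agent.R517.PDS.Fin4
import Pool.Agent.R517.PDS.All

/-!
# The probability that several points are in one cycle: below the diffusive time scale
-/

set_option autoImplicit false

namespace Pool.Agent.R517.PDS

open Finset Equiv
open Pool.Agent.Y998.ST (stirLaw stirExp hop nnRate lam exp_const exp_nonneg nn_nonneg nn_symm
  nn_diag law_nonneg qq_torus)
open Pool.Agent.Y998.LP (NN bfrac tdist NN_nonneg NN_one law_inv)

theorem zero_box {d L R : ℕ} [NeZero L] (hR : 1 ≤ R) : (0 : Fin d → ZMod L) ∈ box d L R := by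
  unfold box
  rw [Finset.mem_filter]
  refine ⟨Finset.mem_univ _, fun i => ?_⟩
  rw [Pi.zero_apply, ZMod.val_zero]
  omega

theorem exists_tuple {V : Type} (B : Finset V) (K : ℕ) (h : K ≤ B.card) :
    ∃ b : Fin K → V, Function.Injective b ∧ ∀ i, b i ∈ B := by
  refine ⟨fun i => (B.equivFin.symm (Fin.castLE h i)).val, ?_, fun i => Subtype.coe_prop _⟩
  intro i j hij
  have h1 := B.equivFin.symm.injective (Subtype.ext hij)
  exact Fin.castLE_injective h h1

theorem kpt (d : ℕ) (hd : 1 ≤ d) (K : ℕ) (hK : 1 ≤ K) (ε : ℝ) (hε : 0 < ε) :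
    ∃ A : ℝ, 0 < A ∧ ∀ (L : ℕ) [NeZero L], A ≤ L → ∀ t : ℝ,
      A * (L : ℝ) ^ (((d : ℝ) + 2) / (d + 1)) ≤ t →
      ∀ b : Fin K → Fin d → ZMod L, Function.Injective b →
      |stirExp (nnRate d L) t (fun g =>
        (open Classical in if ∀ i j, g.SameCycle (b i) (b j) then (1 : ℝ) else 0)) - 1 / K| ≤ ε := by
  obtain ⟨C, hC, hdist⟩ := Pool.Agent.Y998.LQ.t_dist d hd
  have hd1 : (1 : ℝ) ≤ d := by exact_mod_cast hd
  have hK1 : (1 : ℝ) ≤ K := by exact_mod_cast hK
  obtain ⟨A₁, hA₁⟩ : ∃ A₁ : ℝ, A₁ = 1 + (C * d * K / ε) ^ 2 := ⟨_, rfl⟩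
  have hsq1 : 0 ≤ (C * d * K / ε) ^ 2 := sq_nonneg _
  have hA₁1 : 1 ≤ A₁ := by linarith
  have hsA : 0 < Real.sqrt A₁ := Real.sqrt_pos.2 (by linarith)
  obtain ⟨δ, hδ⟩ : ∃ δ : ℝ, δ = min (1 / Real.sqrt A₁) (ε / (20 * K * (C * d))) := ⟨_, rfl⟩
  have hδ0 : 0 < δ := by rw [hδ]; exact lt_min (by positivity) (by positivity)
  have hδ1 : δ * Real.sqrt A₁ ≤ 1 := by
    have h1 : δ ≤ 1 / Real.sqrt A₁ := by rw [hδ]; exact min_le_left _ _
    rwa [le_div_iff₀ hsA] at h1
  have hδ2 : 20 * K * (C * d * δ) ≤ ε := by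
    have h1 : δ ≤ ε / (20 * K * (C * d)) := by rw [hδ]; exact min_le_right _ _
    rw [le_div_iff₀ (by positivity)] at h1
    linarith
  obtain ⟨θ, hθ⟩ : ∃ θ : ℝ, θ = ε / (8 * K) := ⟨_, rfl⟩
  have hθ0 : 0 < θ := by rw [hθ]; positivity
  have hθ1 : 8 * K * θ = ε := by rw [hθ]; field_simp
  obtain ⟨A₂, hA₂, hhom⟩ := hom d hd A₁ hA₁1 δ hδ0 hδ1 (θ ^ 2) (by positivity)
  obtain ⟨N₀, hN₀⟩ := exists_nat_gt (24 * (K : ℝ) ^ 2 / ε + K)
  have hsq : 0 ≤ (((N₀ : ℝ) + 1) / δ) ^ 2 := sq_nonneg _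
  refine ⟨3 + A₂ + (((N₀ : ℝ) + 1) / δ) ^ 2, by positivity, ?_⟩
  intro L _ hAL t ht b hb
  have hL3r : (3 : ℝ) ≤ L := by linarith
  have hL : 3 ≤ L := by exact_mod_cast hL3r
  have hL1 : (1 : ℝ) ≤ (L : ℝ) ^ (((d : ℝ) + 2) / (d + 1)) :=
    Real.one_le_rpow (by linarith) (by positivity)
  have ht1 : 3 + A₂ + (((N₀ : ℝ) + 1) / δ) ^ 2 ≤ t :=
    le_trans (le_mul_of_one_le_right (by positivity) hL1) ht
  have ht0 : 0 < t := by linarith
  have hst : 0 < Real.sqrt t := Real.sqrt_pos.2 ht0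
  have hunf : ∀ b' : Fin K → Fin d → ZMod L, stirExp (nnRate d L) t (fun g =>
      (open Classical in if ∀ i j, g.SameCycle (b' i) (b' j) then (1 : ℝ) else 0)) =
      ∑ g, stirLaw (nnRate d L) t g *
        (open Classical in if ∀ i j, g.SameCycle (b' i) (b' j) then (1 : ℝ) else 0) :=
    fun _ => rfl
  rcases le_total t (A₁ * (L : ℝ) ^ 2) with hcase | hcase
  · -- below the diffusive time
    have htA₂ : A₂ * (L : ℝ) ^ (((d : ℝ) + 2) / (d + 1)) ≤ t := by
      refine le_trans (mul_le_mul_of_nonneg_right ?_ (by linarith)) ht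
      linarith
    obtain ⟨hR1, hRL, hh⟩ := hhom L hL t htA₂ hcase
    obtain ⟨R, hR⟩ : ∃ R : ℕ, R = ⌊δ * Real.sqrt t⌋₊ := ⟨_, rfl⟩
    have hcard : (box d L R).card = R ^ d := (t_NEAR d L R (hR ▸ hR1) (hR ▸ hRL) 0).1
    have hN : N₀ ≤ R := by
      rw [hR]
      refine Nat.le_floor ?_
      have h1 : ((N₀ : ℝ) + 1) / δ ≤ Real.sqrt t := Real.le_sqrt_of_sq_le (by linarith)
      rw [div_le_iff₀ hδ0] at h1
      linarith
    have hNB : N₀ ≤ (box d L R).card := by
      rw [hcard]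
      exact hN.trans (Nat.le_self_pow (by omega) R)
    have hNBr : (N₀ : ℝ) ≤ (box d L R).card := by exact_mod_cast hNB
    have hKB : 24 * (K : ℝ) ^ 2 / ε + K ≤ (box d L R).card := hN₀.le.trans hNBr
    have hpos24 : 0 < 24 * (K : ℝ) ^ 2 / ε := by positivity
    have hKc : K ≤ (box d L R).card := by
      have : (K : ℝ) ≤ (box d L R).card := by linarith
      exact_mod_cast this
    have hB0 : 0 < (box d L R).card := by omega
    have hB0r : (0 : ℝ) < (box d L R).card := by exact_mod_cast hB0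
    rw [← hR] at hh
    have hNN : ∀ v x y : Fin d → ZMod L, x ∈ box d L R → y ∈ box d L R →
        NN (nnRate d L) t (swap (v + x) (v + y)) ≤ C * d * δ := by
      intro v x y hx hy
      rw [hR] at hx hy
      exact NN_box C hC t ht0 (hdist L hL t ht0) δ hδ0 v x y hx hy
    have hNN0 : ∀ v, ∀ z ∈ box d L R, NN (nnRate d L) t (swap v (v + z)) ≤ C * d * δ := by
      intro v z hz
      have h1 := hNN v 0 z (zero_box (hR ▸ hR1)) hz
      rwa [add_zero] at h1
    obtain ⟨n, hn⟩ : ∃ n : ℕ, K = n + 1 := ⟨K - 1, by omega⟩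
    subst hn
    obtain ⟨η, hη⟩ : ∃ η : ℝ, η = C * d * δ := ⟨_, rfl⟩
    have hη0 : 0 ≤ η := by rw [hη]; positivity
    rw [← hη] at hNN hNN0 hδ2
    obtain ⟨Mn, hMn⟩ : ∃ Mn : ℝ, Mn = stirExp (nnRate d L) t
      (fun g => dens g Finset.univ (0 : Fin d → ZMod L) ^ n) := ⟨_, rfl⟩
    obtain ⟨Er, hEr⟩ : ∃ Er : ℝ, Er = n * (2 * η) + (n + 2 * (n : ℝ) ^ 2) / (box d L R).card +
      n * θ := ⟨_, rfl⟩
    have hmain : ∀ b' : Fin (n + 1) → Fin d → ZMod L, Function.Injective b' →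
        |(∑ g, stirLaw (nnRate d L) t g *
        (open Classical in if ∀ i j, g.SameCycle (b' i) (b' j) then (1 : ℝ) else 0)) - Mn| ≤ Er := by
      intro b' hb'
      have h1 := QQ_mean hL ht0.le (box d L R) hB0 (b' 0) (fun i => b' i.succ)
        (fun i h => (Fin.succ_ne_zero i) (hb' h))
        (fun i j hij h => hij (Fin.succ_injective _ (hb' h))) η θ hη0 hθ0 hNN0 hh
      rw [← hMn, ← hEr] at h1
      have h2 : QQ (nnRate d L) t (b' 0) (fun i => b' i.succ) =
          ∑ g, stirLaw (nnRate d L) t g *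
        (open Classical in if ∀ i j, g.SameCycle (b' i) (b' j) then (1 : ℝ) else 0) := by
        unfold QQ stirExp
        refine Finset.sum_congr rfl fun g _ => ?_
        beta_reduce
        rw [II_eq]
      rwa [h2] at h1
    obtain ⟨b₀, hb₀, hb₀B⟩ := exists_tuple (box d L R) (n + 1) hKc
    have h3 := hmain b hb
    have h4 := hmain b₀ hb₀
    have h5 := one_cycle (nnRate d L) t hK b₀ hb₀ η hη0 (by
      intro i j
      have := hNN 0 (b₀ i) (b₀ j) (hb₀B i) (hb₀B j)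
      rwa [zero_add, zero_add] at this)
    rw [hunf b]
    have hErle : 2 * Er + (n + 1 : ℕ) * η ≤ ε := by
      have e1 : (((n + 1 : ℕ) : ℝ)) = n + 1 := by push_cast; rfl
      rw [e1] at hK1 hδ2 hθ1 hKB hpos24 ⊢
      have hn0 : (0 : ℝ) ≤ n := by positivity
      have g1 : (n + 2 * (n : ℝ) ^ 2) / (box d L R).card ≤ ε / 8 := by
        rw [div_le_iff₀ hB0r]
        have g2 : 24 * ((n : ℝ) + 1) ^ 2 / ε ≤ (box d L R).card := by linarith
        rw [div_le_iff₀ hε] at g2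
        nlinarith
      rw [hEr]
      nlinarith
    have h6 := abs_sub_le (∑ g, stirLaw (nnRate d L) t g *
        (open Classical in if ∀ i j, g.SameCycle (b i) (b j) then (1 : ℝ) else 0)) Mn
        (1 / ((n + 1 : ℕ) : ℝ))
    have h7 := abs_sub_le Mn (∑ g, stirLaw (nnRate d L) t g *
        (open Classical in if ∀ i j, g.SameCycle (b₀ i) (b₀ j) then (1 : ℝ) else 0))
        (1 / ((n + 1 : ℕ) : ℝ))
    have h4' := h4
    rw [abs_sub_comm] at h4'
    linarith only [h3, h4', h5, h6, h7, hErle]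
  · -- beyond the diffusive time
    rw [hunf b]
    have hη1 : ∀ i j, NN (nnRate d L) t (swap (b i) (b j)) ≤ ε / K := by
      intro i j
      refine (hdist L hL t ht0 (b i) (b j)).trans ?_
      rw [div_le_iff₀ hst]
      have h1 := Pool.Agent.Results.MP_b817cf_pr.LocalPoissonDirichlet.dist_le (b i) (b j)
      have e2 : (Pool.Agent.Y998.LP.tdist (b i) (b j) : ℝ) =
        Pool.Agent.Results.MP_b817cf_pr.LocalPoissonDirichlet.torusDist (b i) (b j) := rfl
      rw [e2]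
      have h3 : (C * d * K / ε * L) ^ 2 ≤ t := by
        refine le_trans ?_ hcase
        rw [mul_pow]
        refine mul_le_mul_of_nonneg_right ?_ (by positivity)
        linarith
      have h4 : C * d * K / ε * L ≤ Real.sqrt t := Real.le_sqrt_of_sq_le h3
      calc C * (Pool.Agent.Results.MP_b817cf_pr.LocalPoissonDirichlet.torusDist (b i) (b j) : ℝ)
          ≤ C * (d * L) := mul_le_mul_of_nonneg_left h1 hC.le
        _ = ε / K * (C * d * K / ε * L) := by field_simp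
        _ ≤ ε / K * Real.sqrt t := mul_le_mul_of_nonneg_left h4 (by positivity)
    have h5 := one_cycle (nnRate d L) t hK b hb (ε / K) (by positivity) hη1
    refine h5.trans (le_of_eq ?_)
    field_simp

end Pool.Agent.R517.PDS
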