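import Mathlib

/-!
# The number of cyclic permutations
-/

set_option autoImplicit false

namespace Pool.Agent.R517.PDS

open Finset Equiv

theorem cyc_iff (K : ℕ) (hK : 2 ≤ K) (π : Perm (Fin K)) :
    (∀ i j, π.SameCycle i j) ↔ π.cycleType = {K} := by
  constructor
  · intro h
    have hmove : ∀ i, π i ≠ i := by
      intro i hi
      obtain ⟨j, hj⟩ : ∃ j : Fin K, j ≠ i := by
        have : Nontrivial (Fin K) := Fin.nontrivial_iff_two_le.2 hK
        exact exists_ne i
      obtain ⟨m, hm⟩ := h i j
      rw [Perm.zpow_apply_eq_self_of_apply_eq_self hi] at hm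
      exact hj hm.symm
    have hc : π.IsCycle := by
      refine ⟨⟨0, by omega⟩, hmove _, fun y _ => h _ _⟩
    rw [hc.cycleType]
    have : π.support = Finset.univ := by
      ext i
      simp [Perm.mem_support, hmove i]
    rw [this, Finset.card_univ, Fintype.card_fin]
  · intro h i j
    have hc : π.IsCycle := by
      rw [← Perm.card_cycleType_eq_one, h, Multiset.card_singleton]
    have hs : π.support.card = K := by
      have := Perm.sum_cycleType π
      rw [h, Multiset.sum_singleton] at this
      exact this.symm
    have hu : π.support = Finset.univ := by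
      refine Finset.eq_univ_of_card _ ?_
      rw [hs, Fintype.card_fin]
    have hm : ∀ i, π i ≠ i := fun i => by
      have : i ∈ π.support := by rw [hu]; exact Finset.mem_univ i
      exact Perm.mem_support.1 this
    exact hc.sameCycle (hm i) (hm j)

open Classical in
theorem cyc_count (K : ℕ) (hK : 1 ≤ K) :
    (∑ π : Perm (Fin K), if ∀ i j, π.SameCycle i j then (1 : ℝ) else 0) / (K.factorial : ℝ) =
      1 / K := by
  rcases Nat.lt_or_ge 1 K with h | h
  · have h2 : 2 ≤ K := h
    have e1 : (∑ π : Perm (Fin K), if ∀ i j, π.SameCycle i j then (1 : ℝ) else 0) =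
        ((Finset.univ.filter fun π : Perm (Fin K) => π.cycleType = {K}).card : ℝ) := by
      rw [Finset.card_filter]
      push_cast
      refine Finset.sum_congr rfl fun π _ => ?_
      by_cases hc : π.cycleType = {K}
      · rw [if_pos hc, if_pos ((cyc_iff K h2 π).2 hc)]
      · rw [if_neg hc, if_neg (fun h' => hc ((cyc_iff K h2 π).1 h'))]
    have e2 := Perm.card_of_cycleType_singleton (α := Fin K) h2 (by rw [Fintype.card_fin])
    rw [e1, e2, Fintype.card_fin, Nat.choose_self, mul_one]
    have e3 : K.factorial = K * (K - 1).factorial := by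
      rw [← Nat.mul_factorial_pred (by omega)]
    rw [e3]
    push_cast
    have h4 : ((K - 1).factorial : ℝ) ≠ 0 := by exact_mod_cast Nat.factorial_ne_zero _
    have h5 : (K : ℝ) ≠ 0 := by exact_mod_cast (by omega : K ≠ 0)
    field_simp
  · have hK1 : K = 1 := by omega
    subst hK1
    have : ∀ π : Perm (Fin 1), ∀ i j, π.SameCycle i j := by
      intro π i j
      have : i = j := Subsingleton.elim _ _
      rw [this]
    rw [Finset.sum_congr rfl fun π _ => if_pos (this π)]
    simp

end Pool.Agent.R517.PDS
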