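import Pool.Agent.Y998.ST.Torus
import Pool.Agent.Y998.LP.Defs
import Pool.Agent.Y998.LP.Master
import Pool.Agent.TH268.PD.Unif

/-!
# Project PDS: cycles of nearest neighbour stirring are homogeneous below the diffusive time scale

Definitions and the statements of the pieces.  Proofs are in `NOTES.md`.
-/

set_option autoImplicit false

namespace Pool.Agent.R517.PDS

open Finset Equiv
open Pool.Agent.Y998.ST (stirLaw stirExp hop nnRate lam)
open Pool.Agent.Y998.LP (NN bfrac tdist)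
open Pool.Agent.TH268.PD (Cyc cyOf frac top pdm)

open Classical in
/-- the form `∑_γ |∑_{x ∈ S ∩ γ} u x|²`, the sum over the cycles `γ` of `g` -/
noncomputable def DS {V : Type} [Fintype V] [DecidableEq V] (g : Perm V) (S : Finset V)
    (u : V → ℂ) : ℝ :=
  ∑ x ∈ S, ∑ y ∈ S, if g.SameCycle x y then (u x * (starRingEnd ℂ) (u y)).re else 0

open Classical in
/-- the same for real functions -/
noncomputable def DR {V : Type} [Fintype V] [DecidableEq V] (g : Perm V) (S : Finset V)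
    (u : V → ℝ) : ℝ :=
  ∑ x ∈ S, ∑ y ∈ S, if g.SameCycle x y then u x * u y else 0

/-- the characters of the torus -/
noncomputable def ch {d L : ℕ} [NeZero L] (k x : Fin d → ZMod L) : ℂ :=
  (ZMod.stdAddChar (∑ i, k i * x i) : ℂ)

/-- the eigenvalues of the walk -/
noncomputable def ev {d L : ℕ} [NeZero L] (t : ℝ) (k : Fin d → ZMod L) : ℝ :=
  Real.exp (-(t * ∑ i, lam (k i)))

/-- the mean of a character over a set -/
noncomputable def bh {d L : ℕ} [NeZero L] (B : Finset (Fin d → ZMod L)) (k : Fin d → ZMod L) : ℂ :=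
  (∑ b ∈ B, ch k b) / B.card

/-- boxes -/
def box (d L R : ℕ) [NeZero L] : Finset (Fin d → ZMod L) :=
  Finset.univ.filter fun x => ∀ i, (x i).val < R

/-- the frequencies with all coordinates at most `M` in absolute value -/
def win (d L M : ℕ) [NeZero L] : Finset (Fin d → ZMod L) :=
  Finset.univ.filter fun k => ∀ i, (k i).valMinAbs.natAbs ≤ M

/-- the mean of `f` one step along the cycle -/
noncomputable def mu {V : Type} [Fintype V] [DecidableEq V] (J : V → V → ℝ) (t : ℝ) (f : V → ℝ)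
    (x : V) : ℝ := ∑ z, hop J t x z * f z

/-- PDS-NEG: negative correlation (inequality of Liggett for two particles) -/
def S_NEG : Prop := ∀ (V : Type) [Fintype V] [DecidableEq V] (J : V → V → ℝ),
  (∀ x y, 0 ≤ J x y) → (∀ x y, J x y = J y x) → (∀ x, J x x = 0) → ∀ t : ℝ, 0 ≤ t →
  ∀ (f : V → ℝ) (x y : V), x ≠ y →
    stirExp J t (fun g => f (g x) * f (g y)) ≤ mu J t f x * mu J t f y

/-- PDS-KE: in a set with nearly exchangeable points, the destinations of the points and the cycles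
of the points are nearly uncorrelated (second order in the distance to exchangeability) -/
def S_KE : Prop := ∀ (V : Type) [Fintype V] [DecidableEq V] (J : V → V → ℝ),
  (∀ x y, 0 ≤ J x y) → (∀ x y, J x y = J y x) → (∀ x, J x x = 0) → ∀ t : ℝ, 0 ≤ t →
  ∀ f : V → ℝ, (∀ x, |f x| ≤ 1) → ∀ p : ℝ, |p| ≤ 1 → ∀ (B : Finset V) (η lm q β : ℝ),
  0 ≤ η → 0 ≤ lm → 0 ≤ q → 0 ≤ β →
  (∀ x ∈ B, ∀ y ∈ B, NN J (t / 2) (swap x y) ≤ η) → (∀ x ∈ B, ∀ y ∈ B, |f x - f y| ≤ lm) →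
  (∀ x ∈ B, ∀ y ∈ B, hop J t x y ≤ q) → (∀ x ∈ B, |mu J t f x - p| ≤ β) →
    stirExp J t (fun g => DR g B fun x => f (g x) - p) ≤
      4 * B.card + (B.card : ℝ) ^ 2 * (β ^ 2 / 2 + η ^ 2 / 2 + 4 * lm * q)

/-- PDS-EIG: the characters are eigenfunctions of the walk -/
def S_EIG : Prop := ∀ (d L : ℕ) [NeZero L], 3 ≤ L → ∀ (t : ℝ) (k x : Fin d → ZMod L),
  ∑ y, (hop (nnRate d L) t x y : ℂ) * ch k y = (ev t k : ℂ) * ch k x

/-- PDS-PAR: Parseval -/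
def S_PAR : Prop := ∀ (d L : ℕ) [NeZero L] (g : Perm (Fin d → ZMod L))
  (B : Finset (Fin d → ZMod L)), 0 < B.card → ∀ u : (Fin d → ZMod L) → ℂ,
  ∑ k : Fin d → ZMod L, ‖bh B k‖ ^ 2 * DS g Finset.univ (fun x => ch k x * u x) =
    (L : ℝ) ^ d / (B.card : ℝ) ^ 2 * ∑ v : Fin d → ZMod L, DS g (B.image fun b => v + b) u

/-- PDS-PAIR: the commutator with the indicator of a cycle; `w` stands for the product `v * h` -/
def S_PAIR : Prop := ∀ (V : Type) [Fintype V] [DecidableEq V] (g : Perm V) (v h w : V → ℂ)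
  (α β : ℝ), (α - β) ^ 2 * DS g Finset.univ w ≤
    2 * DS g Finset.univ (fun x => v x * h (g x) - α * w x) +
    2 * DS g Finset.univ (fun y => h y * v (g⁻¹ y) - β * w y)

/-- PDS-LOW: lower bound for the differences of the eigenvalues -/
def S_LOW : Prop := ∀ d : ℕ, 1 ≤ d → ∀ A : ℝ, 0 < A → ∃ c : ℝ, 0 < c ∧ ∀ (L M : ℕ) [NeZero L]
  (t : ℝ), 0 < t → 1 ≤ M → 12 * M ≤ L → M * Real.sqrt t ≤ A * L →
  ∀ θ : Fin d → ZMod L, θ ≠ 0 → θ ∈ win d L M →
    c * (t * M / (L : ℝ) ^ 2) ^ 2 * ((win d L (3 * M)).card : ℝ) ≤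
      ∑ k ∈ win d L (3 * M), ∑ k' ∈ win d L (3 * M),
        if k + k' = θ then (ev t k - ev t k') ^ 2 else 0

/-- PDS-DIR: the Dirichlet kernel -/
def S_DIR : Prop := ∀ (d L R : ℕ) [NeZero L], 1 ≤ R → R ≤ L → ∀ (k : Fin d → ZMod L) (i : Fin d),
  k i ≠ 0 → ‖bh (box d L R) k‖ ≤ L / (2 * R * |((k i).valMinAbs : ℝ)|)

/-- PDS-NEAR: low frequencies -/
def S_NEAR : Prop := ∀ (d L R : ℕ) [NeZero L], 1 ≤ R → R ≤ L → ∀ k : Fin d → ZMod L,
  (box d L R).card = R ^ d ∧ ∀ b ∈ box d L R,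
  ‖ch k b - 1‖ ≤ ∑ i, 2 * Real.pi * |((k i).valMinAbs : ℝ)| * R / L

/-- PDS-TRANS: if the cycles have nearly the same density in the set `B` with nearly exchangeable
points and in the whole space, then the cycle lengths have nearly the Poisson-Dirichlet law -/
def S_TRANS : Prop := ∀ (m : ℕ) (f : (Fin m → ℝ) → ℝ), Continuous f → ∀ C : ℝ,
  (∀ u, |f u| ≤ C) → ∀ ε : ℝ, 0 < ε → ∃ δ : ℝ, 0 < δ ∧ ∃ N₀ : ℕ, 0 < N₀ ∧ ∃ κ : ℝ, 0 < κ ∧
  ∀ (V : Type) [Fintype V] [DecidableEq V] (J : V → V → ℝ), (∀ x y, 0 ≤ J x y) → ∀ t : ℝ,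
  0 ≤ t → ∀ B : Finset V, N₀ ≤ B.card → (∀ x ∈ B, ∀ y ∈ B, NN J t (swap x y) ≤ δ) →
  stirExp J t (fun g => DR g Finset.univ fun x =>
    (if x ∈ B then 1 / (B.card : ℝ) else 0) - 1 / (Fintype.card V : ℝ)) ≤ κ →
  |stirExp J t (fun g => f (fun i => top (frac g) i)) - pdm f| ≤ ε

/-- PDS-WIN: the window inequality -/
def S_WIN : Prop := ∀ (d L : ℕ) [NeZero L], 3 ≤ L → ∀ t : ℝ, 0 ≤ t →
  ∀ (B : Finset (Fin d → ZMod L)) (η lm q : ℝ), 0 ≤ η → 0 ≤ lm → 0 ≤ q → 0 < B.card →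
  (∀ v, ∀ x ∈ B, ∀ y ∈ B, NN (nnRate d L) (t / 2) (swap (v + x) (v + y)) ≤ η) →
  (∀ x y, hop (nnRate d L) t x y ≤ q) → lm ≤ 1 / 8 →
  ∀ X : Finset (Fin d → ZMod L), (∀ k ∈ X, ∀ b ∈ B, ‖ch k b - 1‖ ≤ lm) →
  ∑ k ∈ X, ∑ k' ∈ X, (ev t k - ev t k') ^ 2 *
    stirExp (nnRate d L) t (fun g => DS g Finset.univ (ch (k + k'))) ≤
    16 * X.card * ((L : ℝ) ^ d) ^ 2 * (8 / B.card + 3 * lm ^ 2 + η ^ 2 + 16 * lm * q)

end Pool.Agent.R517.PDS
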