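import Pool.Agent.R517.PDS.Fin1
import Pool.Agent.R517.PDS.Win
import Pool.Agent.Y998.LP.Law2

/-!
# The two-point function below the diffusive time scale
-/

set_option autoImplicit false

namespace Pool.Agent.R517.PDS

open Finset Equiv
open Pool.Agent.Y998.ST (stirLaw stirExp hop nnRate lam exp_const exp_nonneg nn_nonneg nn_symm
  nn_diag law_nonneg qq_torus)
open Pool.Agent.Y998.CN (law_sum law_conj same_conj nn_trans)
open Pool.Agent.Y998.LP (NN bfrac tdist NN_nonneg law_inv)
open Pool.Agent.Results.MP_b817cf_pr.LocalPoissonDirichlet (two_points)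

section gen

variable {V : Type} [Fintype V] [DecidableEq V]

theorem PP_symm (J : V → V → ℝ) (t : ℝ) (x y : V) : PP J t x y = PP J t y x := by
  unfold PP
  congr 1
  funext g
  congr 1
  exact propext ⟨fun h => h.symm, fun h => h.symm⟩

theorem PP_mem {J : V → V → ℝ} (hJ : ∀ x y, 0 ≤ J x y) {t : ℝ} (ht : 0 ≤ t) (x y : V) :
    0 ≤ PP J t x y ∧ PP J t x y ≤ 1 := by
  classical
  have hs := law_sum J t
  unfold PP stirExp
  constructor
  · refine Finset.sum_nonneg fun g _ => mul_nonneg (law_nonneg hJ ht g) ?_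
    dsimp only
    split_ifs <;> norm_num
  · refine le_trans (Finset.sum_le_sum fun g _ => ?_) hs.le
    have := law_nonneg hJ ht g
    dsimp only
    split_ifs
    · rw [mul_one]
    · rw [mul_zero]
      exact this

/-- the norm of the right translate -/
theorem NN_right (J : V → V → ℝ) (t : ℝ) (x y : V) :
    ∑ g, |stirLaw J t (g * swap x y) - stirLaw J t g| = NN J t (swap x y) := by
  unfold NN
  rw [← Equiv.sum_comp (Equiv.inv (Perm V))]
  refine Finset.sum_congr rfl fun g _ => ?_
  have e1 : (Equiv.inv (Perm V)) g = g⁻¹ := rfl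
  rw [e1, law_inv J t g, ← law_inv J t (g⁻¹ * swap x y), mul_inv_rev, inv_inv]

/-- moving one point -/
theorem PP_move (J : V → V → ℝ) (t : ℝ) (x x' y : V) (hx : x ≠ y) (hx' : x' ≠ y) :
    |PP J t x y - PP J t x' y| ≤ 2 * NN J t (swap x x') := by
  classical
  obtain ⟨s, hs⟩ : ∃ s : Perm V, s = swap x x' := ⟨_, rfl⟩
  have hss : s⁻¹ = s := by rw [hs, swap_inv]
  have e1 : PP J t x' y = ∑ g, stirLaw J t (s * g * s⁻¹) * (if g.SameCycle x y then 1 else 0) := by
    unfold PP stirExp
    rw [← Equiv.sum_comp (MulAut.conj s).toEquiv]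
    refine Finset.sum_congr rfl fun g _ => ?_
    have e2 : (MulAut.conj s).toEquiv g = s * g * s⁻¹ := rfl
    have e3 : x' = s x := by rw [hs, swap_apply_left]
    have e4 : y = s y := by rw [hs, swap_apply_of_ne_of_ne hx.symm hx'.symm]
    have e5 : (s * g * s⁻¹).SameCycle x' y ↔ g.SameCycle x y := by
      conv_lhs => rw [e3, e4]
      exact same_conj s g x y
    rw [e2]
    simp only [e5]
  have e6 : PP J t x y - PP J t x' y =
      ∑ g, (stirLaw J t g - stirLaw J t (s * g * s⁻¹)) * (if g.SameCycle x y then 1 else 0) := by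
    rw [e1]
    unfold PP stirExp
    rw [← Finset.sum_sub_distrib]
    exact Finset.sum_congr rfl fun g _ => by ring
  rw [e6]
  refine (Finset.abs_sum_le_sum_abs _ _).trans ?_
  have h1 : ∀ g : Perm V,
      |(stirLaw J t g - stirLaw J t (s * g * s⁻¹)) * (if g.SameCycle x y then (1 : ℝ) else 0)| ≤
      |stirLaw J t (s⁻¹ * (g * s)) - stirLaw J t (g * s)| + |stirLaw J t (g * s) - stirLaw J t g| := by
    intro g
    have h2 : |(if g.SameCycle x y then (1 : ℝ) else 0)| ≤ 1 := by split_ifs <;> norm_num
    rw [abs_mul]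
    refine (mul_le_of_le_one_right (abs_nonneg _) h2).trans ?_
    have e7 : s⁻¹ * (g * s) = s * g * s⁻¹ := by rw [hss, mul_assoc]
    rw [e7, abs_sub_comm]
    have h3 := abs_add_le (stirLaw J t (s * g * s⁻¹) - stirLaw J t (g * s))
      (stirLaw J t (g * s) - stirLaw J t g)
    rwa [sub_add_sub_cancel] at h3
  refine (Finset.sum_le_sum fun g _ => h1 g).trans ?_
  rw [Finset.sum_add_distrib, hs, NN_right]
  have e8 : ∑ g, |stirLaw J t ((swap x x')⁻¹ * (g * swap x x')) - stirLaw J t (g * swap x x')| =
      NN J t (swap x x') := by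
    unfold NN
    exact Equiv.sum_comp (Equiv.mulRight (swap x x')) fun g =>
      |stirLaw J t ((swap x x')⁻¹ * g) - stirLaw J t g|
  rw [e8]
  linarith

/-- Cauchy-Schwarz for the cycle form -/
theorem DR_cross (g : Perm V) (u w : V → ℝ) :
    |∑ x, ∑ y, (if g.SameCycle x y then u x * w y else 0)| ≤
      (DR g Finset.univ u + DR g Finset.univ w) / 2 := by
  classical
  have h1 := Win.DR_nonneg g Finset.univ (fun x => u x + w x)
  have h2 := Win.DR_nonneg g Finset.univ (fun x => u x - w x)
  obtain ⟨X, hX⟩ : ∃ X : ℝ, X = ∑ x, ∑ y, (if g.SameCycle x y then u x * w y else 0) := ⟨_, rfl⟩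
  have hX' : X = ∑ x, ∑ y, (if g.SameCycle x y then w x * u y else 0) := by
    rw [hX, Finset.sum_comm]
    refine Finset.sum_congr rfl fun x _ => Finset.sum_congr rfl fun y _ => ?_
    have : g.SameCycle y x ↔ g.SameCycle x y := ⟨fun h => h.symm, fun h => h.symm⟩
    simp only [this, mul_comm]
  have e1 : DR g Finset.univ (fun x => u x + w x) =
      DR g Finset.univ u + DR g Finset.univ w + 2 * X := by
    have : 2 * X = X + X := by ring
    rw [this]
    nth_rewrite 1 [hX]
    rw [hX']
    unfold DR
    simp only [← Finset.sum_add_distrib]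
    refine Finset.sum_congr rfl fun x _ => Finset.sum_congr rfl fun y _ => ?_
    split_ifs
    · ring
    · ring
  have e2 : DR g Finset.univ (fun x => u x - w x) =
      DR g Finset.univ u + DR g Finset.univ w - 2 * X := by
    have : 2 * X = X + X := by ring
    rw [this]
    nth_rewrite 1 [hX]
    rw [hX']
    unfold DR
    simp only [← Finset.sum_add_distrib, ← Finset.sum_sub_distrib]
    refine Finset.sum_congr rfl fun x _ => Finset.sum_congr rfl fun y _ => ?_
    split_ifs
    · ring
    · ring
  rw [← hX, abs_le]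
  constructor
  · linarith
  · linarith

end gen

end Pool.Agent.R517.PDS
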