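import Pool.Agent.R517.PDS.Fin2
import Pool.Agent.R517.PDS.Cyc

/-!
# The probability that several points are in one cycle
-/

set_option autoImplicit false

namespace Pool.Agent.R517.PDS

open Finset Equiv
open Pool.Agent.Y998.ST (stirLaw stirExp hop nnRate lam exp_const exp_nonneg nn_nonneg nn_symm
  nn_diag law_nonneg qq_torus)
open Pool.Agent.Y998.CN (law_sum law_conj same_conj nn_trans)
open Pool.Agent.Y998.LP (NN bfrac tdist NN_nonneg NN_one law_inv)

section gen

variable {V : Type} [Fintype V] [DecidableEq V]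

open Classical in
/-- indicator that the points `y i` are in the cycle of `x` -/
noncomputable def II {n : ℕ} (g : Perm V) (x : V) (y : Fin n → V) : ℝ :=
  ∏ i, if g.SameCycle x (y i) then (1 : ℝ) else 0

/-- probability that the points `y i` are in the cycle of `x` -/
noncomputable def QQ (J : V → V → ℝ) (t : ℝ) {n : ℕ} (x : V) (y : Fin n → V) : ℝ :=
  stirExp J t (fun g => II g x y)

theorem II_mem {n : ℕ} (g : Perm V) (x : V) (y : Fin n → V) : 0 ≤ II g x y ∧ II g x y ≤ 1 := by
  classical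
  unfold II
  constructor
  · exact Finset.prod_nonneg fun i _ => by split_ifs <;> norm_num
  · exact Finset.prod_le_one (fun i _ => by split_ifs <;> norm_num)
      (fun i _ => by split_ifs <;> norm_num)

theorem stirExp_mono {J : V → V → ℝ} (hJ : ∀ x y, 0 ≤ J x y) {t : ℝ} (ht : 0 ≤ t)
    (F G : Perm V → ℝ) (h : ∀ g, F g ≤ G g) : stirExp J t F ≤ stirExp J t G := by
  unfold stirExp
  exact Finset.sum_le_sum fun g _ => mul_le_mul_of_nonneg_left (h g) (law_nonneg hJ ht g)

theorem QQ_mem {J : V → V → ℝ} (hJ : ∀ x y, 0 ≤ J x y) {t : ℝ} (ht : 0 ≤ t) {n : ℕ} (x : V)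
    (y : Fin n → V) : 0 ≤ QQ J t x y ∧ QQ J t x y ≤ 1 := by
  unfold QQ
  constructor
  · have h := stirExp_mono hJ ht (fun _ => 0) (fun g => II g x y) fun g => (II_mem g x y).1
    rwa [exp_const] at h
  · have h := stirExp_mono hJ ht (fun g => II g x y) (fun _ => 1) fun g => (II_mem g x y).2
    rwa [exp_const] at h

theorem II_conj {n : ℕ} (s g : Perm V) (x : V) (y : Fin n → V) :
    II (s * g * s⁻¹) (s x) (fun i => s (y i)) = II g x y := by
  unfold II
  simp only [same_conj]

/-- applying a transposition to the points -/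
theorem QQ_swap (J : V → V → ℝ) (t : ℝ) {n : ℕ} (u u' x : V) (y : Fin n → V) :
    |QQ J t x y - QQ J t (swap u u' x) (fun i => swap u u' (y i))| ≤ 2 * NN J t (swap u u') := by
  classical
  obtain ⟨s, hs⟩ : ∃ s : Perm V, s = swap u u' := ⟨_, rfl⟩
  have hss : s⁻¹ = s := by rw [hs, swap_inv]
  have e1 : QQ J t (s x) (fun i => s (y i)) = ∑ g, stirLaw J t (s * g * s⁻¹) * II g x y := by
    unfold QQ stirExp
    rw [← Equiv.sum_comp (MulAut.conj s).toEquiv]
    refine Finset.sum_congr rfl fun g _ => ?_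
    have e2 : (MulAut.conj s).toEquiv g = s * g * s⁻¹ := rfl
    rw [e2]
    beta_reduce
    rw [II_conj]
  have e6 : QQ J t x y - QQ J t (s x) (fun i => s (y i)) =
      ∑ g, (stirLaw J t g - stirLaw J t (s * g * s⁻¹)) * II g x y := by
    rw [e1]
    unfold QQ stirExp
    rw [← Finset.sum_sub_distrib]
    exact Finset.sum_congr rfl fun g _ => by ring
  rw [← hs, e6]
  refine (Finset.abs_sum_le_sum_abs _ _).trans ?_
  have h1 : ∀ g : Perm V,
      |(stirLaw J t g - stirLaw J t (s * g * s⁻¹)) * II g x y| ≤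
      |stirLaw J t (s⁻¹ * (g * s)) - stirLaw J t (g * s)| + |stirLaw J t (g * s) - stirLaw J t g| := by
    intro g
    have h2 : |II g x y| ≤ 1 := abs_le.2 ⟨by linarith [(II_mem g x y).1], (II_mem g x y).2⟩
    rw [abs_mul]
    refine (mul_le_of_le_one_right (abs_nonneg _) h2).trans ?_
    have e7 : s⁻¹ * (g * s) = s * g * s⁻¹ := by rw [hss, mul_assoc]
    rw [e7, abs_sub_comm]
    have h3 := abs_add_le (stirLaw J t (s * g * s⁻¹) - stirLaw J t (g * s))
      (stirLaw J t (g * s) - stirLaw J t g)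
    rwa [sub_add_sub_cancel] at h3
  refine (Finset.sum_le_sum fun g _ => h1 g).trans ?_
  rw [Finset.sum_add_distrib, hs, NN_right]
  have e8 : ∑ g, |stirLaw J t ((swap u u')⁻¹ * (g * swap u u')) - stirLaw J t (g * swap u u')| =
      NN J t (swap u u') := by
    unfold NN
    exact Equiv.sum_comp (Equiv.mulRight (swap u u')) fun g =>
      |stirLaw J t ((swap u u')⁻¹ * g) - stirLaw J t g|
  rw [e8]
  linarith

/-- moving all the points `y i` -/
theorem QQ_chain (J : V → V → ℝ) (t : ℝ) {n : ℕ} (x : V) (y y' : Fin n → V) (η : ℝ)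
    (h0 : ∀ i, y i ≠ x) (h0' : ∀ i, y' i ≠ x) (h1 : ∀ i j, i ≠ j → y i ≠ y j)
    (h2 : ∀ i j, i ≠ j → y' i ≠ y' j) (h3 : ∀ i j, i ≠ j → y' i ≠ y j)
    (hη : ∀ i, NN J t (swap (y i) (y' i)) ≤ η) (m : ℕ) (hm : m ≤ n) :
    |QQ J t x y - QQ J t x (fun j : Fin n => if (j : ℕ) < m then y' j else y j)| ≤ m * (2 * η) := by
  induction m with
  | zero => simp
  | succ m ih =>
    have h4 := ih (by omega)
    obtain ⟨k, hk⟩ : ∃ k : Fin n, k = ⟨m, by omega⟩ := ⟨_, rfl⟩
    have hkm : (k : ℕ) = m := by rw [hk]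
    have h5 := QQ_swap J t (y k) (y' k) x (fun j : Fin n => if (j : ℕ) < m then y' j else y j)
    have e1 : swap (y k) (y' k) x = x :=
      swap_apply_of_ne_of_ne (h0 k).symm (h0' k).symm
    have e2 : (fun i : Fin n => swap (y k) (y' k) (if (i : ℕ) < m then y' i else y i)) =
        fun j : Fin n => if (j : ℕ) < m + 1 then y' j else y j := by
      funext j
      rcases lt_trichotomy (j : ℕ) m with h | h | h
      · rw [if_pos h, if_pos (by omega)]
        have hne : j ≠ k := fun h' => by rw [h', hkm] at h; omega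
        exact swap_apply_of_ne_of_ne (h3 j k hne) (h2 j k hne)
      · have hjk : j = k := Fin.ext (by rw [hkm, h])
        rw [if_neg (by omega), if_pos (by omega), hjk, swap_apply_left]
      · rw [if_neg (by omega), if_neg (by omega)]
        have hne : j ≠ k := fun h' => by rw [h', hkm] at h; omega
        exact swap_apply_of_ne_of_ne (h1 j k hne) (h3 k j hne.symm).symm
    rw [e1, e2] at h5
    have h6 := abs_sub_le (QQ J t x y) (QQ J t x (fun j : Fin n => if (j : ℕ) < m then y' j else y j))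
      (QQ J t x (fun j : Fin n => if (j : ℕ) < m + 1 then y' j else y j))
    have h7 := hη k
    push_cast
    linarith

theorem QQ_move (J : V → V → ℝ) (t : ℝ) {n : ℕ} (x : V) (y y' : Fin n → V) (η : ℝ)
    (h0 : ∀ i, y i ≠ x) (h0' : ∀ i, y' i ≠ x) (h1 : ∀ i j, i ≠ j → y i ≠ y j)
    (h2 : ∀ i j, i ≠ j → y' i ≠ y' j) (h3 : ∀ i j, i ≠ j → y' i ≠ y j)
    (hη : ∀ i, NN J t (swap (y i) (y' i)) ≤ η) :
    |QQ J t x y - QQ J t x y'| ≤ n * (2 * η) := by
  have h := QQ_chain J t x y y' η h0 h0' h1 h2 h3 hη n le_rfl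
  have e : (fun j : Fin n => if (j : ℕ) < n then y' j else y j) = y' := by
    funext j
    rw [if_pos j.2]
  rwa [e] at h

open Classical in
/-- the fraction of `S` in the cycle of `x` -/
noncomputable def dens (g : Perm V) (S : Finset V) (x : V) : ℝ :=
  (∑ y ∈ S, if g.SameCycle x y then (1 : ℝ) else 0) / S.card

theorem dens_mem (g : Perm V) (S : Finset V) (x : V) : 0 ≤ dens g S x ∧ dens g S x ≤ 1 := by
  classical
  unfold dens
  constructor
  · exact div_nonneg (Finset.sum_nonneg fun y _ => by split_ifs <;> norm_num) (by positivity)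
  · refine div_le_one_of_le₀ ?_ (by positivity)
    refine (Finset.sum_le_sum (g := fun _ => (1 : ℝ)) fun y _ => by split_ifs <;> norm_num).trans ?_
    simp

theorem dens_dev (g : Perm V) (S : Finset V) (hS : 0 < S.card) (x : V) :
    (dens g S x - dens g Finset.univ x) ^ 2 ≤ DR g Finset.univ fun y =>
      (if y ∈ S then 1 / (S.card : ℝ) else 0) - 1 / (Fintype.card V : ℝ) := by
  classical
  obtain ⟨c, hc⟩ := Win.exists_rep g
  rw [Win.DR_eq g c hc]
  obtain ⟨U, hU⟩ : ∃ U : V → ℝ, U = fun γ => ∑ y, if c y = γ then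
      (if y ∈ S then 1 / (S.card : ℝ) else 0) - 1 / (Fintype.card V : ℝ) else 0 := ⟨_, rfl⟩
  have e1 : dens g S x - dens g Finset.univ x = U (c x) := by
    have h1 : dens g S x = ∑ y, if c y = c x then (if y ∈ S then 1 / (S.card : ℝ) else 0) else 0 := by
      unfold dens
      rw [Finset.sum_div, ← Finset.sum_subset (Finset.subset_univ S)]
      · refine Finset.sum_congr rfl fun y hy => ?_
        by_cases h : g.SameCycle x y
        · rw [if_pos h, if_pos ((hc x y).1 h).symm, if_pos hy]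
        · rw [if_neg h, if_neg (fun h' => h ((hc x y).2 h'.symm)), zero_div]
      · intro y _ hy
        rw [if_neg hy, ite_self]
    have h2 : dens g Finset.univ x = ∑ y, if c y = c x then 1 / (Fintype.card V : ℝ) else 0 := by
      unfold dens
      rw [Finset.sum_div, Finset.card_univ]
      refine Finset.sum_congr rfl fun y _ => ?_
      by_cases h : g.SameCycle x y
      · rw [if_pos h, if_pos ((hc x y).1 h).symm]
      · rw [if_neg h, if_neg (fun h' => h ((hc x y).2 h'.symm)), zero_div]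
    rw [h1, h2, hU, ← Finset.sum_sub_distrib]
    refine Finset.sum_congr rfl fun y _ => ?_
    split_ifs <;> ring
  have e2 : ∀ γ, (∑ y, if c y = γ then
      (if y ∈ S then 1 / (S.card : ℝ) else 0) - 1 / (Fintype.card V : ℝ) else 0) ^ 2 = U γ ^ 2 := by
    intro γ
    rw [hU]
  rw [e1, Finset.sum_congr rfl fun γ _ => e2 γ]
  exact Finset.single_le_sum (f := fun γ => U γ ^ 2) (fun γ _ => sq_nonneg _) (Finset.mem_univ (c x))

theorem prod_dev {n : ℕ} (a : Fin n → ℝ) (p : ℝ) (ha : ∀ i, 0 ≤ a i ∧ a i ≤ 1)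
    (hp : 0 ≤ p ∧ p ≤ 1) : |∏ i, a i - p ^ n| ≤ ∑ i, |a i - p| := by
  induction n with
  | zero => simp
  | succ n ih =>
    rw [Fin.prod_univ_succ, Fin.sum_univ_succ, pow_succ']
    have h1 := ih (fun i => a i.succ) (fun i => ha i.succ)
    have h2 : 0 ≤ ∏ i : Fin n, a i.succ := Finset.prod_nonneg fun i _ => (ha i.succ).1
    have h3 : ∏ i : Fin n, a i.succ ≤ 1 := Finset.prod_le_one (fun i _ => (ha i.succ).1)
      fun i _ => (ha i.succ).2
    have e1 : a 0 * ∏ i : Fin n, a i.succ - p * p ^ n =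
        (a 0 - p) * ∏ i : Fin n, a i.succ + p * (∏ i : Fin n, a i.succ - p ^ n) := by ring
    rw [e1]
    refine (abs_add_le _ _).trans ?_
    rw [abs_mul, abs_mul, abs_of_nonneg h2, abs_of_nonneg hp.1]
    have h4 : |a 0 - p| * ∏ i : Fin n, a i.succ ≤ |a 0 - p| :=
      mul_le_of_le_one_right (abs_nonneg _) h3
    have h5 : p * |∏ i : Fin n, a i.succ - p ^ n| ≤ |∏ i : Fin n, a i.succ - p ^ n| :=
      mul_le_of_le_one_left (abs_nonneg _) hp.2
    linarith

end gen

end Pool.Agent.R517.PDS
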