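import Pool.Agent.R517.PDS.Fin3

/-!
# The probability that several points are in one cycle: the torus
-/

set_option autoImplicit false

namespace Pool.Agent.R517.PDS

open Finset Equiv
open Pool.Agent.Y998.ST (stirLaw stirExp hop nnRate lam exp_const exp_nonneg nn_nonneg nn_symm
  nn_diag law_nonneg qq_torus)
open Pool.Agent.Y998.CN (law_sum law_conj same_conj nn_trans)
open Pool.Agent.Y998.LP (NN bfrac tdist NN_nonneg NN_one law_inv)
open Pool.Agent.TH268.PD (ret ret_spec)

set_option linter.unusedSectionVars false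

section gen

variable {V : Type} [Fintype V] [DecidableEq V]

theorem dens_conj (σ g : Perm V) (x : V) :
    dens (σ * g * σ⁻¹) Finset.univ (σ x) = dens g Finset.univ x := by
  classical
  unfold dens
  congr 1
  rw [← Equiv.sum_comp σ]
  simp only [same_conj]

theorem mm_conj {J : V → V → ℝ} (σ : Perm V) (hJ : ∀ x y, J (σ x) (σ y) = J x y) (t : ℝ) (n : ℕ)
    (x : V) : stirExp J t (fun g => dens g Finset.univ (σ x) ^ n) =
      stirExp J t (fun g => dens g Finset.univ x ^ n) := by
  unfold stirExp
  rw [← Equiv.sum_comp (MulAut.conj σ).toEquiv]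
  refine Finset.sum_congr rfl fun g _ => ?_
  have e1 : (MulAut.conj σ).toEquiv g = σ * g * σ⁻¹ := rfl
  rw [e1, law_conj σ hJ]
  beta_reduce
  rw [dens_conj]

/-- one coordinate is determined by the others -/
theorem fib {n : ℕ} (B : Finset V) (i : Fin n) (E : (Fin n → V) → Prop) [DecidablePred E]
    (hE : ∀ z z', E z → E z' → (∀ j, j ≠ i → z j = z' j) → z i = z' i) :
    ((Fintype.piFinset fun _ : Fin n => B).filter E).card * B.card ≤ B.card ^ n := by
  have h : (Fintype.piFinset fun _ : Fin n => B).card = B.card ^ n := by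
    simp [Fintype.card_piFinset]
  rw [← Finset.card_product, ← h]
  refine Finset.card_le_card_of_injOn (fun q => Function.update q.1 i q.2) ?_ ?_
  · rintro ⟨z, w⟩ hq
    rw [Finset.mem_coe, Finset.mem_product, Finset.mem_filter, Fintype.mem_piFinset] at hq
    rw [Finset.mem_coe, Fintype.mem_piFinset]
    intro j
    dsimp only
    by_cases hj : j = i
    · rw [hj, Function.update_self]
      exact hq.2
    · rw [Function.update_of_ne hj]
      exact hq.1.1 j
  · rintro ⟨z, w⟩ hq ⟨z', w'⟩ hq' heq
    rw [Finset.mem_coe, Finset.mem_product, Finset.mem_filter, Fintype.mem_piFinset] at hq hq'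
    dsimp only at heq
    have hw : w = w' := by
      have := congrFun heq i
      rwa [Function.update_self, Function.update_self] at this
    have ho : ∀ j, j ≠ i → z j = z' j := by
      intro j hj
      have := congrFun heq j
      rwa [Function.update_of_ne hj, Function.update_of_ne hj] at this
    have hi := hE z z' hq.1.2 hq'.1.2 ho
    have hz : z = z' := by
      funext j
      by_cases hj : j = i
      · rw [hj, hi]
      · exact ho j hj
    rw [hz, hw]

theorem fib' {n : ℕ} (B : Finset V) (hB : 0 < B.card) (i : Fin n) (E : (Fin n → V) → Prop)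
    [DecidablePred E] (hE : ∀ z z', E z → E z' → (∀ j, j ≠ i → z j = z' j) → z i = z' i) :
    ∑ z ∈ Fintype.piFinset fun _ : Fin n => B, (if E z then (1 : ℝ) else 0) ≤
      (B.card : ℝ) ^ n * (1 / B.card) := by
  have hb : (0 : ℝ) < B.card := by exact_mod_cast hB
  rw [Finset.sum_boole, mul_one_div, le_div_iff₀ hb]
  exact_mod_cast fib B i E hE

/-- mean of a function of the induced permutation: all the points in one cycle -/
theorem one_cycle (J : V → V → ℝ) (t : ℝ) {K : ℕ} (hK : 1 ≤ K) (b : Fin K → V)
    (hb : Function.Injective b) (η : ℝ) (hη : 0 ≤ η) (h : ∀ i j, NN J t (swap (b i) (b j)) ≤ η) :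
    |(∑ g, stirLaw J t g * (open Classical in if ∀ i j, g.SameCycle (b i) (b j) then (1 : ℝ) else 0)) -
      1 / K| ≤ K * η := by
  classical
  have h1 := Pool.Agent.Y998.LQ.ind_mean J t b hb η hη h
    (fun π => if ∀ i j, π.SameCycle i j then 1 else 0) 1 zero_le_one (by
      intro π
      split_ifs <;> norm_num)
  have h2 := cyc_count K hK
  have h3 : ∀ g : Perm V, (∀ i j, (ret K b g).SameCycle i j) ↔ ∀ i j, g.SameCycle (b i) (b j) := by
    intro g
    have := (ret_spec K b hb).2.2.2 g
    simp only [this]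
  simp only [h3, one_mul] at h1
  rw [h2] at h1
  exact h1

theorem II_eq {n : ℕ} (g : Perm V) (b : Fin (n + 1) → V) :
    II g (b 0) (fun i => b i.succ) =
      (open Classical in if ∀ i j, g.SameCycle (b i) (b j) then (1 : ℝ) else 0) := by
  classical
  unfold II
  rw [Finset.prod_ite_zero, Finset.prod_const_one]
  by_cases h : ∀ i j, g.SameCycle (b i) (b j)
  · rw [if_pos h, if_pos (fun (i : Fin n) _ => h 0 i.succ)]
  · rw [if_neg h, if_neg]
    intro h'
    refine h ?_
    have h0 : ∀ i, g.SameCycle (b 0) (b i) := by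
      intro i
      refine Fin.cases ?_ (fun j => ?_) i
      · exact Perm.SameCycle.refl _ _
      · exact h' j (Finset.mem_univ j)
    exact fun i j => (h0 i).symm.trans (h0 j)

end gen

section torus

variable {d L : ℕ} [NeZero L]

theorem mm_trans (t : ℝ) (n : ℕ) (x : Fin d → ZMod L) :
    stirExp (nnRate d L) t (fun g => dens g Finset.univ x ^ n) =
      stirExp (nnRate d L) t (fun g => dens g Finset.univ (0 : Fin d → ZMod L) ^ n) := by
  have h := mm_conj (J := nnRate d L) (Equiv.addLeft x) (fun a b => by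
    simp only [Equiv.coe_addLeft]
    rw [add_comm x a, add_comm x b]
    exact nn_trans a b x) t n 0
  simpa using h

theorem hom_shift (t : ℝ) (B : Finset (Fin d → ZMod L)) (hB : 0 < B.card) (v : Fin d → ZMod L) :
    stirExp (nnRate d L) t (fun g => DR g Finset.univ fun x =>
      (if x ∈ B.image (fun b => v + b) then 1 / ((B.image (fun b => v + b)).card : ℝ) else 0) -
        1 / (Fintype.card (Fin d → ZMod L) : ℝ)) =
    stirExp (nnRate d L) t (fun g => DR g Finset.univ fun x =>
      (if x ∈ B then 1 / (B.card : ℝ) else 0) - 1 / (Fintype.card (Fin d → ZMod L) : ℝ)) := by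
  have hinj : Function.Injective (fun b : Fin d → ZMod L => v + b) := fun a b h => add_left_cancel h
  have hc : (B.image (fun b => v + b)).card = B.card := Finset.card_image_of_injective B hinj
  rw [hom_eq t B hB, hom_eq t _ (by rw [hc]; exact hB), hc]
  congr 2
  rw [Finset.sum_image (fun a _ b _ h => hinj h)]
  refine Finset.sum_congr rfl fun x _ => ?_
  rw [Finset.sum_image (fun a _ b _ h => hinj h)]
  exact Finset.sum_congr rfl fun y _ => PP_trans t v x y

open Classical in
theorem dens_image (g : Perm (Fin d → ZMod L)) (B : Finset (Fin d → ZMod L))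
    (v x : Fin d → ZMod L) : dens g (B.image (fun b => v + b)) x =
      ∑ z ∈ B, (if g.SameCycle x (v + z) then (1 : ℝ) else 0) / B.card := by
  have hinj : Function.Injective (fun b : Fin d → ZMod L => v + b) := fun a b h => add_left_cancel h
  have hc : (B.image (fun b => v + b)).card = B.card := Finset.card_image_of_injective B hinj
  unfold dens
  rw [hc, Finset.sum_image (fun a _ b _ h => hinj h), Finset.sum_div]

/-- the mean over the shifts -/
theorem II_mean {n : ℕ} (g : Perm (Fin d → ZMod L)) (B : Finset (Fin d → ZMod L))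
    (x : Fin d → ZMod L) (y : Fin n → Fin d → ZMod L) :
    ∏ i, dens g (B.image (fun b => y i + b)) x =
      ∑ z ∈ Fintype.piFinset fun _ : Fin n => B, II g x (fun i => y i + z i) / (B.card : ℝ) ^ n := by
  classical
  simp only [dens_image]
  rw [Finset.prod_univ_sum]
  refine Finset.sum_congr rfl fun z _ => ?_
  unfold II
  rw [Finset.prod_div_distrib]
  simp

theorem QQ_mean (hL : 3 ≤ L) {t : ℝ} (ht : 0 ≤ t) (B : Finset (Fin d → ZMod L)) (hB : 0 < B.card)
    {n : ℕ} (x : Fin d → ZMod L) (y : Fin n → Fin d → ZMod L) (h0 : ∀ i, y i ≠ x)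
    (h1 : ∀ i j, i ≠ j → y i ≠ y j) (η θ : ℝ) (hη0 : 0 ≤ η) (hθ : 0 < θ)
    (hη : ∀ v, ∀ z ∈ B, NN (nnRate d L) t (swap v (v + z)) ≤ η)
    (hh : stirExp (nnRate d L) t (fun g => DR g Finset.univ fun x =>
      (if x ∈ B then 1 / (B.card : ℝ) else 0) - 1 / (Fintype.card (Fin d → ZMod L) : ℝ)) ≤ θ ^ 2) :
    |QQ (nnRate d L) t x y -
      stirExp (nnRate d L) t (fun g => dens g Finset.univ (0 : Fin d → ZMod L) ^ n)| ≤
      n * (2 * η) + (n + 2 * (n : ℝ) ^ 2) / B.card + n * θ := by
  classical
  have hb : (0 : ℝ) < B.card := by exact_mod_cast hB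
  have hbn : (0 : ℝ) < (B.card : ℝ) ^ n := by positivity
  obtain ⟨P, hP⟩ : ∃ P : Finset (Fin n → Fin d → ZMod L), P = Fintype.piFinset fun _ => B :=
    ⟨_, rfl⟩
  have hPc : (P.card : ℝ) = (B.card : ℝ) ^ n := by
    rw [hP]
    simp [Fintype.card_piFinset]
  -- the mean over the shifts
  obtain ⟨Av, hAv⟩ : ∃ Av : ℝ, Av = ∑ z ∈ P, QQ (nnRate d L) t x (fun i => y i + z i) /
    (B.card : ℝ) ^ n := ⟨_, rfl⟩
  have hA : Av = stirExp (nnRate d L) t
      (fun g => ∏ i, dens g (B.image (fun b => y i + b)) x) := by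
    have e1 : (fun g : Perm (Fin d → ZMod L) => ∏ i, dens g (B.image (fun b => y i + b)) x) =
        fun g => ∑ z ∈ P, 1 / (B.card : ℝ) ^ n * II g x (fun i => y i + z i) := by
      funext g
      rw [II_mean, hP]
      exact Finset.sum_congr rfl fun z _ => by ring
    rw [e1, stirExp_sum, hAv]
    refine Finset.sum_congr rfl fun z _ => ?_
    rw [stirExp_smul]
    unfold QQ
    ring
  -- step 1
  have s1 : |QQ (nnRate d L) t x y - Av| ≤ n * (2 * η) + (n + 2 * (n : ℝ) ^ 2) / B.card := by
    have e1 : QQ (nnRate d L) t x y - Av =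
        ∑ z ∈ P, (QQ (nnRate d L) t x y - QQ (nnRate d L) t x (fun i => y i + z i)) /
          (B.card : ℝ) ^ n := by
      rw [← Finset.sum_div, Finset.sum_sub_distrib, Finset.sum_const, nsmul_eq_mul, hPc, hAv,
        ← Finset.sum_div]
      field_simp
    rw [e1]
    refine (Finset.abs_sum_le_sum_abs _ _).trans ?_
    have hpt : ∀ z ∈ P, |(QQ (nnRate d L) t x y - QQ (nnRate d L) t x (fun i => y i + z i)) /
        (B.card : ℝ) ^ n| ≤ (n * (2 * η) + (∑ i, if y i + z i = x then (1 : ℝ) else 0) +
          (∑ i, ∑ j, if i ≠ j ∧ y i + z i = y j + z j then (1 : ℝ) else 0) +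
          (∑ i, ∑ j, if i ≠ j ∧ y i + z i = y j then (1 : ℝ) else 0)) / (B.card : ℝ) ^ n := by
      intro z hz
      rw [abs_div, abs_of_pos hbn]
      refine div_le_div_of_nonneg_right ?_ hbn.le
      have n1 : 0 ≤ ∑ i, if y i + z i = x then (1 : ℝ) else 0 :=
        Finset.sum_nonneg fun i _ => by split_ifs <;> norm_num
      have n2' : ∀ i, 0 ≤ ∑ j, if i ≠ j ∧ y i + z i = y j + z j then (1 : ℝ) else 0 := fun i =>
        Finset.sum_nonneg fun j _ => by split_ifs <;> norm_num
      have n2 : 0 ≤ ∑ i, ∑ j, if i ≠ j ∧ y i + z i = y j + z j then (1 : ℝ) else 0 :=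
        Finset.sum_nonneg fun i _ => n2' i
      have n3' : ∀ i, 0 ≤ ∑ j, if i ≠ j ∧ y i + z i = y j then (1 : ℝ) else 0 := fun i =>
        Finset.sum_nonneg fun j _ => by split_ifs <;> norm_num
      have n3 : 0 ≤ ∑ i, ∑ j, if i ≠ j ∧ y i + z i = y j then (1 : ℝ) else 0 :=
        Finset.sum_nonneg fun i _ => n3' i
      have n0 : 0 ≤ (n : ℝ) * (2 * η) := by positivity
      have q1 := QQ_mem (J := nnRate d L) nn_nonneg ht x y
      have q2 := QQ_mem (J := nnRate d L) nn_nonneg ht x (fun i => y i + z i)
      have hle1 : |QQ (nnRate d L) t x y - QQ (nnRate d L) t x (fun i => y i + z i)| ≤ 1 :=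
        abs_le.2 ⟨by linarith [q1.1, q2.2], by linarith [q1.2, q2.1]⟩
      by_cases c1 : ∃ i, y i + z i = x
      · obtain ⟨i, hi⟩ := c1
        have := Finset.single_le_sum (f := fun i => if y i + z i = x then (1 : ℝ) else 0)
          (fun i _ => by split_ifs <;> norm_num) (Finset.mem_univ i)
        rw [if_pos hi] at this
        linarith
      by_cases c2 : ∃ i j, i ≠ j ∧ y i + z i = y j + z j
      · obtain ⟨i, j, hij⟩ := c2
        have a1 := Finset.single_le_sum
          (f := fun j => if i ≠ j ∧ y i + z i = y j + z j then (1 : ℝ) else 0)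
          (fun i _ => by split_ifs <;> norm_num) (Finset.mem_univ j)
        have a2 := Finset.single_le_sum
          (f := fun i => ∑ j, if i ≠ j ∧ y i + z i = y j + z j then (1 : ℝ) else 0)
          (fun i _ => n2' i) (Finset.mem_univ i)
        rw [if_pos hij] at a1
        linarith
      by_cases c3 : ∃ i j, i ≠ j ∧ y i + z i = y j
      · obtain ⟨i, j, hij⟩ := c3
        have a1 := Finset.single_le_sum
          (f := fun j => if i ≠ j ∧ y i + z i = y j then (1 : ℝ) else 0)
          (fun i _ => by split_ifs <;> norm_num) (Finset.mem_univ j)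
        have a2 := Finset.single_le_sum
          (f := fun i => ∑ j, if i ≠ j ∧ y i + z i = y j then (1 : ℝ) else 0)
          (fun i _ => n3' i) (Finset.mem_univ i)
        rw [if_pos hij] at a1
        linarith
      have hz' : ∀ i, z i ∈ B := by
        rw [hP, Fintype.mem_piFinset] at hz
        exact hz
      have := QQ_move (nnRate d L) t x y (fun i => y i + z i) η h0 (fun i h => c1 ⟨i, h⟩) h1
        (fun i j hij h => c2 ⟨i, j, hij, h⟩) (fun i j hij h => c3 ⟨i, j, hij, h⟩)
        (fun i => hη (y i) (z i) (hz' i))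
      linarith
    refine (Finset.sum_le_sum hpt).trans ?_
    rw [← Finset.sum_div, div_le_iff₀ hbn, Finset.sum_add_distrib, Finset.sum_add_distrib,
      Finset.sum_add_distrib, Finset.sum_const, nsmul_eq_mul, hPc]
    have t1 : ∑ z ∈ P, ∑ i, (if y i + z i = x then (1 : ℝ) else 0) ≤
        n * ((B.card : ℝ) ^ n * (1 / B.card)) := by
      rw [Finset.sum_comm]
      refine (Finset.sum_le_card_nsmul _ _ ((B.card : ℝ) ^ n * (1 / B.card)) fun i _ => ?_).trans
        (le_of_eq ?_)
      · rw [hP]
        refine fib' B hB i (fun z => y i + z i = x) ?_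
        intro z z' hz hz' _
        exact add_left_cancel (hz.trans hz'.symm)
      · rw [Finset.card_univ, Fintype.card_fin, nsmul_eq_mul]
    have t2 : ∑ z ∈ P, ∑ i, ∑ j, (if i ≠ j ∧ y i + z i = y j + z j then (1 : ℝ) else 0) ≤
        n * (n * ((B.card : ℝ) ^ n * (1 / B.card))) := by
      rw [Finset.sum_comm]
      refine (Finset.sum_le_card_nsmul _ _ (n * ((B.card : ℝ) ^ n * (1 / B.card)))
        fun i _ => ?_).trans (le_of_eq ?_)
      · rw [Finset.sum_comm]
        refine (Finset.sum_le_card_nsmul _ _ ((B.card : ℝ) ^ n * (1 / B.card)) fun j _ => ?_).trans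
          (le_of_eq ?_)
        · rw [hP]
          refine fib' B hB i (fun z => i ≠ j ∧ y i + z i = y j + z j) ?_
          intro z z' hz hz' ho
          have h2 := ho j (Ne.symm hz.1)
          have h3 := hz.2
          rw [h2, ← hz'.2] at h3
          exact add_left_cancel h3
        · rw [Finset.card_univ, Fintype.card_fin, nsmul_eq_mul]
      · rw [Finset.card_univ, Fintype.card_fin, nsmul_eq_mul]
    have t3 : ∑ z ∈ P, ∑ i, ∑ j, (if i ≠ j ∧ y i + z i = y j then (1 : ℝ) else 0) ≤
        n * (n * ((B.card : ℝ) ^ n * (1 / B.card))) := by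
      rw [Finset.sum_comm]
      refine (Finset.sum_le_card_nsmul _ _ (n * ((B.card : ℝ) ^ n * (1 / B.card)))
        fun i _ => ?_).trans (le_of_eq ?_)
      · rw [Finset.sum_comm]
        refine (Finset.sum_le_card_nsmul _ _ ((B.card : ℝ) ^ n * (1 / B.card)) fun j _ => ?_).trans
          (le_of_eq ?_)
        · rw [hP]
          refine fib' B hB i (fun z => i ≠ j ∧ y i + z i = y j) ?_
          intro z z' hz hz' _
          exact add_left_cancel (hz.2.trans hz'.2.symm)
        · rw [Finset.card_univ, Fintype.card_fin, nsmul_eq_mul]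
      · rw [Finset.card_univ, Fintype.card_fin, nsmul_eq_mul]
    have e5 : ((n : ℝ) * (2 * η) + (n + 2 * (n : ℝ) ^ 2) / B.card) * (B.card : ℝ) ^ n =
        (B.card : ℝ) ^ n * (n * (2 * η)) + n * ((B.card : ℝ) ^ n * (1 / B.card)) +
        n * (n * ((B.card : ℝ) ^ n * (1 / B.card))) +
        n * (n * ((B.card : ℝ) ^ n * (1 / B.card))) := by
      ring
    rw [e5]
    linarith
  -- step 2
  have s2 : |Av - stirExp (nnRate d L) t (fun g => dens g Finset.univ x ^ n)| ≤ n * θ := by
    have e1 : Av - stirExp (nnRate d L) t (fun g => dens g Finset.univ x ^ n) =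
        ∑ g, stirLaw (nnRate d L) t g * (∏ i, dens g (B.image (fun b => y i + b)) x -
          dens g Finset.univ x ^ n) := by
      rw [hA]
      unfold stirExp
      rw [← Finset.sum_sub_distrib]
      exact Finset.sum_congr rfl fun g _ => by ring
    rw [e1]
    refine (Finset.abs_sum_le_sum_abs _ _).trans ?_
    have hpt : ∀ g : Perm (Fin d → ZMod L), |stirLaw (nnRate d L) t g *
        (∏ i, dens g (B.image (fun b => y i + b)) x - dens g Finset.univ x ^ n)| ≤
        stirLaw (nnRate d L) t g * ∑ i : Fin n, (θ / 2 + 1 / (2 * θ) *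
          DR g Finset.univ fun x => (if x ∈ B.image (fun b => y i + b) then
            1 / ((B.image (fun b => y i + b)).card : ℝ) else 0) -
            1 / (Fintype.card (Fin d → ZMod L) : ℝ)) := by
      intro g
      have hl := law_nonneg (J := nnRate d L) nn_nonneg ht g
      rw [abs_mul, abs_of_nonneg hl]
      refine mul_le_mul_of_nonneg_left ?_ hl
      refine (prod_dev _ _ (fun i => dens_mem _ _ _) (dens_mem _ _ _)).trans ?_
      refine Finset.sum_le_sum fun i _ => ?_
      have hc : (B.image (fun b => y i + b)).card = B.card :=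
        Finset.card_image_of_injective B fun a b h => add_left_cancel h
      have h2 := dens_dev g (B.image (fun b => y i + b)) (by rw [hc]; exact hB) x
      obtain ⟨D, hD⟩ : ∃ D : ℝ, D = DR g Finset.univ fun x =>
        (if x ∈ B.image (fun b => y i + b) then
            1 / ((B.image (fun b => y i + b)).card : ℝ) else 0) -
            1 / (Fintype.card (Fin d → ZMod L) : ℝ) := ⟨_, rfl⟩
      rw [← hD] at h2 ⊢
      obtain ⟨X, hX⟩ : ∃ X : ℝ, X = dens g (B.image (fun b => y i + b)) x - dens g Finset.univ x :=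
        ⟨_, rfl⟩
      rw [← hX] at h2 ⊢
      have h3 : θ / 2 + 1 / (2 * θ) * D = (θ ^ 2 + D) / (2 * θ) := by
        field_simp
      rw [h3, le_div_iff₀ (by positivity)]
      have h4 := sq_nonneg (|X| - θ)
      have h5 : |X| ^ 2 = X ^ 2 := sq_abs X
      nlinarith
    refine (Finset.sum_le_sum fun g _ => hpt g).trans ?_
    have e2 : ∑ g, stirLaw (nnRate d L) t g * ∑ i : Fin n, (θ / 2 + 1 / (2 * θ) *
          DR g Finset.univ fun x => (if x ∈ B.image (fun b => y i + b) then
            1 / ((B.image (fun b => y i + b)).card : ℝ) else 0) -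
            1 / (Fintype.card (Fin d → ZMod L) : ℝ)) =
        ∑ i : Fin n, (θ / 2 + 1 / (2 * θ) * stirExp (nnRate d L) t (fun g =>
          DR g Finset.univ fun x => (if x ∈ B.image (fun b => y i + b) then
            1 / ((B.image (fun b => y i + b)).card : ℝ) else 0) -
            1 / (Fintype.card (Fin d → ZMod L) : ℝ))) := by
      have e3 := stirExp_sum (nnRate d L) t Finset.univ (fun (i : Fin n)
        (g : Perm (Fin d → ZMod L)) => (θ / 2 + 1 / (2 * θ) *
          DR g Finset.univ fun x => (if x ∈ B.image (fun b => y i + b) then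
            1 / ((B.image (fun b => y i + b)).card : ℝ) else 0) -
            1 / (Fintype.card (Fin d → ZMod L) : ℝ)))
      refine e3.trans (Finset.sum_congr rfl fun i _ => ?_)
      rw [stirExp_add, stirExp_smul, exp_const]
    rw [e2]
    refine (Finset.sum_le_card_nsmul _ _ θ fun i _ => ?_).trans (le_of_eq ?_)
    · rw [hom_shift t B hB]
      have h6 : 1 / (2 * θ) * stirExp (nnRate d L) t (fun g => DR g Finset.univ fun x =>
          (if x ∈ B then 1 / (B.card : ℝ) else 0) - 1 / (Fintype.card (Fin d → ZMod L) : ℝ)) ≤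
          1 / (2 * θ) * θ ^ 2 := mul_le_mul_of_nonneg_left hh (by positivity)
      have h7 : 1 / (2 * θ) * θ ^ 2 = θ / 2 := by
        field_simp
      linarith
    · rw [Finset.card_univ, Fintype.card_fin, nsmul_eq_mul]
  have h8 := abs_sub_le (QQ (nnRate d L) t x y) Av
    (stirExp (nnRate d L) t (fun g => dens g Finset.univ (0 : Fin d → ZMod L) ^ n))
  rw [mm_trans t n x] at s2
  linarith

end torus

end Pool.Agent.R517.PDS
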