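import Pool.Agent.R517.PDS.Defs
import Pool.Agent.Y998.LQ.Final
import Pool.Agent.Y998.CN.Tor

/-!
# Two-point function and Fourier coefficients
-/

set_option autoImplicit false

namespace Pool.Agent.R517.PDS

open Finset Equiv
open Pool.Agent.Y998.ST (stirLaw stirExp hop nnRate lam exp_const exp_nonneg nn_nonneg nn_symm
  nn_diag law_nonneg)
open Pool.Agent.Y998.LP (NN bfrac tdist)
open Pool.Agent.Y998.CN (law_sum law_conj same_conj nn_trans)

section gen

variable {V : Type} [Fintype V] [DecidableEq V]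

open Classical in
/-- two-point function -/
noncomputable def PP (J : V → V → ℝ) (t : ℝ) (x y : V) : ℝ :=
  stirExp J t (fun g => if g.SameCycle x y then 1 else 0)

theorem PP_self (J : V → V → ℝ) (t : ℝ) (x : V) : PP J t x x = 1 := by
  unfold PP
  simp only [Perm.SameCycle.refl, if_true]
  exact exp_const J t 1

theorem stirExp_add (J : V → V → ℝ) (t : ℝ) (F G : Perm V → ℝ) :
    stirExp J t (fun g => F g + G g) = stirExp J t F + stirExp J t G := by
  unfold stirExp
  rw [← Finset.sum_add_distrib]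
  exact Finset.sum_congr rfl fun g _ => by ring

theorem stirExp_smul (J : V → V → ℝ) (t : ℝ) (c : ℝ) (F : Perm V → ℝ) :
    stirExp J t (fun g => c * F g) = c * stirExp J t F := by
  unfold stirExp
  rw [Finset.mul_sum]
  exact Finset.sum_congr rfl fun g _ => by ring

theorem stirExp_sum (J : V → V → ℝ) (t : ℝ) {ι : Type} (I : Finset ι) (F : ι → Perm V → ℝ) :
    stirExp J t (fun g => ∑ i ∈ I, F i g) = ∑ i ∈ I, stirExp J t (F i) := by
  unfold stirExp
  rw [Finset.sum_comm]
  exact Finset.sum_congr rfl fun g _ => by rw [Finset.mul_sum]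

theorem exp_DR (J : V → V → ℝ) (t : ℝ) (S : Finset V) (u : V → ℝ) :
    stirExp J t (fun g => DR g S u) = ∑ x ∈ S, ∑ y ∈ S, u x * u y * PP J t x y := by
  classical
  unfold DR
  rw [stirExp_sum]
  refine Finset.sum_congr rfl fun x _ => ?_
  rw [stirExp_sum]
  refine Finset.sum_congr rfl fun y _ => ?_
  unfold PP
  rw [← stirExp_smul]
  congr 1
  funext g
  split_ifs <;> simp

theorem DS_one (g : Perm V) (S : Finset V) : DS g S (fun _ => 1) = DR g S (fun _ => 1) := by
  unfold DS DR
  refine Finset.sum_congr rfl fun x _ => Finset.sum_congr rfl fun y _ => ?_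
  simp

theorem PP_conj {J : V → V → ℝ} (σ : Perm V) (hJ : ∀ x y, J (σ x) (σ y) = J x y) (t : ℝ)
    (x y : V) : PP J t (σ x) (σ y) = PP J t x y := by
  classical
  unfold PP stirExp
  rw [← Equiv.sum_comp (MulAut.conj σ).toEquiv]
  refine Finset.sum_congr rfl fun g _ => ?_
  have e1 : (MulAut.conj σ).toEquiv g = σ * g * σ⁻¹ := rfl
  rw [e1, law_conj σ hJ]
  simp only [same_conj]

end gen

section torus

variable {d L : ℕ} [NeZero L]

theorem PP_trans (t : ℝ) (v x y : Fin d → ZMod L) :
    PP (nnRate d L) t (v + x) (v + y) = PP (nnRate d L) t x y := by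
  have h := PP_conj (J := nnRate d L) (Equiv.addLeft v) (fun x y => by
    simp only [Equiv.coe_addLeft]
    rw [add_comm v x, add_comm v y]
    exact nn_trans x y v) t x y
  simpa using h

theorem card_torus : (Fintype.card (Fin d → ZMod L) : ℝ) = (L : ℝ) ^ d := by
  rw [Fintype.card_fun, ZMod.card, Fintype.card_fin]
  push_cast
  rfl

/-- sum of a row of the two-point function -/
noncomputable def row (d L : ℕ) [NeZero L] (t : ℝ) : ℝ :=
  ∑ y : Fin d → ZMod L, PP (nnRate d L) t 0 y

theorem row_eq (t : ℝ) (x : Fin d → ZMod L) : ∑ y, PP (nnRate d L) t x y = row d L t := by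
  unfold row
  rw [← Equiv.sum_comp (Equiv.addLeft x)]
  refine Finset.sum_congr rfl fun y _ => ?_
  rw [Equiv.coe_addLeft]
  have := PP_trans (d := d) (L := L) t x 0 y
  rwa [add_zero] at this

theorem row_eq' (t : ℝ) (y : Fin d → ZMod L) : ∑ x, PP (nnRate d L) t x y = row d L t := by
  rw [← row_eq t y]
  refine Finset.sum_congr rfl fun x _ => ?_
  unfold PP
  congr 1
  funext g
  congr 1
  exact propext ⟨fun h => h.symm, fun h => h.symm⟩

/-- the mean square deviation of the densities of the cycles in `B` -/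
theorem hom_eq (t : ℝ) (B : Finset (Fin d → ZMod L)) (hB : 0 < B.card) :
    stirExp (nnRate d L) t (fun g => DR g Finset.univ fun x =>
      (if x ∈ B then 1 / (B.card : ℝ) else 0) - 1 / (Fintype.card (Fin d → ZMod L) : ℝ)) =
    1 / (B.card : ℝ) ^ 2 * (∑ x ∈ B, ∑ y ∈ B, PP (nnRate d L) t x y) -
      row d L t / (L : ℝ) ^ d := by
  have hL : (L : ℝ) ≠ 0 := by exact_mod_cast NeZero.ne L
  have hm : (B.card : ℝ) ≠ 0 := by exact_mod_cast hB.ne'
  rw [exp_DR, card_torus]
  obtain ⟨n, hn⟩ : ∃ n : ℝ, n = (L : ℝ) ^ d := ⟨_, rfl⟩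
  have hn0 : n ≠ 0 := by rw [hn]; exact pow_ne_zero _ hL
  rw [← hn]
  obtain ⟨a, ha⟩ : ∃ a : (Fin d → ZMod L) → ℝ, a = fun x => if x ∈ B then 1 / (B.card : ℝ) else 0 :=
    ⟨_, rfl⟩
  have ha' : ∀ x, (if x ∈ B then 1 / (B.card : ℝ) else 0) = a x := fun x => by rw [ha]
  simp only [ha']
  have hsa : ∑ x, a x = 1 := by
    rw [ha]
    rw [Finset.sum_ite_mem, Finset.univ_inter, Finset.sum_const, nsmul_eq_mul]
    field_simp
  have e1 : ∀ x y, (a x - 1 / n) * (a y - 1 / n) * PP (nnRate d L) t x y =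
      a x * a y * PP (nnRate d L) t x y - 1 / n * (a x * PP (nnRate d L) t x y) -
      1 / n * (a y * PP (nnRate d L) t x y) + 1 / n ^ 2 * PP (nnRate d L) t x y := by
    intro x y
    field_simp
    ring
  simp only [e1, Finset.sum_add_distrib, Finset.sum_sub_distrib, ← Finset.mul_sum]
  have s1 : ∑ x, ∑ y, a x * a y * PP (nnRate d L) t x y =
      1 / (B.card : ℝ) ^ 2 * (∑ x ∈ B, ∑ y ∈ B, PP (nnRate d L) t x y) := by
    rw [ha, Finset.mul_sum]
    rw [← Finset.sum_subset (Finset.subset_univ B)]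
    · refine Finset.sum_congr rfl fun x hx => ?_
      rw [Finset.mul_sum, ← Finset.sum_subset (Finset.subset_univ B)]
      · refine Finset.sum_congr rfl fun y hy => ?_
        dsimp only
        rw [if_pos hx, if_pos hy]
        field_simp
      · intro y _ hy
        dsimp only
        rw [if_neg hy]
        ring
    · intro x _ hx
      refine Finset.sum_eq_zero fun y _ => ?_
      dsimp only
      rw [if_neg hx]
      ring
  have s2 : ∑ x, a x * ∑ y, PP (nnRate d L) t x y = row d L t := by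
    rw [Finset.sum_congr rfl fun x _ => by rw [row_eq], ← Finset.sum_mul, hsa, one_mul]
  have s3 : ∑ x, ∑ y, a y * PP (nnRate d L) t x y = row d L t := by
    rw [Finset.sum_comm]
    have : ∀ y, ∑ x, a y * PP (nnRate d L) t x y = a y * row d L t := fun y => by
      rw [← Finset.mul_sum, row_eq']
    rw [Finset.sum_congr rfl fun y _ => this y, ← Finset.sum_mul, hsa, one_mul]
  have s4 : ∑ x, ∑ y, PP (nnRate d L) t x y = n * row d L t := by
    rw [Finset.sum_congr rfl fun x _ => row_eq t x, Finset.sum_const, Finset.card_univ,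
      nsmul_eq_mul, card_torus, hn]
  rw [s1, s2, s3, s4]
  field_simp
  ring

/-- Fourier coefficients of the two-point function -/
noncomputable def cc (d L : ℕ) [NeZero L] (t : ℝ) (k : Fin d → ZMod L) : ℝ :=
  stirExp (nnRate d L) t (fun g => DS g Finset.univ (ch k)) / ((L : ℝ) ^ d) ^ 2

theorem ch_zero (x : Fin d → ZMod L) : ch 0 x = 1 := by
  unfold ch
  simp

theorem ch_zero' (k : Fin d → ZMod L) : ch k 0 = 1 := by
  unfold ch
  simp

theorem cc_zero (t : ℝ) : cc d L t 0 = row d L t / (L : ℝ) ^ d := by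
  have hL : (L : ℝ) ≠ 0 := by exact_mod_cast NeZero.ne L
  unfold cc
  have h1 : (ch (0 : Fin d → ZMod L)) = fun _ => 1 := funext fun x => ch_zero x
  simp only [h1, DS_one]
  rw [exp_DR]
  simp only [one_mul, mul_one]
  rw [Finset.sum_congr rfl fun x _ => row_eq t x, Finset.sum_const, Finset.card_univ,
      nsmul_eq_mul, card_torus]
  have := pow_ne_zero d hL
  field_simp

theorem bh_zero (B : Finset (Fin d → ZMod L)) (hB : 0 < B.card) : bh B 0 = 1 := by
  unfold bh
  simp only [ch_zero, Finset.sum_const, nsmul_eq_mul, mul_one]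
  have : (B.card : ℂ) ≠ 0 := by exact_mod_cast hB.ne'
  exact div_self this

theorem sum_cc (hPAR : S_PAR) (t : ℝ) (B : Finset (Fin d → ZMod L)) (hB : 0 < B.card) :
    ∑ k, ‖bh B k‖ ^ 2 * cc d L t k =
      1 / (B.card : ℝ) ^ 2 * (∑ x ∈ B, ∑ y ∈ B, PP (nnRate d L) t x y) := by
  have hL : (L : ℝ) ≠ 0 := by exact_mod_cast NeZero.ne L
  have hn := pow_ne_zero d hL
  have hm : (B.card : ℝ) ≠ 0 := by exact_mod_cast hB.ne'
  have h1 : ∑ k, ‖bh B k‖ ^ 2 * stirExp (nnRate d L) t (fun g => DS g Finset.univ (ch k)) =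
      (L : ℝ) ^ d / (B.card : ℝ) ^ 2 * ((L : ℝ) ^ d * ∑ x ∈ B, ∑ y ∈ B, PP (nnRate d L) t x y) := by
    simp only [← stirExp_smul]
    rw [← stirExp_sum]
    have h2 : (fun g => ∑ k, ‖bh B k‖ ^ 2 * DS g Finset.univ (ch k)) = fun g =>
        (L : ℝ) ^ d / (B.card : ℝ) ^ 2 * ∑ v : Fin d → ZMod L,
          DR g (B.image fun b => v + b) (fun _ => 1) := by
      funext g
      have := hPAR d L g B hB (fun _ => 1)
      simp only [mul_one, DS_one] at this
      exact this
    rw [h2, stirExp_smul, stirExp_sum]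
    congr 1
    have h3 : ∀ v : Fin d → ZMod L, stirExp (nnRate d L) t
        (fun g => DR g (B.image fun b => v + b) (fun _ => 1)) =
        ∑ x ∈ B, ∑ y ∈ B, PP (nnRate d L) t x y := by
      intro v
      rw [exp_DR, Finset.sum_image (by intro a _ b _ h; exact add_left_cancel h)]
      refine Finset.sum_congr rfl fun x _ => ?_
      rw [Finset.sum_image (by intro a _ b _ h; exact add_left_cancel h)]
      refine Finset.sum_congr rfl fun y _ => ?_
      rw [PP_trans]
      ring
    rw [Finset.sum_congr rfl fun v _ => h3 v, Finset.sum_const, Finset.card_univ, nsmul_eq_mul,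
      card_torus]
  have h4 : ∑ k, ‖bh B k‖ ^ 2 * cc d L t k = (∑ k, ‖bh B k‖ ^ 2 *
      stirExp (nnRate d L) t (fun g => DS g Finset.univ (ch k))) / ((L : ℝ) ^ d) ^ 2 := by
    rw [Finset.sum_div]
    refine Finset.sum_congr rfl fun k _ => ?_
    unfold cc
    ring
  rw [h4, h1]
  field_simp

theorem sum_cc_one (hPAR : S_PAR) (t : ℝ) : ∑ k, cc d L t k = 1 := by
  have h := sum_cc (d := d) (L := L) hPAR t {0} (by simp)
  have h1 : ∀ k : Fin d → ZMod L, bh {0} k = 1 := by
    intro k
    unfold bh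
    simp [ch_zero']
  simp only [h1, norm_one, one_pow, one_mul, Finset.card_singleton, Nat.cast_one,
    Finset.sum_singleton, PP_self] at h
  rw [h]
  norm_num

theorem cc_nonneg (hDS : ∀ (g : Perm (Fin d → ZMod L)) (u : (Fin d → ZMod L) → ℂ),
    0 ≤ DS g Finset.univ u) {t : ℝ} (ht : 0 ≤ t) (k : Fin d → ZMod L) : 0 ≤ cc d L t k := by
  unfold cc
  refine div_nonneg ?_ (by positivity)
  unfold stirExp
  exact Finset.sum_nonneg fun g _ => mul_nonneg (law_nonneg nn_nonneg ht g) (hDS g _)

/-- the mean square deviation is the sum over the nonzero frequencies -/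
theorem hom_sum (hPAR : S_PAR) (t : ℝ) (B : Finset (Fin d → ZMod L)) (hB : 0 < B.card) :
    stirExp (nnRate d L) t (fun g => DR g Finset.univ fun x =>
      (if x ∈ B then 1 / (B.card : ℝ) else 0) - 1 / (Fintype.card (Fin d → ZMod L) : ℝ)) =
    ∑ k ∈ Finset.univ.erase (0 : Fin d → ZMod L), ‖bh B k‖ ^ 2 * cc d L t k := by
  rw [hom_eq t B hB, ← sum_cc hPAR t B hB, ← cc_zero,
    ← Finset.add_sum_erase Finset.univ _ (Finset.mem_univ (0 : Fin d → ZMod L)), bh_zero B hB]
  simp

end torus

end Pool.Agent.R517.PDS
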