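import Pool.Agent.R517.PDS.Hom1

/-!
# The low frequencies
-/

set_option autoImplicit false

namespace Pool.Agent.R517.PDS

open Finset Equiv
open Pool.Agent.Y998.ST (stirLaw stirExp hop nnRate lam exp_const exp_nonneg nn_nonneg nn_symm
  nn_diag law_nonneg)
open Pool.Agent.Y998.LP (NN bfrac tdist)

section torus

variable {d L : ℕ} [NeZero L]

theorem win_zero (M : ℕ) : (0 : Fin d → ZMod L) ∈ win d L M := by
  unfold win
  simp [ZMod.valMinAbs_zero]

theorem low_sum (hWIN : S_WIN) (hDS : ∀ (g : Perm (Fin d → ZMod L)) (u : (Fin d → ZMod L) → ℂ),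
    0 ≤ DS g Finset.univ u) (hL : 3 ≤ L) {t : ℝ} (ht : 0 ≤ t) (M : ℕ)
    (B : Finset (Fin d → ZMod L)) (η lm q : ℝ) (hη : 0 ≤ η) (hlm : 0 ≤ lm) (hq : 0 ≤ q)
    (hB : 0 < B.card)
    (hNN : ∀ v, ∀ x ∈ B, ∀ y ∈ B, NN (nnRate d L) (t / 2) (swap (v + x) (v + y)) ≤ η)
    (hhop : ∀ x y, hop (nnRate d L) t x y ≤ q) (hlm8 : lm ≤ 1 / 8)
    (hch : ∀ k ∈ win d L (3 * M), ∀ b ∈ B, ‖ch k b - 1‖ ≤ lm) (c : ℝ)
    (hlow : ∀ θ : Fin d → ZMod L, θ ≠ 0 → θ ∈ win d L M →
      c * (t * M / (L : ℝ) ^ 2) ^ 2 * ((win d L (3 * M)).card : ℝ) ≤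
        ∑ k ∈ win d L (3 * M), ∑ k' ∈ win d L (3 * M),
          if k + k' = θ then (ev t k - ev t k') ^ 2 else 0) :
    c * (t * M / (L : ℝ) ^ 2) ^ 2 * ∑ θ ∈ (win d L M).erase 0, cc d L t θ ≤
      16 * (8 / B.card + 3 * lm ^ 2 + η ^ 2 + 16 * lm * q) := by
  have hLr : (L : ℝ) ≠ 0 := by exact_mod_cast NeZero.ne L
  have hn : (0 : ℝ) < ((L : ℝ) ^ d) ^ 2 := by positivity
  obtain ⟨K, hK⟩ : ∃ K : ℝ, K = ((win d L (3 * M)).card : ℝ) := ⟨_, rfl⟩
  have hK0 : 0 < K := by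
    rw [hK]
    exact_mod_cast Finset.card_pos.2 ⟨0, win_zero _⟩
  have h1 := hWIN d L hL t ht B η lm q hη hlm hq hB hNN hhop hlm8 (win d L (3 * M)) hch
  have hcc := cc_nonneg (d := d) (L := L) hDS ht
  have h2 : ∑ k ∈ win d L (3 * M), ∑ k' ∈ win d L (3 * M), (ev t k - ev t k') ^ 2 *
      cc d L t (k + k') ≤ 16 * K * (8 / B.card + 3 * lm ^ 2 + η ^ 2 + 16 * lm * q) := by
    have e1 : ∑ k ∈ win d L (3 * M), ∑ k' ∈ win d L (3 * M), (ev t k - ev t k') ^ 2 *
        cc d L t (k + k') = (∑ k ∈ win d L (3 * M), ∑ k' ∈ win d L (3 * M),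
          (ev t k - ev t k') ^ 2 *
          stirExp (nnRate d L) t (fun g => DS g Finset.univ (ch (k + k')))) /
            ((L : ℝ) ^ d) ^ 2 := by
      rw [Finset.sum_div]
      refine Finset.sum_congr rfl fun k _ => ?_
      rw [Finset.sum_div]
      refine Finset.sum_congr rfl fun k' _ => ?_
      unfold cc
      ring
    rw [e1, div_le_iff₀ hn]
    refine h1.trans (le_of_eq ?_)
    rw [hK]
    ring
  have h3 : ∑ θ ∈ (win d L M).erase 0, (∑ k ∈ win d L (3 * M), ∑ k' ∈ win d L (3 * M),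
      if k + k' = θ then (ev t k - ev t k') ^ 2 else 0) * cc d L t θ ≤
      ∑ k ∈ win d L (3 * M), ∑ k' ∈ win d L (3 * M), (ev t k - ev t k') ^ 2 *
      cc d L t (k + k') := by
    have e2 : ∑ k ∈ win d L (3 * M), ∑ k' ∈ win d L (3 * M), (ev t k - ev t k') ^ 2 *
      cc d L t (k + k') = ∑ θ, (∑ k ∈ win d L (3 * M), ∑ k' ∈ win d L (3 * M),
      if k + k' = θ then (ev t k - ev t k') ^ 2 else 0) * cc d L t θ := by
      simp only [Finset.sum_mul]
      symm
      rw [Finset.sum_comm]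
      refine Finset.sum_congr rfl fun k _ => ?_
      rw [Finset.sum_comm]
      refine Finset.sum_congr rfl fun k' _ => ?_
      simp only [ite_mul, zero_mul]
      rw [Finset.sum_ite_eq, if_pos (Finset.mem_univ _)]
    rw [e2]
    refine Finset.sum_le_sum_of_subset_of_nonneg (Finset.subset_univ _) fun θ _ _ => ?_
    refine mul_nonneg (Finset.sum_nonneg fun k _ => Finset.sum_nonneg fun k' _ => ?_) (hcc θ)
    split_ifs
    · positivity
    · exact le_rfl
  have h4 : K * (c * (t * M / (L : ℝ) ^ 2) ^ 2 * ∑ θ ∈ (win d L M).erase 0, cc d L t θ) ≤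
      ∑ θ ∈ (win d L M).erase 0, (∑ k ∈ win d L (3 * M), ∑ k' ∈ win d L (3 * M),
      if k + k' = θ then (ev t k - ev t k') ^ 2 else 0) * cc d L t θ := by
    rw [Finset.mul_sum, Finset.mul_sum]
    refine Finset.sum_le_sum fun θ hθ => ?_
    rw [Finset.mem_erase] at hθ
    have := mul_le_mul_of_nonneg_right (hlow θ hθ.1 hθ.2) (hcc θ)
    rw [← hK] at this
    refine le_trans (le_of_eq ?_) this
    ring
  have h5 := h4.trans (h3.trans h2)
  have h6 : K * (c * (t * M / (L : ℝ) ^ 2) ^ 2 * ∑ θ ∈ (win d L M).erase 0, cc d L t θ) ≤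
      K * (16 * (8 / B.card + 3 * lm ^ 2 + η ^ 2 + 16 * lm * q)) := by
    refine h5.trans (le_of_eq ?_)
    ring
  exact le_of_mul_le_mul_left h6 hK0

/-- the two ranges of frequencies -/
theorem split_sum (hDS : ∀ (g : Perm (Fin d → ZMod L)) (u : (Fin d → ZMod L) → ℂ),
    0 ≤ DS g Finset.univ u) (hPAR : S_PAR) (hDIR : S_DIR) {t : ℝ} (ht : 0 ≤ t) (M R : ℕ)
    (hR : 1 ≤ R) (hRL : R ≤ L)
    (hbox : 0 < (box d L R).card) :
    ∑ k ∈ Finset.univ.erase (0 : Fin d → ZMod L), ‖bh (box d L R) k‖ ^ 2 * cc d L t k ≤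
      (L / (2 * (R * ((M : ℝ) + 1)))) ^ 2 + ∑ θ ∈ (win d L M).erase 0, cc d L t θ := by
  classical
  have hcc := cc_nonneg (d := d) (L := L) hDS ht
  have hle1 : ∀ k : Fin d → ZMod L, ‖bh (box d L R) k‖ ≤ 1 := by
    intro k
    unfold bh
    rw [norm_div, Complex.norm_natCast, div_le_one (by exact_mod_cast hbox)]
    refine (norm_sum_le _ _).trans ?_
    have : ∀ b : Fin d → ZMod L, ‖ch k b‖ = 1 := fun b => by
      unfold ch
      exact AddChar.norm_apply _ _
    simp only [this, Finset.sum_const, nsmul_eq_mul, mul_one]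
    exact le_rfl
  have hpt : ∀ k ∈ Finset.univ.erase (0 : Fin d → ZMod L), ‖bh (box d L R) k‖ ^ 2 * cc d L t k ≤
      (L / (2 * (R * ((M : ℝ) + 1)))) ^ 2 * cc d L t k +
        (if k ∈ (win d L M).erase 0 then cc d L t k else 0) := by
    intro k hk
    have hk0 : k ≠ 0 := (Finset.mem_erase.1 hk).1
    by_cases hw : k ∈ win d L M
    · rw [if_pos (Finset.mem_erase.2 ⟨hk0, hw⟩)]
      have h1 : ‖bh (box d L R) k‖ ^ 2 ≤ 1 := pow_le_one₀ (norm_nonneg _) (hle1 k)
      have h2 := mul_le_mul_of_nonneg_right h1 (hcc k)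
      have h3 : 0 ≤ (L / (2 * (R * ((M : ℝ) + 1)))) ^ 2 * cc d L t k :=
        mul_nonneg (sq_nonneg _) (hcc k)
      linarith
    · rw [if_neg (fun h => hw (Finset.mem_erase.1 h).2), add_zero]
      refine mul_le_mul_of_nonneg_right ?_ (hcc k)
      refine pow_le_pow_left₀ (norm_nonneg _) ?_ 2
      unfold win at hw
      simp only [Finset.mem_filter, Finset.mem_univ, true_and, not_forall, not_le] at hw
      obtain ⟨i, hi⟩ := hw
      have hki : k i ≠ 0 := by
        intro h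
        rw [h, ZMod.valMinAbs_zero] at hi
        simp at hi
      refine (hDIR d L R hR hRL k i hki).trans ?_
      have h1 : ((M : ℝ) + 1) ≤ |((k i).valMinAbs : ℝ)| := by
        have h2 : ((M + 1 : ℕ) : ℝ) ≤ ((k i).valMinAbs.natAbs : ℝ) := by exact_mod_cast hi
        rw [Nat.cast_natAbs] at h2
        push_cast at h2
        exact h2
      have hRr : (0 : ℝ) < R := by exact_mod_cast hR
      refine div_le_div_of_nonneg_left (by positivity) (by positivity) ?_
      have := mul_le_mul_of_nonneg_left h1 (by positivity : (0 : ℝ) ≤ 2 * R)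
      linarith
  refine (Finset.sum_le_sum hpt).trans ?_
  rw [Finset.sum_add_distrib, ← Finset.mul_sum]
  refine add_le_add ?_ ?_
  · refine mul_le_of_le_one_right (sq_nonneg _) ?_
    rw [← sum_cc_one (d := d) (L := L) hPAR t]
    exact Finset.sum_le_sum_of_subset_of_nonneg (Finset.erase_subset _ _) fun k _ _ => hcc k
  · rw [← Finset.sum_filter]
    refine Finset.sum_le_sum_of_subset_of_nonneg (fun k hk => (Finset.mem_filter.1 hk).2)
      fun k _ _ => hcc k

end torus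

end Pool.Agent.R517.PDS
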